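import Pool.Graph.R_pool_sql_team_seeded_f72693b1.W197.Rig.G3
import Pool.Graph.R_pool_sql_team_seeded_620a6dc7.H707.NV.Fin

/-! The fourth moment of the counts in windows. -/

open Filter Topology Set MeasureTheory

namespace Pool.Agent.H666.ZG

open SG (ord NZ)
open SP LG Rig
open Pool.Agent.H707.NV (cn hl hl_small cn_meas cn_nonneg cn_log log_small cn_pow_ii)

lemma cnt_nonneg {T : ℝ} (hT : 1 ≤ T) (t h : ℝ) : 0 ≤ Rig.cnt T t h := by
  rw [Rig.cnt_filter hT]
  exact Finset.sum_nonneg fun _ _ => Nat.cast_nonneg _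

lemma cn_le_cnt {T t h : ℝ} (hT : 1 ≤ T) (hh : 0 ≤ h) (h1 : T ≤ t) (h2 : t + h ≤ 2 * T) :
    cn h t ≤ Rig.cnt T t h := by
  unfold Pool.Agent.H707.NV.cn
  have hm : NZ t ≤ NZ (t + h) := SG.NZ_mono (by linarith)
  rcases Nat.eq_or_lt_of_le hm with h3 | h3
  · rw [h3, sub_self]
    exact cnt_nonneg hT t h
  · have g1 : t < ord (NZ t + 1) := by
      by_contra hc
      rw [not_lt] at hc
      have := (SG.ord_le_iff (by omega) _).1 hc
      omega
    have g2 : ord (NZ t + 1 + (NZ (t + h) - NZ t - 1)) ≤ t + h := by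
      apply (SG.ord_le_iff (by omega) _).2
      omega
    have := Rig.cnt_ge (t := t) (h := h) hT (n := NZ t + 1) (m := NZ (t + h) - NZ t - 1)
      (by omega) (by linarith) (by linarith) g1.le g2
    have e : ((NZ (t + h) - NZ t - 1 : ℕ) : ℝ) = (NZ (t + h) : ℝ) - NZ t - 1 := by
      rw [Nat.cast_sub (by omega), Nat.cast_sub (by omega)]
      norm_num
    rw [e] at this
    linarith

lemma cnt_le_cn {T t h : ℝ} (hT : 1 ≤ T) (hh : 0 ≤ h) (h1 : 1 ≤ NZ t) (h2 : ord (NZ t) ≠ t) :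
    Rig.cnt T t h ≤ cn h t := by
  unfold Pool.Agent.H707.NV.cn
  have hm : NZ t ≤ NZ (t + h) := SG.NZ_mono (by linarith)
  have g1 : ord (NZ t) < t := lt_of_le_of_ne ((SG.ord_le_iff h1 _).2 le_rfl) h2
  have g2 : t + h < ord (NZ t + (NZ (t + h) + 1 - NZ t)) := by
    by_contra hc
    rw [not_lt] at hc
    have := (SG.ord_le_iff (by omega) _).1 hc
    omega
  have := Rig.cnt_le (t := t) (h := h) hT hh (n := NZ t) (m := NZ (t + h) + 1 - NZ t) h1 g1 g2
  have e : ((NZ (t + h) + 1 - NZ t : ℕ) : ℝ) = (NZ (t + h) : ℝ) + 1 - NZ t := by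
    rw [Nat.cast_sub (by omega)]
    push_cast
    ring
  rw [e] at this
  linarith

lemma ae_not_ord : ∀ᵐ t : ℝ, ∀ n : ℕ, ord n ≠ t := by
  rw [ae_all_iff]
  intro n
  have : ({ord n} : Set ℝ)ᶜ ∈ ae (volume : Measure ℝ) := by
    rw [mem_ae_iff, compl_compl]
    exact Real.volume_singleton
  filter_upwards [this] with t ht h
  apply ht
  rw [h]
  exact mem_singleton _

lemma pow4_sum (a b c d e : ℝ) : (a + b + c + d + e) ^ 4 ≤
    125 * (a ^ 4 + b ^ 4 + c ^ 4 + d ^ 4 + e ^ 4) := by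
  have h1 : (a + b + c + d + e) ^ 2 ≤ 5 * (a ^ 2 + b ^ 2 + c ^ 2 + d ^ 2 + e ^ 2) := by
    nlinarith [sq_nonneg (a - b), sq_nonneg (a - c), sq_nonneg (a - d), sq_nonneg (a - e),
      sq_nonneg (b - c), sq_nonneg (b - d), sq_nonneg (b - e), sq_nonneg (c - d), sq_nonneg (c - e),
      sq_nonneg (d - e)]
  have h2 : (a ^ 2 + b ^ 2 + c ^ 2 + d ^ 2 + e ^ 2) ^ 2 ≤
      5 * (a ^ 4 + b ^ 4 + c ^ 4 + d ^ 4 + e ^ 4) := by
    nlinarith [sq_nonneg (a ^ 2 - b ^ 2), sq_nonneg (a ^ 2 - c ^ 2), sq_nonneg (a ^ 2 - d ^ 2),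
      sq_nonneg (a ^ 2 - e ^ 2), sq_nonneg (b ^ 2 - c ^ 2), sq_nonneg (b ^ 2 - d ^ 2),
      sq_nonneg (b ^ 2 - e ^ 2), sq_nonneg (c ^ 2 - d ^ 2), sq_nonneg (c ^ 2 - e ^ 2),
      sq_nonneg (d ^ 2 - e ^ 2)]
  calc (a + b + c + d + e) ^ 4 = ((a + b + c + d + e) ^ 2) ^ 2 := by ring
    _ ≤ (5 * (a ^ 2 + b ^ 2 + c ^ 2 + d ^ 2 + e ^ 2)) ^ 2 :=
        pow_le_pow_left₀ (sq_nonneg _) h1 2
    _ = 25 * (a ^ 2 + b ^ 2 + c ^ 2 + d ^ 2 + e ^ 2) ^ 2 := by ring
    _ ≤ 25 * (5 * (a ^ 4 + b ^ 4 + c ^ 4 + d ^ 4 + e ^ 4)) :=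
        mul_le_mul_of_nonneg_left h2 (by norm_num)
    _ = _ := by ring

lemma cnx_ii {h x : ℝ} (hh : 0 ≤ h) {a b : ℝ} (hab : a ≤ b) (j : ℕ) :
    IntervalIntegrable (fun t => (cn h t - x) ^ j) volume a b := by
  rw [intervalIntegrable_iff_integrableOn_Icc_of_le hab]
  apply Measure.integrableOn_of_bounded (M := ((NZ (b + h) : ℝ) + |x|) ^ j)
  · rw [Real.volume_Icc]; exact ENNReal.ofReal_ne_top
  · exact (((cn_meas h).sub_const x).pow_const j).aestronglyMeasurable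
  · rw [ae_restrict_iff' measurableSet_Icc]
    apply Filter.Eventually.of_forall
    intro t ht
    rw [Real.norm_eq_abs, abs_pow]
    apply pow_le_pow_left₀ (abs_nonneg _)
    have h1 := cn_nonneg hh t
    have h2 := Pool.Agent.H707.NV.cn_bdd (h := h) ht
    have h3 := le_abs_self x
    have h4 := neg_abs_le x
    rw [abs_le]
    constructor <;> linarith

/-- **the fourth moment of the counts** -/
theorem fourth (hRH : RiemannHypothesis) : ∃ C : ℝ, 1 ≤ C ∧ ∀ x : ℝ, 0 < x → ∀ᶠ V : ℝ in atTop,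
    ∫ t in V..(2 * V), (cn (hl x V) t - x) ^ 4 ≤ C * (1 + Real.log (1 + 2 * x)) ^ 4 * V := by
  have hRHs := Pool.Agent.H707.SM.rhs_of hRH
  obtain ⟨C, c0, Td, hC, hc0, hTd, hdev⟩ := Rig.dev_bound hRHs 1 (by norm_num)
  obtain ⟨CQ, TQ, hCQ, hTQ, hQ⟩ := CTAux.leb_mom (1 / 4) (by norm_num) (by norm_num)
  obtain ⟨CP, TP, hCP, hTP, hPm⟩ := Rig.mom_PS
  obtain ⟨CL, hCL, hloc⟩ := cn_log
  set K : ℝ := 125 * (16 * C ^ 4 + 48 * C ^ 4 * CQ ^ 2 + 16 * C ^ 4 * CP ^ 2 + C ^ 4) + 1 with hK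
  have hK1 : 1 ≤ K := by
    have : 0 ≤ 125 * (16 * C ^ 4 + 48 * C ^ 4 * CQ ^ 2 + 16 * C ^ 4 * CP ^ 2 + C ^ 4) := by
      positivity
    linarith
  refine ⟨K, hK1, fun x hx => ?_⟩
  have hlogbig : ∀ᶠ V : ℝ in atTop, 2 / c0 ≤ Real.log V :=
    Real.tendsto_log_atTop.eventually_ge_atTop _
  have hlog1 : ∀ᶠ V : ℝ in atTop, 10 ≤ Real.log V :=
    Real.tendsto_log_atTop.eventually_ge_atTop _
  have hedge : ∀ᶠ V : ℝ in atTop, (2 * Real.log V + 1) * (CL * Real.log (2 * V) + x) ^ 4 ≤ V := by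
    have h1 : (fun V : ℝ => (2 * Real.log V + 1) * (CL * Real.log (2 * V) + x) ^ 4) =o[atTop]
        fun V : ℝ => V := by
      have l1 : (fun V : ℝ => Real.log V) =o[atTop] fun V : ℝ => V ^ (1 / 10 : ℝ) :=
        isLittleO_log_rpow_atTop (by norm_num)
      have lc : (fun _ : ℝ => (1 : ℝ)) =o[atTop] fun V : ℝ => V ^ (1 / 10 : ℝ) := by
        rw [Asymptotics.isLittleO_const_left]
        right
        exact tendsto_norm_atTop_atTop.comp (tendsto_rpow_atTop (by norm_num))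
      have lA : (fun V : ℝ => 2 * Real.log V + 1) =o[atTop] fun V : ℝ => V ^ (1 / 10 : ℝ) :=
        (l1.const_mul_left 2).add lc
      have lB : (fun V : ℝ => CL * Real.log (2 * V) + x) =o[atTop] fun V : ℝ => V ^ (1 / 10 : ℝ) := by
        have e1 : (fun V : ℝ => CL * Real.log (2 * V) + x) =ᶠ[atTop]
            fun V : ℝ => CL * Real.log V + (CL * Real.log 2 + x) * 1 := by
          filter_upwards [eventually_gt_atTop 0] with V hV
          rw [Real.log_mul (by norm_num) hV.ne']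
          ring
        exact ((l1.const_mul_left CL).add (lc.const_mul_left _)).congr' e1.symm (EventuallyEq.refl _ _)
      have lB4 := lB.pow (n := 4) (by norm_num)
      have l5 := lA.mul lB4
      refine l5.trans_isBigO ?_
      apply Asymptotics.IsBigO.of_bound 1
      filter_upwards [eventually_ge_atTop 1] with V hV
      have hV0 : 0 ≤ V := by linarith
      have e1 : V ^ (1 / 10 : ℝ) * (V ^ (1 / 10 : ℝ)) ^ 4 = V ^ (1 / 2 : ℝ) := by
        rw [← Real.rpow_natCast, ← Real.rpow_mul hV0, ← Real.rpow_add (by linarith)]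
        norm_num
      rw [e1, Real.norm_of_nonneg (by positivity), Real.norm_of_nonneg hV0, one_mul]
      calc V ^ (1 / 2 : ℝ) ≤ V ^ (1 : ℝ) := Real.rpow_le_rpow_of_exponent_le hV (by norm_num)
        _ = V := Real.rpow_one V
    have h2 := h1.bound (c := 1) one_pos
    filter_upwards [h2, eventually_ge_atTop 1] with V h3 h4
    rw [one_mul, Real.norm_of_nonneg (by linarith : 0 ≤ V)] at h3
    exact (le_abs_self _).trans h3
  have hNZ1 : ∀ᶠ V : ℝ in atTop, ord 1 ≤ V := eventually_ge_atTop _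
  have hVlog : ∀ᶠ V : ℝ in atTop, 4 * Real.log V + 2 ≤ V := by
    have h1 := Real.isLittleO_log_id_atTop.bound (c := 1 / 8) (by norm_num)
    filter_upwards [h1, eventually_ge_atTop 4] with V h2 h3
    simp only [id] at h2
    rw [Real.norm_of_nonneg (Real.log_nonneg (by linarith)),
      Real.norm_of_nonneg (by linarith : (0 : ℝ) ≤ V)] at h2
    linarith
  filter_upwards [hlogbig, hlog1, hedge, hNZ1, hVlog, hl_small x hx, eventually_ge_atTop Td,
    eventually_ge_atTop TQ, eventually_ge_atTop TP] with V a1 a2 a3 a4 a5 a6 a7 a8 a9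
  have hV10 : 10 ≤ V := hTd.trans a7
  set h := hl x V with hh
  obtain ⟨hh0, hh1⟩ := a6
  set L := Real.log V with hL
  have hL0 : 0 < L := by linarith
  have hpi := Real.pi_pos
  have hpi4 := Real.pi_lt_four
  have hhL : h * L / (2 * Real.pi) = x := by
    rw [hh]
    unfold Pool.Agent.H707.NV.hl
    rw [← hL]
    field_simp
  set l := ell (1 / 4) V 2 with hl'
  have hlL : h * l ≤ 2 * x := by
    have e1 : l = 3 / 16 * L := by
      rw [hl', hL]
      unfold ell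
      push_cast
      ring
    have e2 : h * l = 3 / 16 * (2 * Real.pi * x) := by
      rw [e1]
      have : h * L = 2 * Real.pi * x := by
        rw [div_eq_iff (by positivity)] at hhL
        linarith
      calc h * (3 / 16 * L) = 3 / 16 * (h * L) := by ring
        _ = _ := by rw [this]
    rw [e2]
    nlinarith
  have hhl0 : 0 ≤ h * l := by
    have : 0 ≤ l := by
      rw [hl']
      unfold ell
      positivity
    positivity
  set v := 1 + Real.log (1 + h * l) with hv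
  have hv1 : 1 ≤ v := by
    have := Real.log_nonneg (show (1 : ℝ) ≤ 1 + h * l by linarith)
    linarith
  set w := 1 + Real.log (1 + 2 * x) with hw
  have hvw : v ≤ w := by
    have := Real.log_le_log (show (0 : ℝ) < 1 + h * l by linarith)
      (show 1 + h * l ≤ 1 + 2 * x by linarith)
    linarith
  have hw1 : 1 ≤ w := hv1.trans hvw
  -- functions
  obtain ⟨Q, hQd⟩ : ∃ Q : ℝ → ℝ, Q = fun t => ‖Q1 (1 / 4) V 2 t‖ := ⟨_, rfl⟩
  have hQc : Continuous Q := by
    rw [hQd]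
    exact (CTAux.Q1_cont (1 / 4) V 2).norm
  have hQ0 : ∀ t, 0 ≤ Q t := fun t => by rw [hQd]; exact norm_nonneg _
  obtain ⟨P, hPd⟩ : ∃ P : ℝ → ℝ, P = fun t => ‖Rig.PSum V h l (W3 l) t‖ := ⟨_, rfl⟩
  have hPc : Continuous P := by
    rw [hPd]
    exact (Rig.PSum_cont V h l (W3 l)).norm
  have hP0 : ∀ t, 0 ≤ P t := fun t => by rw [hPd]; exact norm_nonneg _
  have hl0 : 0 < l := MkB.ell_pos (κ := 1 / 4) (by norm_num) (by linarith) (by norm_num)
  have hw3 := W3_cont _ hl0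
  have mQ : ∀ V1 V2 : ℝ, V ≤ V1 → V1 ≤ V2 → V2 ≤ 2 * V →
      ∫ t in V1..V2, Q t ^ 4 ≤ 6 * V * (CQ / 2) ^ 2 := by
    intro V1 V2 b1 b2 b3
    have := hQ V a8 2 (by norm_num) V1 V2 b1 b2 b3
    rw [hQd]
    norm_num at this ⊢
    exact this
  have mP : ∀ V1 V2 : ℝ, V ≤ V1 → V1 ≤ V2 → V2 ≤ 2 * V →
      ∫ t in V1..V2, P t ^ 4 ≤ 4 * V * (CP * 2 * v) ^ 2 := by
    intro V1 V2 b1 b2 b3
    have := hPm V a9 2 h (by norm_num) hh0 (W3 l) (fun u _ => hw3.2 u) V1 V2 b1 b2 b3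
    rw [hPd]
    norm_num at this ⊢
    exact this
  have hk2 : ((2 : ℕ) : ℝ) ≤ c0 * L := by
    rw [div_le_iff₀ hc0] at a1
    push_cast
    linarith
  -- the middle
  have hmid0 : V + L ≤ 2 * V - L - 1 := by linarith
  have hpt : ∀ᵐ t, t ∈ Icc (V + L) (2 * V - L - 1) → (cn h t - x) ^ 4 ≤
      125 * (16 * C ^ 4 * 1 + 16 * C ^ 4 * Q t ^ 4 + 16 * C ^ 4 * Q (t + h) ^ 4 + C ^ 4 * P t ^ 4 +
        C ^ 4 * v ^ 4) := by
    filter_upwards [ae_not_ord] with t hne ht
    have b1 : V + L ≤ t := ht.1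
    have b2 : t + h ≤ 2 * V - L := by linarith [ht.2]
    have hcn : cn h t = Rig.cnt V t h := by
      apply le_antisymm
      · exact cn_le_cnt (by linarith) hh0 (by linarith) (by linarith)
      · apply cnt_le_cn (by linarith) hh0 _ (hne _)
        exact (SG.ord_le_iff le_rfl _).1 (by linarith)
    have hd := hdev V a7 t h hh0 hh1 b1 b2 2 (by norm_num) hk2
    rw [hhL, ← hcn] at hd
    have e1 : C * ((2 : ℕ) : ℝ) * (1 + ‖Q1 (1 / 4) V 2 t‖ + ‖Q1 (1 / 4) V 2 (t + h)‖) +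
      C * ‖Rig.PSum V h (ell (1 / 4) V 2) (W3 (ell (1 / 4) V 2)) t‖ +
      C * (1 + Real.log (1 + h * ell (1 / 4) V 2)) =
      2 * C + 2 * C * Q t + 2 * C * Q (t + h) + C * P t + C * v := by
      rw [hQd, hPd, hv, hl']
      push_cast
      ring
    rw [e1] at hd
    have e2 : (cn h t - x) ^ 4 = |cn h t - x| ^ 4 := by
      rw [← abs_pow, abs_of_nonneg]
      exact Even.pow_nonneg (by decide) _
    rw [e2]
    calc |cn h t - x| ^ 4 ≤ (2 * C + 2 * C * Q t + 2 * C * Q (t + h) + C * P t + C * v) ^ 4 :=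
          pow_le_pow_left₀ (abs_nonneg _) hd 4
      _ ≤ 125 * ((2 * C) ^ 4 + (2 * C * Q t) ^ 4 + (2 * C * Q (t + h)) ^ 4 + (C * P t) ^ 4 +
          (C * v) ^ 4) := pow4_sum _ _ _ _ _
      _ = _ := by ring
  have cQ : Continuous fun t => Q t ^ 4 := hQc.pow 4
  have cQ' : Continuous fun t => Q (t + h) ^ 4 := (hQc.comp (by fun_prop)).pow 4
  have cP : Continuous fun t => P t ^ 4 := hPc.pow 4
  have hmid : ∫ t in (V + L)..(2 * V - L - 1), (cn h t - x) ^ 4 ≤
      125 * (16 * C ^ 4 + 48 * C ^ 4 * CQ ^ 2 + 16 * C ^ 4 * CP ^ 2 + C ^ 4) * w ^ 4 * V := by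
    have h1 : ∫ t in (V + L)..(2 * V - L - 1), (cn h t - x) ^ 4 ≤
        ∫ t in (V + L)..(2 * V - L - 1), 125 * (16 * C ^ 4 * 1 + 16 * C ^ 4 * Q t ^ 4 +
          16 * C ^ 4 * Q (t + h) ^ 4 + C ^ 4 * P t ^ 4 + C ^ 4 * v ^ 4) := by
      apply intervalIntegral.integral_mono_ae_restrict hmid0 (cnx_ii hh0 hmid0 4)
      · apply Continuous.intervalIntegrable
        fun_prop
      · rw [EventuallyLE, ae_restrict_iff' measurableSet_Icc]
        exact hpt
    refine h1.trans ?_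
    have i1 : ∫ t in (V + L)..(2 * V - L - 1), 125 * (16 * C ^ 4 * 1 + 16 * C ^ 4 * Q t ^ 4 +
          16 * C ^ 4 * Q (t + h) ^ 4 + C ^ 4 * P t ^ 4 + C ^ 4 * v ^ 4) =
        125 * (16 * C ^ 4 * (2 * V - L - 1 - (V + L)) +
          16 * C ^ 4 * (∫ t in (V + L)..(2 * V - L - 1), Q t ^ 4) +
          16 * C ^ 4 * (∫ t in (V + L)..(2 * V - L - 1), Q (t + h) ^ 4) +
          C ^ 4 * (∫ t in (V + L)..(2 * V - L - 1), P t ^ 4) +
          C ^ 4 * v ^ 4 * (2 * V - L - 1 - (V + L))) := by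
      have k1 : IntervalIntegrable (fun _ : ℝ => 16 * C ^ 4 * (1 : ℝ)) volume (V + L) (2 * V - L - 1) :=
        continuous_const.intervalIntegrable _ _
      have k2 : IntervalIntegrable (fun t => 16 * C ^ 4 * Q t ^ 4) volume (V + L) (2 * V - L - 1) :=
        (continuous_const.mul cQ).intervalIntegrable _ _
      have k3 : IntervalIntegrable (fun t => 16 * C ^ 4 * Q (t + h) ^ 4) volume (V + L)
        (2 * V - L - 1) := (continuous_const.mul cQ').intervalIntegrable _ _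
      have k4 : IntervalIntegrable (fun t => C ^ 4 * P t ^ 4) volume (V + L) (2 * V - L - 1) :=
        (continuous_const.mul cP).intervalIntegrable _ _
      have k5 : IntervalIntegrable (fun _ : ℝ => C ^ 4 * v ^ 4) volume (V + L) (2 * V - L - 1) :=
        continuous_const.intervalIntegrable _ _
      rw [intervalIntegral.integral_const_mul, intervalIntegral.integral_add
        (((k1.add k2).add k3).add k4) k5, intervalIntegral.integral_add ((k1.add k2).add k3) k4,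
        intervalIntegral.integral_add (k1.add k2) k3, intervalIntegral.integral_add k1 k2]
      simp only [intervalIntegral.integral_const_mul, intervalIntegral.integral_const, smul_eq_mul]
      ring
    rw [i1]
    have m1 := mQ (V + L) (2 * V - L - 1) (by linarith) hmid0 (by linarith)
    have m2 : ∫ t in (V + L)..(2 * V - L - 1), Q (t + h) ^ 4 ≤ 6 * V * (CQ / 2) ^ 2 := by
      rw [intervalIntegral.integral_comp_add_right (fun t => Q t ^ 4) h]
      exact mQ _ _ (by linarith) (by linarith) (by linarith)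
    have m3 := mP (V + L) (2 * V - L - 1) (by linarith) hmid0 (by linarith)
    have hC4 : 0 < C ^ 4 := by positivity
    have n1 : 16 * C ^ 4 * (2 * V - L - 1 - (V + L)) ≤ 16 * C ^ 4 * V :=
      mul_le_mul_of_nonneg_left (by linarith) (by positivity)
    have n2 := mul_le_mul_of_nonneg_left m1 (show 0 ≤ 16 * C ^ 4 by positivity)
    have n3 := mul_le_mul_of_nonneg_left m2 (show 0 ≤ 16 * C ^ 4 by positivity)
    have n4 := mul_le_mul_of_nonneg_left m3 hC4.le
    have n5 : C ^ 4 * v ^ 4 * (2 * V - L - 1 - (V + L)) ≤ C ^ 4 * v ^ 4 * V :=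
      mul_le_mul_of_nonneg_left (by linarith) (by positivity)
    have hvw4 : v ^ 4 ≤ w ^ 4 := pow_le_pow_left₀ (by linarith) hvw 4
    have hw4 : 1 ≤ w ^ 4 := one_le_pow₀ hw1
    have hv2w4 : v ^ 2 ≤ w ^ 4 := (pow_le_pow_left₀ (by linarith) hvw 2).trans
      (pow_le_pow_right₀ hw1 (by norm_num))
    have hVp : 0 < V := by linarith
    have o1 : 16 * C ^ 4 * V ≤ 16 * C ^ 4 * w ^ 4 * V := by
      apply mul_le_mul_of_nonneg_right _ hVp.le
      exact le_mul_of_one_le_right (by positivity) hw4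
    have o2 : 16 * C ^ 4 * (6 * V * (CQ / 2) ^ 2) ≤ 24 * C ^ 4 * CQ ^ 2 * w ^ 4 * V := by
      have e : 16 * C ^ 4 * (6 * V * (CQ / 2) ^ 2) = 24 * C ^ 4 * CQ ^ 2 * V := by ring
      rw [e]
      apply mul_le_mul_of_nonneg_right _ hVp.le
      exact le_mul_of_one_le_right (by positivity) hw4
    have o4 : C ^ 4 * (4 * V * (CP * 2 * v) ^ 2) ≤ 16 * C ^ 4 * CP ^ 2 * w ^ 4 * V := by
      have e : C ^ 4 * (4 * V * (CP * 2 * v) ^ 2) = 16 * C ^ 4 * CP ^ 2 * v ^ 2 * V := by ring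
      rw [e]
      apply mul_le_mul_of_nonneg_right _ hVp.le
      exact mul_le_mul_of_nonneg_left hv2w4 (by positivity)
    have o5 : C ^ 4 * v ^ 4 * V ≤ C ^ 4 * w ^ 4 * V := by
      apply mul_le_mul_of_nonneg_right _ hVp.le
      exact mul_le_mul_of_nonneg_left hvw4 hC4.le
    have efin : 125 * (16 * C ^ 4 + 48 * C ^ 4 * CQ ^ 2 + 16 * C ^ 4 * CP ^ 2 + C ^ 4) * w ^ 4 * V =
        125 * (16 * C ^ 4 * w ^ 4 * V + 24 * C ^ 4 * CQ ^ 2 * w ^ 4 * V +
          24 * C ^ 4 * CQ ^ 2 * w ^ 4 * V + 16 * C ^ 4 * CP ^ 2 * w ^ 4 * V + C ^ 4 * w ^ 4 * V) := by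
      ring
    rw [efin]
    apply mul_le_mul_of_nonneg_left _ (by norm_num)
    linarith
  -- the edges
  have j1 := cnx_ii (x := x) hh0 (show V ≤ V + L by linarith) 4
  have j2 := cnx_ii (x := x) hh0 hmid0 4
  have j3 := cnx_ii (x := x) hh0 (show 2 * V - L - 1 ≤ 2 * V by linarith) 4
  rw [← intervalIntegral.integral_add_adjacent_intervals (j1.trans j2) j3,
    ← intervalIntegral.integral_add_adjacent_intervals j1 j2]
  have hb : ∀ t ∈ Icc V (2 * V), (cn h t - x) ^ 4 ≤ (CL * Real.log (2 * V) + x) ^ 4 := by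
    intro t ht
    have e2 : (cn h t - x) ^ 4 = |cn h t - x| ^ 4 := by
      rw [← abs_pow, abs_of_nonneg]
      exact Even.pow_nonneg (by decide) _
    rw [e2]
    apply pow_le_pow_left₀ (abs_nonneg _)
    have b1 := hloc V (by linarith) h hh1 t ht
    have b2 := cn_nonneg hh0 t
    rw [abs_le]
    constructor <;> linarith
  have d1 : ∫ t in V..(V + L), (cn h t - x) ^ 4 ≤ L * (CL * Real.log (2 * V) + x) ^ 4 := by
    have := intervalIntegral.integral_mono_on (by linarith) j1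
      (intervalIntegrable_const (c := (CL * Real.log (2 * V) + x) ^ 4))
      (fun t ht => hb t ⟨ht.1, by linarith [ht.2]⟩)
    rw [intervalIntegral.integral_const, smul_eq_mul] at this
    have e : V + L - V = L := by ring
    rw [e] at this
    exact this
  have d3 : ∫ t in (2 * V - L - 1)..(2 * V), (cn h t - x) ^ 4 ≤
      (L + 1) * (CL * Real.log (2 * V) + x) ^ 4 := by
    have := intervalIntegral.integral_mono_on (by linarith) j3
      (intervalIntegrable_const (c := (CL * Real.log (2 * V) + x) ^ 4))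
      (fun t ht => hb t ⟨by linarith [ht.1], ht.2⟩)
    rw [intervalIntegral.integral_const, smul_eq_mul] at this
    have e : 2 * V - (2 * V - L - 1) = L + 1 := by ring
    rw [e] at this
    exact this
  have efin : K * w ^ 4 * V =
      125 * (16 * C ^ 4 + 48 * C ^ 4 * CQ ^ 2 + 16 * C ^ 4 * CP ^ 2 + C ^ 4) * w ^ 4 * V +
        w ^ 4 * V := by
    rw [hK]
    ring
  have hwV : V ≤ w ^ 4 * V := le_mul_of_one_le_left (by linarith) (one_le_pow₀ hw1)
  have hedge2 : L * (CL * Real.log (2 * V) + x) ^ 4 + (L + 1) * (CL * Real.log (2 * V) + x) ^ 4 =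
      (2 * L + 1) * (CL * Real.log (2 * V) + x) ^ 4 := by ring
  rw [efin]
  linarith

end Pool.Agent.H666.ZG
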