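import Pool.Agent.H666.ZG.TA

/-! The variance of sums of consecutive gaps: transfer to the other normalisation. -/

open Filter Topology Set MeasureTheory

namespace Pool.Agent.H666.ZG

open SG (ord NZ)
open LG (dlt)

/-- the unfolded gaps `(γ_{n+1} - γ_n) / 2π · log (γ_n / 2π)` -/
noncomputable def dl (n : ℕ) : ℝ :=
  (ord (n + 1) - ord n) / (2 * Real.pi) * Real.log (ord n / (2 * Real.pi))

/-- the sum of `r` consecutive unfolded gaps -/
noncomputable def Sd (r n : ℕ) : ℝ := ∑ i ∈ Finset.range r, dl (n + i)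

lemma dl_near (hRH : RiemannHypothesis) {e : ℝ} (he : 0 < e) (he1 : e ≤ 1) :
    ∃ n0 : ℕ, 1 ≤ n0 ∧ ∀ n : ℕ, n0 ≤ n → 0 ≤ dlt n ∧ dl n ≤ dlt n ∧ (1 - e) * dlt n ≤ dl n := by
  have hpi := Real.pi_gt_three
  obtain ⟨V1, hV10, hV1⟩ := dlt_up (e / 2) (by linarith)
  have hord : Tendsto (fun n : ℕ => ord n) atTop atTop := SG.ord_tendsto
  have ev1 : ∀ᶠ n : ℕ in atTop, NZ (ord n) + 1 ≤ NZ ((1 + 1 / 2) * ord n) :=
    hord.eventually (NZ_add hRH 1 (ε := 1 / 2) (by norm_num))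
  have ev2 : ∀ᶠ n : ℕ in atTop, V1 ≤ ord n := hord.eventually_ge_atTop V1
  have ev3 : ∀ᶠ n : ℕ in atTop, Real.log (2 * Real.pi) * (2 / e) ≤ Real.log (ord n) :=
    (Real.tendsto_log_atTop.comp hord).eventually_ge_atTop _
  obtain ⟨n0, hn0⟩ := ((ev1.and ev2).and ev3).exists_forall_of_atTop
  refine ⟨max 1 n0, le_max_left _ _, fun n hn => ?_⟩
  have hn1 : 1 ≤ n := (le_max_left _ _).trans hn
  obtain ⟨⟨c1, c2⟩, c3⟩ := hn0 n ((le_max_right _ _).trans hn)
  have h10 : 10 ≤ ord n := hV10.trans c2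
  have hle : n ≤ NZ (ord n) := SG.le_NZ_ord hn1
  have h3 : ord (n + 1) ≤ 3 * ord n := by
    have h4 : ord (n + 1) ≤ (1 + 1 / 2) * ord n := (SG.ord_le_iff (by omega) _).2 (by omega)
    linarith
  have u1 := hV1 (ord n) c2 n hn1 le_rfl h3
  have u2 := dlt_low h10 hn1 (le_refl (ord n))
  set X := Real.log (ord n) / (2 * Real.pi) * (ord (n + 1) - ord n) with hX
  have hgap : 0 ≤ ord (n + 1) - ord n := sub_nonneg.2 (SG.ord_mono hn1 (by omega))
  have hlog : 0 < Real.log (ord n) := Real.log_pos (by linarith)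
  have hX0 : 0 ≤ X := by positivity
  have hl2 : 0 ≤ Real.log (2 * Real.pi) := Real.log_nonneg (by linarith)
  have hdl : dl n = X - (ord (n + 1) - ord n) / (2 * Real.pi) * Real.log (2 * Real.pi) := by
    unfold dl
    rw [Real.log_div (by linarith) (by linarith), hX]
    ring
  have h5 : (ord (n + 1) - ord n) / (2 * Real.pi) * Real.log (2 * Real.pi) ≤ e / 2 * X := by
    have h6 : Real.log (2 * Real.pi) ≤ e / 2 * Real.log (ord n) := by
      have h7 := mul_le_mul_of_nonneg_left c3 (show 0 ≤ e / 2 by linarith)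
      have h8 : e / 2 * (Real.log (2 * Real.pi) * (2 / e)) = Real.log (2 * Real.pi) := by
        field_simp
      linarith
    calc _ ≤ (ord (n + 1) - ord n) / (2 * Real.pi) * (e / 2 * Real.log (ord n)) :=
          mul_le_mul_of_nonneg_left h6 (by positivity)
      _ = _ := by rw [hX]; ring
  have h9 : 0 ≤ (ord (n + 1) - ord n) / (2 * Real.pi) * Real.log (2 * Real.pi) := by positivity
  refine ⟨hX0.trans u2, by linarith, ?_⟩
  have h11 : (1 - e) * dlt n ≤ (1 - e) * ((1 + e / 2) * X) :=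
    mul_le_mul_of_nonneg_left u1 (by linarith)
  have h12 : (1 - e) * ((1 + e / 2) * X) ≤ (1 - e / 2) * X := by
    have : 0 ≤ e ^ 2 * X := by positivity
    nlinarith
  linarith

lemma Sd_near (hRH : RiemannHypothesis) (r : ℕ) {e : ℝ} (he : 0 < e) (he1 : e ≤ 1 / 8) :
    ∃ n0 : ℕ, 1 ≤ n0 ∧ ∀ n : ℕ, n0 ≤ n →
      |(Sd r n - r) ^ 2 - (Sr r n - r) ^ 2| ≤ 8 * e * (Sr r n - r) ^ 2 + 8 * e * r ^ 2 := by
  obtain ⟨n0, hn0, h⟩ := dl_near hRH he (by linarith)
  refine ⟨n0, hn0, fun n hn => ?_⟩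
  have h1 : Sd r n ≤ Sr r n := Finset.sum_le_sum fun i _ => (h (n + i) (by omega)).2.1
  have h2 : (1 - e) * Sr r n ≤ Sd r n := by
    unfold Sr
    rw [Finset.mul_sum]
    exact Finset.sum_le_sum fun i _ => (h (n + i) (by omega)).2.2
  have h3 : 0 ≤ Sr r n := Finset.sum_nonneg fun i _ => (h (n + i) (by omega)).1
  have hr : (0 : ℝ) ≤ r := Nat.cast_nonneg r
  set S := Sr r n with hS
  set T := Sd r n with hT
  set x : ℝ := (r : ℝ) with hx
  -- `|T - S| ≤ e S`
  have h4 : S - T ≤ e * S := by linarith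
  have h5 : 0 ≤ S - T := by linarith
  have h6 : (T - x) ^ 2 - (S - x) ^ 2 = (S - T) ^ 2 - 2 * (S - T) * (S - x) := by ring
  have h7 : (S - T) ^ 2 ≤ e * (e * S ^ 2) := by nlinarith
  have h8 : S ^ 2 ≤ 2 * (S - x) ^ 2 + 2 * x ^ 2 := by nlinarith [sq_nonneg (S - 2 * x)]
  have h9 : |2 * (S - T) * (S - x)| ≤ 2 * e * (S * |S - x|) := by
    rw [abs_mul, abs_of_nonneg (by linarith : 0 ≤ 2 * (S - T))]
    have := mul_le_mul_of_nonneg_right h4 (abs_nonneg (S - x))
    nlinarith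
  have h10 : S * |S - x| ≤ S ^ 2 / 2 + (S - x) ^ 2 / 2 := by
    have := sq_abs (S - x)
    nlinarith [sq_nonneg (S - |S - x|)]
  have h11 : e * (e * S ^ 2) ≤ e * (1 / 8 * S ^ 2) := by
    apply mul_le_mul_of_nonneg_left _ he.le
    exact mul_le_mul_of_nonneg_right he1 (sq_nonneg _)
  have h12 : e * S ^ 2 ≤ e * (2 * (S - x) ^ 2 + 2 * x ^ 2) := mul_le_mul_of_nonneg_left h8 he.le
  have h13 : 2 * e * (S * |S - x|) ≤ 2 * e * (S ^ 2 / 2 + (S - x) ^ 2 / 2) :=
    mul_le_mul_of_nonneg_left h10 (by linarith)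
  have h14 : 0 ≤ e * x ^ 2 := by positivity
  have h15 : 0 ≤ e * (S - x) ^ 2 := by positivity
  rw [h6, abs_le]
  have h16 := abs_le.1 h9
  constructor
  · nlinarith [sq_nonneg (S - T)]
  · nlinarith

/-- **the variance in the other normalisation** -/
theorem Sd_var (hRH : RiemannHypothesis) : ∃ K : ℝ, 0 ≤ K ∧ ∀ r : ℕ, 16 ≤ r →
    ∀ᶠ N : ℕ in atTop, |∑ n ∈ Finset.Icc 1 N, (Sd r n - r) ^ 2 - Real.log r / Real.pi ^ 2 * N| ≤
      K * (Real.sqrt (Real.log r) * Real.log (Real.log r)) * N := by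
  obtain ⟨K, hK, h⟩ := VS_all hRH
  refine ⟨K + 2, by linarith, fun r hr => ?_⟩
  have hr1 : 1 ≤ r := by omega
  have hr16 : (16 : ℝ) ≤ r := by exact_mod_cast hr
  have hlog16 : (2.77 : ℝ) ≤ Real.log 16 := by
    rw [show (16 : ℝ) = 2 ^ 4 by norm_num, Real.log_pow]
    have := Real.log_two_gt_d9
    push_cast
    linarith
  have hl : 2.77 ≤ Real.log (r : ℝ) :=
    hlog16.trans (Real.log_le_log (by norm_num) hr16)
  have hw : 1 ≤ Real.log (Real.log (r : ℝ)) := by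
    rw [Real.le_log_iff_exp_le (by linarith)]
    have := Real.exp_one_lt_d9
    linarith
  have hsw : 1 ≤ Real.sqrt (Real.log r) * Real.log (Real.log r) := sqrt_mul_ge (by linarith) hw
  set X := Real.sqrt (Real.log r) * Real.log (Real.log r) with hX
  have hM0 : 0 < 8 * (|Bd r| + 1) + 8 * (r : ℝ) ^ 2 := by positivity
  set M : ℝ := 8 * (|Bd r| + 1) + 8 * (r : ℝ) ^ 2 with hM
  set e : ℝ := min (1 / 8) (1 / M) with he
  have he0 : 0 < e := lt_min (by norm_num) (by positivity)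
  have he1 : e ≤ 1 / 8 := min_le_left _ _
  have heM : e * M ≤ 1 := by
    have : e ≤ 1 / M := min_le_right _ _
    rwa [le_div_iff₀ hM0] at this
  obtain ⟨n0, hn0, hnear⟩ := Sd_near hRH r he0 he1
  set D : ℝ := ∑ n ∈ Finset.range n0, |(Sd r n - r) ^ 2 - (Sr r n - r) ^ 2| with hD
  have hev : ∀ᶠ N : ℕ in atTop, D ≤ (N : ℝ) := tendsto_natCast_atTop_atTop.eventually_ge_atTop D
  filter_upwards [h r hr, var_le hRH hr1 one_pos, hev] with N h1 h2 h3
  have hN0 : (0 : ℝ) ≤ N := Nat.cast_nonneg N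
  have h4 : |∑ n ∈ Finset.Icc 1 N, (Sd r n - r) ^ 2 - VS r N| ≤
      D + (8 * e * VS r N + 8 * e * r ^ 2 * N) := by
    unfold VS
    rw [← Finset.sum_sub_distrib]
    refine (Finset.abs_sum_le_sum_abs _ _).trans ?_
    have h5 : ∀ n ∈ Finset.Icc 1 N, |(Sd r n - r) ^ 2 - (Sr r n - r) ^ 2| ≤
        (if n ∈ Finset.range n0 then |(Sd r n - r) ^ 2 - (Sr r n - r) ^ 2| else 0) +
          (8 * e * (Sr r n - r) ^ 2 + 8 * e * r ^ 2) := by
      intro n _
      have h6 : 0 ≤ 8 * e * (Sr r n - r) ^ 2 + 8 * e * r ^ 2 := by positivity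
      split_ifs with h7
      · linarith
      · rw [Finset.mem_range, not_lt] at h7
        have := hnear n h7
        linarith
    refine (Finset.sum_le_sum h5).trans ?_
    rw [Finset.sum_add_distrib, Finset.sum_add_distrib, Finset.sum_const, nsmul_eq_mul,
      Nat.card_Icc, Nat.add_sub_cancel, ← Finset.mul_sum, ← Finset.sum_filter]
    have h6 : ∑ n ∈ (Finset.Icc 1 N).filter (fun n => n ∈ Finset.range n0),
        |(Sd r n - r) ^ 2 - (Sr r n - r) ^ 2| ≤ D := by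
      apply Finset.sum_le_sum_of_subset_of_nonneg
      · intro n hn
        exact (Finset.mem_filter.1 hn).2
      · intro n _ _
        exact abs_nonneg _
    have h7 : (N : ℝ) * (8 * e * r ^ 2) = 8 * e * r ^ 2 * N := by ring
    rw [h7]
    linarith
  have h5 : 8 * e * VS r N + 8 * e * r ^ 2 * N ≤ 1 * N := by
    have h6 : VS r N ≤ (|Bd r| + 1) * N := by
      refine h2.trans (mul_le_mul_of_nonneg_right ?_ hN0)
      have := le_abs_self (Bd r)
      linarith
    have h7 : 8 * e * VS r N ≤ 8 * e * ((|Bd r| + 1) * N) :=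
      mul_le_mul_of_nonneg_left h6 (by positivity)
    have h8 := mul_le_mul_of_nonneg_right heM hN0
    have h9 : e * M * N = 8 * e * ((|Bd r| + 1) * N) + 8 * e * r ^ 2 * N := by
      rw [hM]; ring
    linarith
  have h6 : 2 * (N : ℝ) ≤ 2 * X * N := by
    have := mul_le_mul_of_nonneg_right hsw hN0
    linarith
  have h7 : (K + 2) * X * N = K * X * N + 2 * X * N := by ring
  rw [h7]
  have h8 := abs_sub_le (∑ n ∈ Finset.Icc 1 N, (Sd r n - r) ^ 2) (VS r N)
    (Real.log r / Real.pi ^ 2 * N)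
  linarith

end Pool.Agent.H666.ZG
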