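import Pool.Agent.H666.ZG.Var2
import Pool.Graph.R_pool_sql_team_seeded_2aa45f1a.Q173.GM.Trans

/-! Covariances of the gaps. -/

open Filter Topology Set MeasureTheory

namespace Pool.Agent.H666.ZG

open Pool.Agent.H707.SM (const_small sum_dlt_le sum_dlt_ge)
open LG (dlt)

/-! ### Generalities on a sequence `a` with `a n ^ 2 = o(n)` -/

lemma tel (f : ℕ → ℝ) (N : ℕ) :
    ∑ n ∈ Finset.Icc 1 N, f (n + 1) = ∑ n ∈ Finset.Icc 1 N, f n + f (N + 1) - f 1 := by
  induction N with
  | zero => simp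
  | succ N ih =>
    rw [Finset.sum_Icc_succ_top (by omega), Finset.sum_Icc_succ_top (by omega), ih]
    ring

/-- `cov N k` for a sequence -/
noncomputable def cv (a : ℕ → ℝ) (N k : ℕ) : ℝ :=
  (1 / N : ℝ) * ∑ n ∈ Finset.Icc 1 N, a n * a (n + k)

lemma shift_lim {b : ℕ → ℝ} (hb : Tendsto (fun n : ℕ => b n / n) atTop (𝓝 0)) (i : ℕ) :
    Tendsto (fun N : ℕ => (1 / N : ℝ) * ∑ n ∈ Finset.Icc 1 N, b (n + i) -
      (1 / N : ℝ) * ∑ n ∈ Finset.Icc 1 N, b n) atTop (𝓝 0) := by
  induction i with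
  | zero => simp
  | succ i ih =>
    have h1 : ∀ N : ℕ, (1 / N : ℝ) * ∑ n ∈ Finset.Icc 1 N, b (n + (i + 1)) -
        (1 / N : ℝ) * ∑ n ∈ Finset.Icc 1 N, b n =
        ((1 / N : ℝ) * ∑ n ∈ Finset.Icc 1 N, b (n + i) -
        (1 / N : ℝ) * ∑ n ∈ Finset.Icc 1 N, b n) + (b (N + 1 + i) / N - b (1 + i) / N) := by
      intro N
      have h2 := tel (fun n => b (n + i)) N
      have h3 : ∑ n ∈ Finset.Icc 1 N, b (n + (i + 1)) = ∑ n ∈ Finset.Icc 1 N, b (n + 1 + i) := by
        apply Finset.sum_congr rfl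
        intro n _
        congr 1
        ring
      rw [h3, h2]
      ring
    simp only [h1]
    have h4 : Tendsto (fun N : ℕ => b (1 + i) / N) atTop (𝓝 0) :=
      tendsto_const_nhds.div_atTop tendsto_natCast_atTop_atTop
    have h5 : Tendsto (fun N : ℕ => b (N + 1 + i) / N) atTop (𝓝 0) := by
      have h6 : Tendsto (fun N : ℕ => b (N + (1 + i)) / ((N + (1 + i) : ℕ) : ℝ)) atTop (𝓝 0) :=
        hb.comp (tendsto_add_atTop_nat (1 + i))
      have h7 : Tendsto (fun N : ℕ => ((N + (1 + i) : ℕ) : ℝ) / N) atTop (𝓝 1) := by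
        have h8 : Tendsto (fun N : ℕ => 1 + ((1 + i : ℕ) : ℝ) / N) atTop (𝓝 (1 + 0)) :=
          tendsto_const_nhds.add (tendsto_const_nhds.div_atTop tendsto_natCast_atTop_atTop)
        rw [add_zero] at h8
        refine h8.congr' ?_
        filter_upwards [eventually_gt_atTop 0] with N hN
        have : (N : ℝ) ≠ 0 := by positivity
        push_cast
        field_simp
      have h9 := h6.mul h7
      rw [zero_mul] at h9
      refine h9.congr' ?_
      filter_upwards [eventually_gt_atTop 0] with N hN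
      have : (N : ℝ) ≠ 0 := by positivity
      have h10 : ((N + (1 + i) : ℕ) : ℝ) ≠ 0 := by positivity
      rw [← add_assoc] at h10 ⊢
      field_simp
    have := ih.add (h5.sub h4)
    simpa using this

lemma prod_small {a : ℕ → ℝ} (ha : Tendsto (fun n : ℕ => a n ^ 2 / n) atTop (𝓝 0)) (k : ℕ) :
    Tendsto (fun n : ℕ => (a n * a (n + k)) / n) atTop (𝓝 0) := by
  have h6 : Tendsto (fun N : ℕ => a (N + k) ^ 2 / ((N + k : ℕ) : ℝ)) atTop (𝓝 0) :=
    ha.comp (tendsto_add_atTop_nat k)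
  have h7 : Tendsto (fun N : ℕ => ((N + k : ℕ) : ℝ) / N) atTop (𝓝 1) := by
    have h8 : Tendsto (fun N : ℕ => 1 + (k : ℝ) / N) atTop (𝓝 (1 + 0)) :=
      tendsto_const_nhds.add (tendsto_const_nhds.div_atTop tendsto_natCast_atTop_atTop)
    rw [add_zero] at h8
    refine h8.congr' ?_
    filter_upwards [eventually_gt_atTop 0] with N hN
    have : (N : ℝ) ≠ 0 := by positivity
    push_cast
    field_simp
  have h9 := h6.mul h7
  rw [zero_mul] at h9
  have h10 : Tendsto (fun N : ℕ => a (N + k) ^ 2 / (N : ℝ)) atTop (𝓝 0) := by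
    refine h9.congr' ?_
    filter_upwards [eventually_gt_atTop 0] with N hN
    have : (N : ℝ) ≠ 0 := by positivity
    have h10 : ((N + k : ℕ) : ℝ) ≠ 0 := by positivity
    field_simp
  have h11 := ha.add h10
  rw [add_zero] at h11
  apply squeeze_zero_norm' _ h11
  filter_upwards [eventually_gt_atTop 0] with N hN
  have hN0 : (0 : ℝ) < N := by exact_mod_cast hN
  rw [Real.norm_eq_abs, abs_div, abs_of_pos hN0, ← add_div]
  apply div_le_div_of_nonneg_right _ hN0.le
  rw [abs_le]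
  constructor <;> nlinarith [sq_nonneg (a N + a (N + k)), sq_nonneg (a N - a (N + k))]

/-- the double sum of a function of `|i - j|` -/
lemma toep (c : ℕ → ℝ) (m : ℕ) :
    ∑ i ∈ Finset.range m, ∑ j ∈ Finset.range m, c (max i j - min i j) =
      m * c 0 + 2 * ∑ k ∈ Finset.Ico 1 m, ((m : ℝ) - k) * c k := by
  induction m with
  | zero => simp
  | succ m ih =>
    rw [Finset.sum_range_succ]
    have h1 : ∑ i ∈ Finset.range m, ∑ j ∈ Finset.range (m + 1), c (max i j - min i j) =
        ∑ i ∈ Finset.range m, ∑ j ∈ Finset.range m, c (max i j - min i j) +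
        ∑ i ∈ Finset.range m, c (m - i) := by
      rw [← Finset.sum_add_distrib]
      apply Finset.sum_congr rfl
      intro i hi
      rw [Finset.mem_range] at hi
      rw [Finset.sum_range_succ, max_eq_right hi.le, min_eq_left hi.le]
    have h2 : ∑ j ∈ Finset.range (m + 1), c (max m j - min m j) =
        ∑ j ∈ Finset.range m, c (m - j) + c 0 := by
      rw [Finset.sum_range_succ, max_self, min_self, Nat.sub_self]
      congr 1
      apply Finset.sum_congr rfl
      intro j hj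
      rw [Finset.mem_range] at hj
      rw [max_eq_left hj.le, min_eq_right hj.le]
    have h3 : ∑ j ∈ Finset.range m, c (m - j) = ∑ k ∈ Finset.Ico 1 (m + 1), c k := by
      rw [← Finset.sum_range_reflect, Finset.sum_Ico_eq_sum_range]
      apply Finset.sum_congr (by simp)
      intro j hj
      rw [Finset.mem_range] at hj
      congr 1
      omega
    rw [h1, h2, ih, h3]
    have h4 : ∑ k ∈ Finset.Ico 1 (m + 1), (((m + 1 : ℕ) : ℝ) - k) * c k =
        ∑ k ∈ Finset.Ico 1 m, ((m : ℝ) - k) * c k + ∑ k ∈ Finset.Ico 1 (m + 1), c k := by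
      rcases Nat.eq_zero_or_pos m with h0 | h0
      · subst h0; simp
      · rw [Finset.sum_Ico_succ_top (by omega), Finset.sum_Ico_succ_top (f := fun k => c k) (by omega)]
        have h5 : ∑ k ∈ Finset.Ico 1 m, (((m + 1 : ℕ) : ℝ) - k) * c k =
            ∑ k ∈ Finset.Ico 1 m, ((m : ℝ) - k) * c k + ∑ k ∈ Finset.Ico 1 m, c k := by
          rw [← Finset.sum_add_distrib]
          apply Finset.sum_congr rfl
          intro k _
          push_cast
          ring
        rw [h5]
        push_cast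
        ring
    rw [h4]
    push_cast
    ring

/-- **the mean square of the sums in terms of the covariances** -/
theorem expand {a : ℕ → ℝ} (ha : Tendsto (fun n : ℕ => a n ^ 2 / n) atTop (𝓝 0)) (m : ℕ) :
    Tendsto (fun N : ℕ => (1 / N : ℝ) * ∑ n ∈ Finset.Icc 1 N, (∑ i ∈ Finset.range m, a (n + i)) ^ 2 -
      (m * cv a N 0 + 2 * ∑ k ∈ Finset.Ico 1 m, ((m : ℝ) - k) * cv a N k)) atTop (𝓝 0) := by
  have h1 : ∀ N : ℕ, (1 / N : ℝ) * ∑ n ∈ Finset.Icc 1 N, (∑ i ∈ Finset.range m, a (n + i)) ^ 2 -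
      (m * cv a N 0 + 2 * ∑ k ∈ Finset.Ico 1 m, ((m : ℝ) - k) * cv a N k) =
      ∑ i ∈ Finset.range m, ∑ j ∈ Finset.range m,
        ((1 / N : ℝ) * ∑ n ∈ Finset.Icc 1 N, a (n + i) * a (n + j) -
          cv a N (max i j - min i j)) := by
    intro N
    rw [← toep (fun k => cv a N k) m]
    have h2 : (1 / N : ℝ) * ∑ n ∈ Finset.Icc 1 N, (∑ i ∈ Finset.range m, a (n + i)) ^ 2 =
        ∑ i ∈ Finset.range m, ∑ j ∈ Finset.range m,
          (1 / N : ℝ) * ∑ n ∈ Finset.Icc 1 N, a (n + i) * a (n + j) := by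
      have h3 : ∑ n ∈ Finset.Icc 1 N, (∑ i ∈ Finset.range m, a (n + i)) ^ 2 =
          ∑ i ∈ Finset.range m, ∑ j ∈ Finset.range m, ∑ n ∈ Finset.Icc 1 N, a (n + i) * a (n + j) := by
        have h4 : ∀ n ∈ Finset.Icc 1 N, (∑ i ∈ Finset.range m, a (n + i)) ^ 2 =
            ∑ i ∈ Finset.range m, ∑ j ∈ Finset.range m, a (n + i) * a (n + j) := by
          intro n _
          rw [sq, Finset.sum_mul_sum]
        rw [Finset.sum_congr rfl h4, Finset.sum_comm]
        apply Finset.sum_congr rfl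
        intro i _
        rw [Finset.sum_comm]
      rw [h3, Finset.mul_sum]
      apply Finset.sum_congr rfl
      intro i _
      rw [Finset.mul_sum]
    rw [h2, ← Finset.sum_sub_distrib]
    apply Finset.sum_congr rfl
    intro i _
    rw [← Finset.sum_sub_distrib]
  simp only [h1]
  have h0 : (0 : ℝ) = ∑ i ∈ Finset.range m, ∑ j ∈ Finset.range m, 0 := by simp
  rw [h0]
  apply tendsto_finsetSum
  intro i _
  apply tendsto_finsetSum
  intro j _
  unfold cv
  have key : ∀ i k : ℕ, Tendsto (fun N : ℕ => (1 / N : ℝ) * ∑ n ∈ Finset.Icc 1 N,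
      a (n + i) * a (n + (i + k)) - (1 / N : ℝ) * ∑ n ∈ Finset.Icc 1 N, a n * a (n + k))
      atTop (𝓝 0) := by
    intro i k
    have h := shift_lim (prod_small ha k) i
    refine h.congr fun N => ?_
    congr 2
    apply Finset.sum_congr rfl
    intro n _
    rw [add_assoc]
  rcases le_total i j with h | h
  · rw [max_eq_right h, min_eq_left h]
    obtain ⟨k, rfl⟩ := Nat.exists_eq_add_of_le h
    rw [Nat.add_sub_cancel_left]
    exact key i k
  · rw [max_eq_left h, min_eq_right h]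
    obtain ⟨k, rfl⟩ := Nat.exists_eq_add_of_le h
    rw [Nat.add_sub_cancel_left]
    refine (key j k).congr fun N => ?_
    congr 2
    apply Finset.sum_congr rfl
    intro n _
    ring

/-! ### The gaps -/

/-- the centred gaps -/
noncomputable def ag (n : ℕ) : ℝ := dlt n - 1

lemma ag_small (hRH : RiemannHypothesis) :
    Tendsto (fun n : ℕ => ag n ^ 2 / n) atTop (𝓝 0) := by
  obtain ⟨c, y0, hc, hy0, h⟩ := LG.gap_uniform (Pool.Agent.H707.SM.rhs_of hRH)
  obtain ⟨n0, hn0⟩ := Pool.Agent.H707.SM.dlt_nonneg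
  set A : ℝ := y0 + 4 with hA
  -- the bound for the gaps
  have hb : ∀ n : ℕ, 1 ≤ n → dlt n ≤ A + Real.log n / c := by
    intro n hn
    have hn1 : (1 : ℝ) ≤ n := by exact_mod_cast hn
    have hlog : 0 ≤ Real.log n := Real.log_nonneg hn1
    have hy : 0 ≤ Real.log n / c := by positivity
    by_contra hcon
    rw [not_le] at hcon
    have h1 := h n hn (A + Real.log n / c) (by linarith)
    have h2 : (1 : ℝ) ≤ ({k : ℕ | 1 ≤ k ∧ k ≤ n ∧ A + Real.log n / c ≤ dlt k}.ncard : ℝ) := by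
      have hfin : {k : ℕ | 1 ≤ k ∧ k ≤ n ∧ A + Real.log n / c ≤ dlt k}.Finite :=
        (Set.finite_le_nat n).subset fun k hk => hk.2.1
      have : 1 ≤ {k : ℕ | 1 ≤ k ∧ k ≤ n ∧ A + Real.log n / c ≤ dlt k}.ncard := by
        rw [Nat.one_le_iff_ne_zero, Ne, Set.ncard_eq_zero hfin]
        intro h3
        have : n ∈ {k : ℕ | 1 ≤ k ∧ k ≤ n ∧ A + Real.log n / c ≤ dlt k} := ⟨hn, le_rfl, hcon.le⟩
        rw [h3] at this
        exact this
      exact_mod_cast this
    set y := A + Real.log n / c with hyd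
    have hy4 : 4 ≤ y := by linarith
    have h3 : 1 ≤ Real.log y := by
      rw [Real.le_log_iff_exp_le (by linarith)]
      have := Real.exp_one_lt_d9
      linarith
    have h4 : Real.log n < c * y * Real.log y := by
      have h5 : c * y = c * A + Real.log n := by
        rw [hyd]
        field_simp
      have h6 : 0 < c * A := by
        have : 0 < A := by linarith
        positivity
      have h7 : c * y * 1 ≤ c * y * Real.log y :=
        mul_le_mul_of_nonneg_left h3 (by rw [h5]; linarith)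
      linarith
    have h8 : (n : ℝ) * Real.exp (-c * y * Real.log y) < 1 := by
      have h9 : Real.exp (-c * y * Real.log y) < Real.exp (-Real.log n) := by
        apply Real.exp_lt_exp.2
        linarith
      rw [Real.exp_neg, Real.exp_log (by linarith)] at h9
      calc (n : ℝ) * Real.exp (-c * y * Real.log y) < n * (n : ℝ)⁻¹ :=
            mul_lt_mul_of_pos_left h9 (by linarith)
        _ = 1 := mul_inv_cancel₀ (by linarith)
    linarith
  -- the limit
  have hlim : Tendsto (fun n : ℕ => 2 * (A + 1) ^ 2 / (n : ℝ) +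
      2 / c ^ 2 * (Real.log n ^ 2 / n)) atTop (𝓝 0) := by
    have h1 : Tendsto (fun n : ℕ => 2 * (A + 1) ^ 2 / (n : ℝ)) atTop (𝓝 0) :=
      tendsto_const_nhds.div_atTop tendsto_natCast_atTop_atTop
    have h2 : Tendsto (fun x : ℝ => Real.log x ^ 2 / x) atTop (𝓝 0) := by
      have := Real.isLittleO_pow_log_id_atTop (n := 2)
      exact this.tendsto_div_nhds_zero
    have h3 : Tendsto (fun n : ℕ => Real.log n ^ 2 / (n : ℝ)) atTop (𝓝 0) :=
      h2.comp tendsto_natCast_atTop_atTop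
    have := h1.add (h3.const_mul (2 / c ^ 2))
    simpa using this
  apply squeeze_zero' _ _ hlim
  · filter_upwards with n
    positivity
  · filter_upwards [eventually_ge_atTop n0, eventually_ge_atTop 1] with n h1 h2
    have hn1 : (1 : ℝ) ≤ n := by exact_mod_cast h2
    have hlog : 0 ≤ Real.log n := Real.log_nonneg hn1
    have h3 := hb n h2
    have h4 := hn0 n h1
    have h5 : |ag n| ≤ (A + 1) + Real.log n / c := by
      have hy : 0 ≤ Real.log n / c := by positivity
      unfold ag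
      rw [abs_le]
      constructor <;> linarith
    have h6 : ag n ^ 2 ≤ 2 * (A + 1) ^ 2 + 2 / c ^ 2 * Real.log n ^ 2 := by
      have h7 : ag n ^ 2 ≤ ((A + 1) + Real.log n / c) ^ 2 := by
        rw [← sq_abs]
        exact pow_le_pow_left₀ (abs_nonneg _) h5 2
      have h8 : ((A + 1) + Real.log n / c) ^ 2 ≤ 2 * (A + 1) ^ 2 + 2 * (Real.log n / c) ^ 2 := by
        nlinarith [sq_nonneg ((A + 1) - Real.log n / c)]
      have h9 : 2 * (Real.log n / c) ^ 2 = 2 / c ^ 2 * Real.log n ^ 2 := by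
        field_simp
      linarith
    calc ag n ^ 2 / n ≤ (2 * (A + 1) ^ 2 + 2 / c ^ 2 * Real.log n ^ 2) / n :=
          div_le_div_of_nonneg_right h6 (by linarith)
      _ = _ := by ring

lemma sum_ag (r n : ℕ) : ∑ i ∈ Finset.range r, ag (n + i) = Sr r n - r := by
  unfold ag Sr
  rw [Finset.sum_sub_distrib]
  simp

/-- the variance of the gaps -/
lemma var_ge (hRH : RiemannHypothesis) : ∀ᶠ N : ℕ in atTop, 0.052 ≤ cv ag N 0 := by
  have h := Pool.Agent.Q173.GM.pow_transfer (b := 1.05205) (by norm_num) (Pool.Agent.Q173.GM.mom2 hRH)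
  filter_upwards [h, sum_dlt_le (1 / 100000) (by norm_num), eventually_gt_atTop 0] with N h1 h2 hN
  have hNpos : (0 : ℝ) < N := by exact_mod_cast hN
  have e0 : ∀ n, Pool.Agent.Q173.GM.dt n = dlt n := by
    intro n
    unfold Pool.Agent.Q173.GM.dt LG.dlt
    ring
  simp only [e0] at h1
  unfold cv ag
  rw [one_div, inv_mul_eq_div, le_div_iff₀ hNpos]
  have e1 : ∑ n ∈ Finset.Icc 1 N, (dlt n - 1) * (dlt (n + 0) - 1) =
      ∑ n ∈ Finset.Icc 1 N, dlt n ^ 2 - 2 * ∑ n ∈ Finset.Icc 1 N, dlt n + N := by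
    have e2 : (N : ℝ) = ∑ n ∈ Finset.Icc 1 N, (1 : ℝ) := by simp
    rw [e2, Finset.mul_sum, ← Finset.sum_sub_distrib, ← Finset.sum_add_distrib]
    apply Finset.sum_congr rfl
    intro n _
    rw [add_zero]
    ring
  rw [e1]
  linarith

/-- **the covariances** -/
theorem cov_le (hRH : RiemannHypothesis) {m : ℕ} (hm : 1 ≤ m) {ε : ℝ} (hε : 0 < ε) :
    ∀ᶠ N : ℕ in atTop, |cv ag N 0 + 2 * ∑ k ∈ Finset.Ico 1 m, (1 - (k : ℝ) / m) * cv ag N k -
        (1 / N : ℝ) * (∑ n ∈ Finset.Icc 1 N, (Sr m n - m) ^ 2) / m| ≤ ε := by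
  have hm1 : (1 : ℝ) ≤ m := by exact_mod_cast hm
  have h := expand (ag_small hRH) m
  have h2 := (Metric.tendsto_atTop.1 h) ε hε
  obtain ⟨N0, hN0⟩ := h2
  filter_upwards [eventually_ge_atTop N0] with N hN
  have h3 := hN0 N hN
  rw [Real.dist_eq, sub_zero] at h3
  simp only [sum_ag] at h3
  have e : cv ag N 0 + 2 * ∑ k ∈ Finset.Ico 1 m, (1 - (k : ℝ) / m) * cv ag N k -
        (1 / N : ℝ) * (∑ n ∈ Finset.Icc 1 N, (Sr m n - m) ^ 2) / m =
      -((1 / N : ℝ) * ∑ n ∈ Finset.Icc 1 N, (Sr m n - m) ^ 2 -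
      (m * cv ag N 0 + 2 * ∑ k ∈ Finset.Ico 1 m, ((m : ℝ) - k) * cv ag N k)) / m := by
    have e1 : ∑ k ∈ Finset.Ico 1 m, (1 - (k : ℝ) / m) * cv ag N k =
        (∑ k ∈ Finset.Ico 1 m, ((m : ℝ) - k) * cv ag N k) / m := by
      rw [Finset.sum_div]
      apply Finset.sum_congr rfl
      intro k _
      field_simp
    rw [e1]
    field_simp
    ring
  rw [e, abs_div, abs_neg, abs_of_pos (by linarith : (0 : ℝ) < m), div_le_iff₀ (by linarith)]
  nlinarith

end Pool.Agent.H666.ZG
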