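import Pool.Agent.H666.ZG.Var

/-! The mean square of `S - r`, where `S` is a sum of `r` consecutive gaps. -/

open Filter Topology Set MeasureTheory

namespace Pool.Agent.H666.ZG

open SG (ord NZ)
open Pool.Agent.H707.SM (hk cd_hk hk_one tent_le Jm H1 H1_succ H1_zero mom_val Jm_le mc mc_nonneg
  mc_le mc_eq tl tl_nonneg const_small)
open LG (dlt)

/-- the pointwise bound, truncated -/
lemma dev_le' {r K : ℕ} (hK : 2 * r ≤ K) {S : ℝ} (h0 : 0 ≤ S) :
    (S - r) ^ 2 ≤ 1 / 4 + 2 * ∑ d ∈ Finset.range K, mc K (((r + d : ℕ) : ℝ) + 1 / 2) S +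
      2 * ∑ d ∈ Finset.range r, mm r (((r - 1 - d : ℕ) : ℝ) + 1 / 2) S + tl K S := by
  have hK0 : (0 : ℝ) ≤ K := Nat.cast_nonneg K
  have hr0 : (0 : ℝ) ≤ r := Nat.cast_nonneg r
  rcases lt_or_ge S K with h | h
  · have h1 := dev_le (r := r) (K := K) h0 (by linarith)
    have e1 : ∑ d ∈ Finset.range K, mc K (((r + d : ℕ) : ℝ) + 1 / 2) S =
        ∑ d ∈ Finset.range K, max 0 (S - (((r + d : ℕ) : ℝ) + 1 / 2)) :=
      Finset.sum_congr rfl fun d _ => mc_eq (by positivity) hK0 h.le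
    have e2 : ∑ d ∈ Finset.range r, mm r (((r - 1 - d : ℕ) : ℝ) + 1 / 2) S =
        ∑ d ∈ Finset.range r, max 0 ((((r - 1 - d : ℕ) : ℝ) + 1 / 2) - S) := by
      apply Finset.sum_congr rfl
      intro d hd
      rw [Finset.mem_range] at hd
      unfold mm
      apply min_eq_right
      apply max_le hr0
      have : ((r - 1 - d : ℕ) : ℝ) + 1 ≤ r := by
        have h3 : r - 1 - d + 1 ≤ r := by omega
        exact_mod_cast h3
      linarith
    rw [e1, e2]
    have := tl_nonneg K S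
    linarith
  · have e : tl K S = S ^ 2 := if_pos h
    rw [e]
    have p1 : 0 ≤ ∑ d ∈ Finset.range K, mc K (((r + d : ℕ) : ℝ) + 1 / 2) S :=
      Finset.sum_nonneg fun _ _ => mc_nonneg hK0
    have p2 : 0 ≤ ∑ d ∈ Finset.range r, mm r (((r - 1 - d : ℕ) : ℝ) + 1 / 2) S :=
      Finset.sum_nonneg fun _ _ => mm_nonneg hr0
    have h2 : 2 * (r : ℝ) ≤ K := by exact_mod_cast hK
    nlinarith

/-- `∑_{d < r} 1/(2d+1)` -/
noncomputable def Od (r : ℕ) : ℝ := ∑ d ∈ Finset.range r, 1 / (2 * (d : ℝ) + 1)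

/-- the bound for the mean square -/
noncomputable def Bd (r : ℕ) : ℝ :=
  1 / 4 + 2 * ((2 + H1 (2 * r)) / Real.pi ^ 2) * Od r + (3 + H1 (2 * r)) / Real.pi ^ 2

lemma H1_mono {m n : ℕ} (h : m ≤ n) : H1 m ≤ H1 n := by
  unfold Pool.Agent.H707.SM.H1
  exact Finset.sum_le_sum_of_subset_of_nonneg (Finset.range_subset_range.2 h)
    fun _ _ _ => by positivity

lemma H1_nonneg (m : ℕ) : 0 ≤ H1 m := by
  unfold Pool.Agent.H707.SM.H1
  exact Finset.sum_nonneg fun _ _ => by positivity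

lemma far_sum (Q M : ℕ) (hQ : 1 ≤ Q) (hM : Q ≤ M) :
    ∑ q ∈ Finset.Ico Q M, (2 + H1 q) / ((q : ℝ) * (q + 1)) ≤ (3 + H1 Q) / Q - (3 + H1 M) / M := by
  induction M, hM using Nat.le_induction with
  | base => simp
  | succ M hM ih =>
    rw [Finset.sum_Ico_succ_top hM]
    have hM1 : (1 : ℝ) ≤ M := by exact_mod_cast hQ.trans hM
    rw [H1_succ]
    push_cast
    obtain ⟨z, hz⟩ : ∃ z, z = (M : ℝ) := ⟨_, rfl⟩
    obtain ⟨h, hh⟩ : ∃ h, h = H1 M := ⟨_, rfl⟩
    rw [← hz, ← hh] at ih ⊢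
    have hz1 : 1 ≤ z := by rw [hz]; exact hM1
    have e : (3 + h) / z - (3 + (h + 1 / (z + 1))) / (z + 1) - (2 + h) / (z * (z + 1)) =
        1 / (z * (z + 1) ^ 2) := by
      field_simp
      ring
    have h2 : 0 ≤ 1 / (z * (z + 1) ^ 2) := by positivity
    linarith

/-- **the mean square of `S - r`** -/
theorem var_le (hRH : RiemannHypothesis) {r : ℕ} (hr : 1 ≤ r) {ε : ℝ} (hε : 0 < ε) :
    ∀ᶠ N : ℕ in atTop, ∑ n ∈ Finset.Icc 1 N, (Sr r n - r) ^ 2 ≤ (Bd r + ε) * N := by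
  have hr1 : (1 : ℝ) ≤ r := by exact_mod_cast hr
  have hpi := Real.pi_pos
  obtain ⟨K0, hK0⟩ := tail_Sr hRH hr (ε := ε / 4) (by positivity)
  set K := max K0 (2 * r) with hK
  have hK2 : 2 * r ≤ K := le_max_right _ _
  have hKr : (0 : ℝ) ≤ K := Nat.cast_nonneg K
  have hK1 : (1 : ℝ) ≤ K := by
    have : 1 ≤ K := by omega
    exact_mod_cast this
  obtain ⟨n0, hn0⟩ := Sr_nonneg r
  set D : ℝ := ∑ n ∈ Finset.range n0, (Sr r n - r) ^ 2 with hD
  set e1 : ℝ := ε / (8 * K) with he1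
  set e2 : ℝ := ε / (8 * r) with he2
  have he1p : 0 < e1 := by positivity
  have he2p : 0 < e2 := by positivity
  set cd : ℕ → ℝ := fun d => if d < r then Jm (r + d) / (4 * (d : ℝ) + 2) else
    Jm (r + d) / (((r + d : ℕ) : ℝ) * (((r + d : ℕ) : ℝ) + 1) / r) with hcd
  have hall1 : ∀ᶠ N : ℕ in atTop, ∀ d ∈ Finset.range K,
      ∑ n ∈ Finset.Icc 1 N, mc K (((r + d : ℕ) : ℝ) + 1 / 2) (Sr r n) ≤ (cd d + e1) * N := by
    rw [Filter.eventually_all_finset]
    intro d _
    simp only [hcd]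
    split_ifs with h
    · exact mean_near hRH r d hKr he1p
    · exact mean_far hRH hr (by omega) hKr he1p
  have hall2 : ∀ᶠ N : ℕ in atTop, ∀ d ∈ Finset.range r,
      ∑ n ∈ Finset.Icc 1 N, mm r (((r - 1 - d : ℕ) : ℝ) + 1 / 2) (Sr r n) ≤
        (Jm (r - 1 - d) / (4 * (d : ℝ) + 2) + e2) * N := by
    rw [Filter.eventually_all_finset]
    intro d hd
    rw [Finset.mem_range] at hd
    exact mean_below hRH hd (by linarith) he2p
  -- the numerical bounds
  set Z : ℝ := (2 + H1 (2 * r)) / Real.pi ^ 2 with hZ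
  have hJ : ∀ m : ℕ, m ≤ 2 * r → Jm m ≤ Z := by
    intro m hm
    refine (Jm_le m).trans ?_
    apply div_le_div_of_nonneg_right _ (by positivity)
    linarith [H1_mono hm]
  have hO : ∑ d ∈ Finset.range r, Z / (4 * (d : ℝ) + 2) = Z * Od r / 2 := by
    unfold Od
    rw [Finset.mul_sum, Finset.sum_div]
    apply Finset.sum_congr rfl
    intro d _
    field_simp
    ring
  have hnum2 : ∑ d ∈ Finset.range r, Jm (r - 1 - d) / (4 * (d : ℝ) + 2) ≤ Z * Od r / 2 := by
    rw [← hO]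
    apply Finset.sum_le_sum
    intro d _
    apply div_le_div_of_nonneg_right _ (by positivity)
    exact hJ _ (by omega)
  have hnum1 : ∑ d ∈ Finset.range K, cd d ≤ Z * Od r / 2 + (3 + H1 (2 * r)) / Real.pi ^ 2 / 2 := by
    have hsp : ∑ d ∈ Finset.range K, cd d = ∑ d ∈ Finset.range r, cd d +
        ∑ d ∈ Finset.Ico r K, cd d := by
      rw [Finset.range_eq_Ico, Finset.range_eq_Ico]
      exact (Finset.sum_Ico_consecutive _ (by omega) (by omega)).symm
    rw [hsp]
    apply add_le_add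
    · rw [← hO]
      apply Finset.sum_le_sum
      intro d hd
      rw [Finset.mem_range] at hd
      simp only [hcd, if_pos hd]
      apply div_le_div_of_nonneg_right _ (by positivity)
      exact hJ _ (by omega)
    · have h1 : ∑ d ∈ Finset.Ico r K, cd d ≤ ∑ d ∈ Finset.Ico r K,
          r / Real.pi ^ 2 * ((2 + H1 (r + d)) / (((r + d : ℕ) : ℝ) * (((r + d : ℕ) : ℝ) + 1))) := by
        apply Finset.sum_le_sum
        intro d hd
        rw [Finset.mem_Ico] at hd
        simp only [hcd, if_neg (not_lt.2 hd.1)]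
        have h2 := Jm_le (r + d)
        have h3 : (0 : ℝ) < ((r + d : ℕ) : ℝ) := by
          have : 0 < r + d := by omega
          exact_mod_cast this
        rw [div_le_iff₀ (by positivity)]
        refine h2.trans (le_of_eq ?_)
        field_simp
      refine h1.trans ?_
      rw [← Finset.mul_sum]
      have h2 : ∑ d ∈ Finset.Ico r K, (2 + H1 (r + d)) / (((r + d : ℕ) : ℝ) * (((r + d : ℕ) : ℝ) + 1)) =
          ∑ q ∈ Finset.Ico (2 * r) (r + K), (2 + H1 q) / ((q : ℝ) * (q + 1)) := by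
        have := Finset.sum_Ico_add (fun q : ℕ => (2 + H1 q) / ((q : ℝ) * (q + 1))) r K r
        rw [this, two_mul, add_comm K r]
      rw [h2]
      have h3 := far_sum (2 * r) (r + K) (by omega) (by omega)
      have h4 : 0 ≤ (3 + H1 (r + K)) / ((r + K : ℕ) : ℝ) := by
        have := H1_nonneg (r + K)
        positivity
      have h5 : ∑ q ∈ Finset.Ico (2 * r) (r + K), (2 + H1 q) / ((q : ℝ) * (q + 1)) ≤
          (3 + H1 (2 * r)) / ((2 * r : ℕ) : ℝ) := by linarith
      have h6 := mul_le_mul_of_nonneg_left h5 (show 0 ≤ r / Real.pi ^ 2 by positivity)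
      refine h6.trans (le_of_eq ?_)
      push_cast
      field_simp
  filter_upwards [hall1, hall2, const_small D (ε / 4) (by positivity), eventually_ge_atTop 1]
    with N h1 h2 h3 hN
  have hN0 : (0 : ℝ) ≤ N := Nat.cast_nonneg N
  have h4 := hK0 K (le_max_left _ _) N hN
  have hpt : ∀ n ∈ Finset.Icc 1 N, (Sr r n - r) ^ 2 ≤ 1 / 4 +
      2 * ∑ d ∈ Finset.range K, mc K (((r + d : ℕ) : ℝ) + 1 / 2) (Sr r n) +
      2 * ∑ d ∈ Finset.range r, mm r (((r - 1 - d : ℕ) : ℝ) + 1 / 2) (Sr r n) + tl K (Sr r n) +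
      (if n ∈ Finset.range n0 then (Sr r n - r) ^ 2 else 0) := by
    intro n _
    split_ifs with h
    · have p1 : 0 ≤ ∑ d ∈ Finset.range K, mc K (((r + d : ℕ) : ℝ) + 1 / 2) (Sr r n) :=
        Finset.sum_nonneg fun _ _ => mc_nonneg hKr
      have p2 : 0 ≤ ∑ d ∈ Finset.range r, mm r (((r - 1 - d : ℕ) : ℝ) + 1 / 2) (Sr r n) :=
        Finset.sum_nonneg fun _ _ => mm_nonneg (by linarith)
      have p3 := tl_nonneg K (Sr r n)
      linarith
    · rw [Finset.mem_range, not_lt] at h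
      have := dev_le' hK2 (hn0 n h)
      linarith
  have hsum := Finset.sum_le_sum hpt
  simp only [Finset.sum_add_distrib, ← Finset.mul_sum] at hsum
  rw [Finset.sum_const, Nat.card_Icc, nsmul_eq_mul, Nat.add_sub_cancel] at hsum
  have hexc : ∑ n ∈ Finset.Icc 1 N, (if n ∈ Finset.range n0 then (Sr r n - r) ^ 2 else 0) ≤ D := by
    rw [← Finset.sum_filter]
    apply Finset.sum_le_sum_of_subset_of_nonneg
    · intro n hn
      exact (Finset.mem_filter.1 hn).2
    · intro n _ _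
      positivity
  have hcomm1 : ∑ n ∈ Finset.Icc 1 N, ∑ d ∈ Finset.range K,
      mc K (((r + d : ℕ) : ℝ) + 1 / 2) (Sr r n) ≤
      (Z * Od r / 2 + (3 + H1 (2 * r)) / Real.pi ^ 2 / 2 + ε / 8) * N := by
    rw [Finset.sum_comm]
    refine (Finset.sum_le_sum h1).trans ?_
    rw [← Finset.sum_mul, Finset.sum_add_distrib, Finset.sum_const, nsmul_eq_mul, Finset.card_range]
    apply mul_le_mul_of_nonneg_right _ hN0
    have : K * e1 = ε / 8 := by rw [he1]; field_simp
    linarith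
  have hcomm2 : ∑ n ∈ Finset.Icc 1 N, ∑ d ∈ Finset.range r,
      mm r (((r - 1 - d : ℕ) : ℝ) + 1 / 2) (Sr r n) ≤ (Z * Od r / 2 + ε / 8) * N := by
    rw [Finset.sum_comm]
    refine (Finset.sum_le_sum h2).trans ?_
    rw [← Finset.sum_mul, Finset.sum_add_distrib, Finset.sum_const, nsmul_eq_mul, Finset.card_range]
    apply mul_le_mul_of_nonneg_right _ hN0
    have : r * e2 = ε / 8 := by rw [he2]; field_simp
    linarith
  have hBd : Bd r = 1 / 4 + 2 * Z * Od r + (3 + H1 (2 * r)) / Real.pi ^ 2 := rfl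
  rw [hBd]
  have hfin : (1 / 4 + 2 * Z * Od r + (3 + H1 (2 * r)) / Real.pi ^ 2 + ε) * N =
      N * (1 / 4) + 2 * ((Z * Od r / 2 + (3 + H1 (2 * r)) / Real.pi ^ 2 / 2 + ε / 8) * N) +
      2 * ((Z * Od r / 2 + ε / 8) * N) + ε / 4 * N + ε / 4 * N := by ring
  rw [hfin]
  linarith

/-! ### The closed form -/

lemma H1_le_log {m : ℕ} (hm : 1 ≤ m) : H1 m ≤ 1 + Real.log m := by
  induction m, hm using Nat.le_induction with
  | base => simp [Pool.Agent.H707.SM.H1]
  | succ m hm ih =>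
    rw [H1_succ]
    have hm1 : (1 : ℝ) ≤ m := by exact_mod_cast hm
    have h1 := Real.one_sub_inv_le_log_of_pos (show (0 : ℝ) < (m + 1) / m by positivity)
    rw [Real.log_div (by linarith) (by linarith)] at h1
    have h2 : 1 - ((m + 1 : ℝ) / m)⁻¹ = 1 / (m + 1) := by
      rw [inv_div]
      field_simp
      ring
    rw [h2] at h1
    push_cast
    linarith

lemma Od_le_log {m : ℕ} (hm : 1 ≤ m) : Od m ≤ 1 + Real.log (2 * m) / 2 := by
  have h0 : Od m ≤ 1 + Real.log (2 * m - 1) / 2 := by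
    induction m, hm using Nat.le_induction with
    | base => norm_num [Od]
    | succ m hm ih =>
      have e : Od (m + 1) = Od m + 1 / (2 * (m : ℝ) + 1) := Finset.sum_range_succ _ _
      rw [e]
      have hm1 : (1 : ℝ) ≤ m := by exact_mod_cast hm
      have hz : 0 < 2 * (m : ℝ) - 1 := by linarith
      have h1 := Real.one_sub_inv_le_log_of_pos (show (0 : ℝ) < (2 * m + 1) / (2 * m - 1) by positivity)
      rw [Real.log_div (by linarith) (by linarith)] at h1
      have h2 : 1 - ((2 * m + 1 : ℝ) / (2 * m - 1))⁻¹ = 2 * (1 / (2 * m + 1)) := by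
        rw [inv_div]
        field_simp
        ring
      rw [h2] at h1
      push_cast
      have e2 : 2 * ((m : ℝ) + 1) - 1 = 2 * m + 1 := by ring
      rw [e2]
      linarith
  have hm1 : (1 : ℝ) ≤ m := by exact_mod_cast hm
  have : Real.log (2 * (m : ℝ) - 1) ≤ Real.log (2 * m) :=
    Real.log_le_log (by linarith) (by linarith)
  linarith

/-- the closed form of the bound -/
theorem Bd_le {m : ℕ} (hm : 1 ≤ m) :
    Bd m ≤ 1 / 4 + ((Real.log (2 * m) + 3) ^ 2 + 1) / Real.pi ^ 2 := by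
  have hpi := Real.pi_pos
  have hm1 : (1 : ℝ) ≤ m := by exact_mod_cast hm
  have h1 := H1_le_log (m := 2 * m) (by omega)
  have h2 := Od_le_log hm
  push_cast at h1
  have hL : 0 ≤ Real.log (2 * (m : ℝ)) := Real.log_nonneg (by linarith)
  have hO : 0 ≤ Od m := Finset.sum_nonneg fun _ _ => by positivity
  have hH := H1_nonneg (2 * m)
  have h3 : (2 + H1 (2 * m)) * Od m ≤ (3 + Real.log (2 * m)) * (1 + Real.log (2 * m) / 2) :=
    mul_le_mul (by linarith) h2 hO (by linarith)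
  have h4 : Bd m = 1 / 4 + (2 * ((2 + H1 (2 * m)) * Od m) + (3 + H1 (2 * m))) / Real.pi ^ 2 := by
    unfold Bd
    ring
  rw [h4]
  have h5 : 2 * ((2 + H1 (2 * m)) * Od m) + (3 + H1 (2 * m)) ≤
      (Real.log (2 * m) + 3) ^ 2 + 1 := by nlinarith
  have := div_le_div_of_nonneg_right h5 (show 0 ≤ Real.pi ^ 2 by positivity)
  linarith

end Pool.Agent.H666.ZG
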