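import Pool.Agent.H666.ZG.TT
import Pool.Agent.H666.ZG.Var2

/-! The pointwise comparison, the tail, and the lower bound for `LL`. -/

open Filter Topology Set MeasureTheory

namespace Pool.Agent.H666.ZG

open SG (ord NZ)
open Pool.Agent.H707.SM (Jm H1 Jm_le H1_succ mc)
open Pool.Agent.H707.NV (LL LL_eq hh hh_nonneg hh_cont)

/-! ### Pointwise -/

lemma sq_le_FF {U r : ℕ} {S : ℝ} (h : |S - r| ≤ U) : (S - r) ^ 2 ≤ 1 / 4 + FF U r S := by
  rw [abs_le] at h
  have p1 : 0 ≤ ∑ j ∈ Finset.range U, mc U (xp r j) S :=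
    Finset.sum_nonneg fun _ _ => Pool.Agent.H707.SM.mc_nonneg (Nat.cast_nonneg U)
  have p2 : 0 ≤ ∑ j ∈ Finset.range U, mm U (xm r j) S :=
    Finset.sum_nonneg fun _ _ => mm_nonneg (Nat.cast_nonneg U)
  unfold FF
  rcases le_total (r : ℝ) S with h1 | h1
  · have h2 := sq_le_sum (s := S - r) (by linarith) (K := U) (by linarith [h.2])
    have e : ∑ j ∈ Finset.range U, mc U (xp r j) S =
        ∑ j ∈ Finset.range U, max 0 (S - r - ((j : ℝ) + 1 / 2)) := by
      apply Finset.sum_congr rfl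
      intro j _
      have hj : (0 : ℝ) ≤ j := Nat.cast_nonneg j
      unfold Pool.Agent.H707.SM.mc xp
      rw [min_eq_right]
      · congr 1
        ring
      · apply max_le (Nat.cast_nonneg U)
        linarith [h.2]
    rw [e]
    linarith
  · have h2 := sq_le_sum (s := r - S) (by linarith) (K := U) (by linarith [h.1])
    have e : ∑ j ∈ Finset.range U, mm U (xm r j) S =
        ∑ j ∈ Finset.range U, max 0 (r - S - ((j : ℝ) + 1 / 2)) := by
      apply Finset.sum_congr rfl
      intro j _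
      have hj : (0 : ℝ) ≤ j := Nat.cast_nonneg j
      unfold mm xm
      rw [min_eq_right]
      · congr 1
        ring
      · apply max_le (Nat.cast_nonneg U)
        linarith [h.1]
    rw [e]
    have e2 : (S - r) ^ 2 = (r - S) ^ 2 := by ring
    rw [e2]
    linarith

lemma sum_le_sq : ∀ (U : ℕ) (s : ℝ),
    2 * ∑ j ∈ Finset.range U, max 0 (s - ((j : ℝ) + 1 / 2)) ≤ (max 0 s) ^ 2
  | 0, s => by simp
  | U + 1, s => by
    have ih := sum_le_sq U (s - 1)
    rw [Finset.sum_range_succ']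
    have e : ∑ j ∈ Finset.range U, max 0 (s - (((j + 1 : ℕ) : ℝ) + 1 / 2)) =
        ∑ j ∈ Finset.range U, max 0 (s - 1 - ((j : ℝ) + 1 / 2)) := by
      apply Finset.sum_congr rfl
      intro j _
      congr 1
      push_cast
      ring
    rw [e]
    have h : 2 * max 0 (s - (((0 : ℕ) : ℝ) + 1 / 2)) + (max 0 (s - 1)) ^ 2 ≤ (max 0 s) ^ 2 := by
      push_cast
      rcases le_total s 0 with h0 | h0
      · rw [max_eq_left h0, max_eq_left (by linarith), max_eq_left (by linarith)]
        norm_num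
      · rw [max_eq_right h0]
        rcases le_total s 1 with h1 | h1
        · rw [max_eq_left (by linarith : s - 1 ≤ 0)]
          rcases le_total s (1 / 2) with h2 | h2
          · rw [max_eq_left (by linarith)]
            nlinarith
          · rw [max_eq_right (by linarith)]
            nlinarith [sq_nonneg (s - 1)]
        · rw [max_eq_right (by linarith : 0 ≤ s - 1), max_eq_right (by linarith)]
          nlinarith
    linarith

lemma Gs_le_sq (U r : ℕ) (S : ℝ) : Gs U r S ≤ (S - r) ^ 2 := by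
  unfold Gs
  have e1 : ∑ j ∈ Finset.range U, max 0 (S - xp r j) =
      ∑ j ∈ Finset.range U, max 0 (S - r - ((j : ℝ) + 1 / 2)) := by
    apply Finset.sum_congr rfl
    intro j _
    unfold xp
    congr 1
    ring
  have e2 : ∑ j ∈ Finset.range U, max 0 (xm r j - S) =
      ∑ j ∈ Finset.range U, max 0 (r - S - ((j : ℝ) + 1 / 2)) := by
    apply Finset.sum_congr rfl
    intro j _
    unfold xm
    congr 1
    ring
  rw [e1, e2]
  have h1 := sum_le_sq U (S - r)
  have h2 := sum_le_sq U (r - S)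
  rcases le_total (r : ℝ) S with h | h
  · rw [max_eq_right (by linarith : 0 ≤ S - r)] at h1
    rw [max_eq_left (by linarith : r - S ≤ 0)] at h2
    linarith
  · rw [max_eq_left (by linarith : S - r ≤ 0)] at h1
    rw [max_eq_right (by linarith : 0 ≤ r - S)] at h2
    have e3 : (S - r) ^ 2 = (r - S) ^ 2 := by ring
    rw [e3]
    linarith

/-! ### The tail -/

/-- the part of the square deviation beyond `U` -/
noncomputable def tq (U : ℝ) (r n : ℕ) : ℝ := if U < |Sr r n - r| then (Sr r n - r) ^ 2 else 0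

lemma tq_nonneg (U : ℝ) (r n : ℕ) : 0 ≤ tq U r n := by
  unfold tq
  split_ifs
  · exact sq_nonneg _
  · exact le_rfl

/-- `(y + 1)² ≤ K exp (c y / 2)` -/
lemma sq_exp {c : ℝ} (hc : 0 < c) : ∃ K : ℝ, 0 < K ∧ ∀ y : ℝ, 0 ≤ y →
    (y + 1) ^ 2 * Real.exp (-(c * y)) ≤ K * Real.exp (-(c / 2 * y)) := by
  refine ⟨2 + 32 / c ^ 2, by positivity, fun y hy => ?_⟩
  have h1 : (y + 1) ^ 2 ≤ (2 + 32 / c ^ 2) * Real.exp (c / 2 * y) := by
    have h2 : 1 ≤ Real.exp (c / 2 * y) := Real.one_le_exp (by positivity)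
    have h3 : (c / 4 * y) ^ 2 ≤ Real.exp (c / 2 * y) := by
      have h4 : c / 4 * y ≤ Real.exp (c / 4 * y) := by
        have := Real.add_one_le_exp (c / 4 * y)
        linarith
      have h5 : (c / 4 * y) ^ 2 ≤ Real.exp (c / 4 * y) ^ 2 :=
        pow_le_pow_left₀ (by positivity) h4 2
      rw [← Real.exp_nat_mul] at h5
      refine h5.trans (le_of_eq ?_)
      congr 1
      push_cast
      ring
    have h6 : (y + 1) ^ 2 ≤ 2 + 2 * y ^ 2 := by nlinarith [sq_nonneg (y - 1)]
    have h7 : 2 * y ^ 2 = 32 / c ^ 2 * (c / 4 * y) ^ 2 := by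
      field_simp
      ring
    have h8 : 32 / c ^ 2 * (c / 4 * y) ^ 2 ≤ 32 / c ^ 2 * Real.exp (c / 2 * y) :=
      mul_le_mul_of_nonneg_left h3 (by positivity)
    rw [add_mul]
    linarith
  calc (y + 1) ^ 2 * Real.exp (-(c * y)) ≤
      (2 + 32 / c ^ 2) * Real.exp (c / 2 * y) * Real.exp (-(c * y)) :=
        mul_le_mul_of_nonneg_right h1 (Real.exp_pos _).le
    _ = (2 + 32 / c ^ 2) * Real.exp (-(c / 2 * y)) := by
        rw [mul_assoc, ← Real.exp_add]
        congr 2
        ring

/-- **the tail**: uniformly in the length -/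
theorem tail_U (hRH : RiemannHypothesis) : ∃ A K : ℝ, 1 ≤ A ∧ 0 ≤ K ∧ ∀ r : ℕ, 1 ≤ r → ∀ U : ℝ,
    A * Real.log (r + 1) ≤ U → ∀ᶠ N : ℕ in atTop,
      ∑ n ∈ Finset.Icc 1 N, tq U r n ≤ K * N := by
  classical
  obtain ⟨c, C, hc, hC, hrig⟩ := Rig.rigid (Pool.Agent.H707.SM.rhs_of hRH) _ Rig.close_log
  obtain ⟨K, hK, hsq⟩ := sq_exp hc
  have hq : Real.exp (-(c / 2)) < 1 := by
    rw [Real.exp_lt_one_iff]
    linarith
  have hq0 : 0 < Real.exp (-(c / 2)) := Real.exp_pos _
  set q := Real.exp (-(c / 2)) with hqd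
  refine ⟨max C 3, K * (1 - q)⁻¹ + 1, le_trans hC (le_max_left _ _), by
    have : 0 < (1 - q)⁻¹ := inv_pos.2 (by linarith)
    positivity, fun r hr U hU => ?_⟩
  have hr1 : (1 : ℝ) ≤ r := by exact_mod_cast hr
  have hlog0 : 0 < Real.log (r + 1) := Real.log_pos (by linarith)
  have hU0 : 0 < U := lt_of_lt_of_le (by
    have : (3 : ℝ) ≤ max C 3 := le_max_right _ _
    positivity) hU
  -- the counts
  have htel : ∀ n : ℕ, Sr r n =
      (ord (n + r) * Real.log (ord (n + r)) - ord n * Real.log (ord n)) / (2 * Real.pi) := by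
    intro n
    have h1 := Finset.sum_range_sub (fun i => ord (n + i) * Real.log (ord (n + i))) r
    unfold Sr LG.dlt
    rw [← Finset.sum_div]
    congr 1
  have hcount : ∀ N : ℕ, ∀ lam : ℝ, U ≤ lam →
      (((Finset.Icc 1 N).filter (fun n : ℕ => (r : ℝ) ≤ Real.log n ∧ lam ≤ |Sr r n - r|)).card : ℝ) ≤
        N * Real.exp (-(c * lam)) := by
    intro N lam hlam
    have h1 := hrig N r hr lam (le_trans (mul_le_mul_of_nonneg_right (le_max_left C 3) hlog0.le)
      (hU.trans hlam))
    have e : {n : ℕ | 1 ≤ n ∧ n ≤ N ∧ (r : ℝ) ≤ Real.log n ∧ lam ≤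
        |(ord (n + r) * Real.log (ord (n + r)) - ord n * Real.log (ord n)) / (2 * Real.pi) - r|} =
        (((Finset.Icc 1 N).filter (fun n : ℕ => (r : ℝ) ≤ Real.log n ∧ lam ≤ |Sr r n - r|) :
          Finset ℕ) : Set ℕ) := by
      ext n
      simp only [Set.mem_ofPred_eq, Finset.coe_filter, Finset.mem_Icc, htel]
      tauto
    rw [e, Set.ncard_coe_finset] at h1
    refine h1.trans ?_
    apply mul_le_mul_of_nonneg_left _ (Nat.cast_nonneg N)
    apply Real.exp_le_exp.2
    have h3 : 3 ≤ lam / Real.log (r + 1) := by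
      rw [le_div_iff₀ hlog0]
      exact (mul_le_mul_of_nonneg_right (le_max_right C 3) hlog0.le).trans (hU.trans hlam)
    have h4 : 1 ≤ Real.log (lam / Real.log (r + 1)) := by
      rw [Real.le_log_iff_exp_le (by linarith)]
      have := Real.exp_one_lt_d9
      linarith
    have h5 : c * lam * 1 ≤ c * lam * Real.log (lam / Real.log (r + 1)) :=
      mul_le_mul_of_nonneg_left h4 (mul_nonneg hc.le (hU0.le.trans hlam))
    linarith
  -- the small indices
  obtain ⟨n0, hn0⟩ : ∃ n0 : ℕ, ∀ n : ℕ, n0 ≤ n → (r : ℝ) ≤ Real.log n := by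
    have := (Real.tendsto_log_atTop.comp tendsto_natCast_atTop_atTop).eventually_ge_atTop (r : ℝ)
    exact this.exists_forall_of_atTop
  set M : ℝ := ∑ n ∈ Finset.range n0, tq U r n with hM
  have hev : ∀ᶠ N : ℕ in atTop, M ≤ 1 * (N : ℝ) := by
    have := (tendsto_natCast_atTop_atTop (R := ℝ)).eventually_ge_atTop M
    filter_upwards [this] with N hN
    linarith
  filter_upwards [hev] with N hN
  rw [add_mul, ]
  have hsplit : ∑ n ∈ Finset.Icc 1 N, tq U r n ≤
      M + ∑ n ∈ (Finset.Icc 1 N).filter (fun n : ℕ => (r : ℝ) ≤ Real.log n), tq U r n := by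
    rw [← Finset.sum_filter_add_sum_filter_not (Finset.Icc 1 N) (fun n : ℕ => (r : ℝ) ≤ Real.log n)]
    have : ∑ n ∈ (Finset.Icc 1 N).filter (fun n : ℕ => ¬ (r : ℝ) ≤ Real.log n), tq U r n ≤ M := by
      rw [hM]
      apply Finset.sum_le_sum_of_subset_of_nonneg
      · intro n hn
        rw [Finset.mem_filter] at hn
        rw [Finset.mem_range]
        by_contra hcon
        exact hn.2 (hn0 n (by omega))
      · intro n _ _
        exact tq_nonneg _ _ _
    linarith
  refine hsplit.trans ?_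
  rw [add_comm]
  apply add_le_add _ hN
  -- the layers
  obtain ⟨Kn, hKn⟩ : ∃ Kn : ℕ, ∀ n ∈ Finset.Icc 1 N, |Sr r n - r| < Kn := by
    refine ⟨∑ n ∈ Finset.Icc 1 N, (⌊|Sr r n - r|⌋₊ + 1), fun n hn => ?_⟩
    have h1 : |Sr r n - r| < ((⌊|Sr r n - r|⌋₊ + 1 : ℕ) : ℝ) := by
      push_cast
      exact Nat.lt_floor_add_one _
    refine lt_of_lt_of_le h1 ?_
    have h2 : ⌊|Sr r n - r|⌋₊ + 1 ≤ ∑ n ∈ Finset.Icc 1 N, (⌊|Sr r n - r|⌋₊ + 1) :=
      Finset.single_le_sum (f := fun n => ⌊|Sr r n - r|⌋₊ + 1) (fun _ _ => Nat.zero_le _) hn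
    exact_mod_cast h2
  have hpt : ∀ n ∈ (Finset.Icc 1 N).filter (fun n : ℕ => (r : ℝ) ≤ Real.log n), tq U r n ≤
      ∑ k ∈ Finset.range Kn, if (r : ℝ) ≤ Real.log n ∧ U + k ≤ |Sr r n - r| then
        (U + k + 1) ^ 2 else 0 := by
    intro n hn
    rw [Finset.mem_filter] at hn
    have hpos : ∀ k ∈ Finset.range Kn, 0 ≤ if (r : ℝ) ≤ Real.log n ∧ U + k ≤ |Sr r n - r| then
        (U + k + 1) ^ 2 else 0 := by
      intro k _
      split_ifs
      · positivity
      · exact le_rfl
    unfold tq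
    split_ifs with h
    · set D := |Sr r n - r| with hD
      have hD0 : 0 ≤ D - U := by linarith
      obtain ⟨k, hk⟩ : ∃ k : ℕ, k = ⌊D - U⌋₊ := ⟨_, rfl⟩
      have h1 : (k : ℝ) ≤ D - U := by rw [hk]; exact Nat.floor_le hD0
      have h2 : D - U < k + 1 := by rw [hk]; exact Nat.lt_floor_add_one _
      have h3 : k ∈ Finset.range Kn := by
        rw [Finset.mem_range]
        have h4 := hKn n hn.1
        have h5 : (k : ℝ) < Kn := by linarith
        exact_mod_cast h5
      refine le_trans ?_ (Finset.single_le_sum (f := fun k : ℕ =>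
        if (r : ℝ) ≤ Real.log n ∧ U + k ≤ D then (U + k + 1) ^ 2 else 0) hpos h3)
      rw [if_pos ⟨hn.2, by linarith⟩]
      rw [← sq_abs, ← hD]
      exact pow_le_pow_left₀ (abs_nonneg _) (by linarith) 2
    · exact Finset.sum_nonneg hpos
  refine (Finset.sum_le_sum hpt).trans ?_
  rw [Finset.sum_comm]
  have hlayer : ∀ k ∈ Finset.range Kn,
      (∑ n ∈ (Finset.Icc 1 N).filter (fun n : ℕ => (r : ℝ) ≤ Real.log n),
        if (r : ℝ) ≤ Real.log n ∧ U + k ≤ |Sr r n - r| then (U + k + 1) ^ 2 else 0) ≤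
      K * N * q ^ k := by
    intro k _
    have hk0 : (0 : ℝ) ≤ k := Nat.cast_nonneg k
    rw [← Finset.sum_filter, Finset.sum_const, nsmul_eq_mul, Finset.filter_filter]
    have e : (Finset.Icc 1 N).filter (fun n : ℕ => (r : ℝ) ≤ Real.log n ∧ ((r : ℝ) ≤ Real.log n ∧
        U + k ≤ |Sr r n - r|)) =
        (Finset.Icc 1 N).filter (fun n : ℕ => (r : ℝ) ≤ Real.log n ∧ U + k ≤ |Sr r n - r|) := by
      apply Finset.filter_congr
      intro n _
      tauto
    rw [e]
    have h1 := hcount N (U + k) (by linarith)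
    calc _ ≤ (N * Real.exp (-(c * (U + k)))) * (U + k + 1) ^ 2 :=
          mul_le_mul_of_nonneg_right h1 (sq_nonneg _)
      _ = N * ((U + k + 1) ^ 2 * Real.exp (-(c * (U + k)))) := by ring
      _ ≤ N * (K * Real.exp (-(c / 2 * (U + k)))) :=
          mul_le_mul_of_nonneg_left (hsq (U + k) (by linarith)) (Nat.cast_nonneg N)
      _ ≤ N * (K * q ^ k) := by
          apply mul_le_mul_of_nonneg_left _ (Nat.cast_nonneg N)
          apply mul_le_mul_of_nonneg_left _ hK.le
          rw [hqd, ← Real.exp_nat_mul]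
          apply Real.exp_le_exp.2
          have : 0 ≤ c / 2 * U := by positivity
          have e2 : c / 2 * (U + k) = c / 2 * U + k * (c / 2) := by ring
          rw [e2]
          linarith
      _ = K * N * q ^ k := by ring
  refine (Finset.sum_le_sum hlayer).trans ?_
  rw [← Finset.mul_sum]
  have hgeo : ∑ k ∈ Finset.range Kn, q ^ k ≤ (1 - q)⁻¹ := by
    have := (hasSum_geometric_of_lt_one hq0.le hq)
    exact sum_le_hasSum _ (fun _ _ => by positivity) this
  calc K * N * ∑ k ∈ Finset.range Kn, q ^ k ≤ K * N * (1 - q)⁻¹ :=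
        mul_le_mul_of_nonneg_left hgeo (by positivity)
    _ = K * (1 - q)⁻¹ * N := by ring

/-! ### The lower bound for `LL` -/

lemma LL_ge (r : ℕ) : H1 r / Real.pi ^ 2 ≤ LL ((r : ℝ) + 1 / 2) := by
  have hpi := Real.pi_pos
  set x : ℝ := (r : ℝ) + 1 / 2 with hx
  have hx0 : 0 < x := by positivity
  rw [LL_eq hx0.ne']
  have hc := hh_cont x
  have hcont : Continuous fun t : ℝ => t * hh x t := by fun_prop
  have hpiece : ∀ k ∈ Finset.range r, 1 / Real.pi ^ 2 * (1 / (2 * ((k : ℝ) + 1))) ≤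
      ∫ t in ((k : ℝ) / x)..(((k + 1 : ℕ) : ℝ) / x), t * hh x t := by
    intro k _
    have hk0 : (0 : ℝ) ≤ k := Nat.cast_nonneg k
    have hab : (k : ℝ) / x ≤ ((k + 1 : ℕ) : ℝ) / x := by
      apply div_le_div_of_nonneg_right _ hx0.le
      push_cast
      linarith
    have h1 : ∫ t in ((k : ℝ) / x)..(((k + 1 : ℕ) : ℝ) / x),
        1 / Real.pi ^ 2 * (x / (k + 1)) * Real.sin (Real.pi * x * t) ^ 2 ≤
        ∫ t in ((k : ℝ) / x)..(((k + 1 : ℕ) : ℝ) / x), t * hh x t := by
      apply intervalIntegral.integral_mono_on hab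
      · exact Continuous.intervalIntegrable (by fun_prop) _ _
      · exact Continuous.intervalIntegrable (by fun_prop) _ _
      · intro t ht
        have ht0 : 0 ≤ t := le_trans (by positivity) ht.1
        rcases ht0.eq_or_lt with h0 | h0
        · rw [← h0]
          simp
        · have hs : Real.pi * x * t ≠ 0 := by positivity
          unfold Pool.Agent.H707.NV.hh
          rw [Real.sinc_of_ne_zero hs]
          have h2 : t * (x ^ 2 * (Real.sin (Real.pi * x * t) / (Real.pi * x * t)) ^ 2) =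
              1 / Real.pi ^ 2 * (1 / t) * Real.sin (Real.pi * x * t) ^ 2 := by
            field_simp
          rw [h2]
          apply mul_le_mul_of_nonneg_right _ (sq_nonneg _)
          apply mul_le_mul_of_nonneg_left _ (by positivity)
          have h3 := ht.2
          rw [le_div_iff₀ hx0] at h3
          push_cast at h3
          rw [div_le_div_iff₀ (by positivity) h0]
          linarith
    refine le_trans (le_of_eq ?_) h1
    rw [intervalIntegral.integral_const_mul]
    have h4 : ∫ t in ((k : ℝ) / x)..(((k + 1 : ℕ) : ℝ) / x), Real.sin (Real.pi * x * t) ^ 2 =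
        1 / (2 * x) := by
      rw [intervalIntegral.integral_comp_mul_left (fun u => Real.sin u ^ 2)
        (by positivity : Real.pi * x ≠ 0)]
      rw [integral_sin_sq]
      have e1 : Real.pi * x * ((k : ℝ) / x) = k * Real.pi := by field_simp
      have e2 : Real.pi * x * (((k + 1 : ℕ) : ℝ) / x) = ((k + 1 : ℕ) : ℝ) * Real.pi := by
        field_simp
      rw [e1, e2, Real.sin_nat_mul_pi, Real.sin_nat_mul_pi, smul_eq_mul]
      push_cast
      field_simp
      ring
    rw [h4]
    field_simp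
  have hsum := Finset.sum_le_sum hpiece
  rw [intervalIntegral.sum_integral_adjacent_intervals
    (a := fun k : ℕ => (k : ℝ) / x) (fun k _ => hcont.intervalIntegrable _ _)] at hsum
  rw [← Finset.mul_sum] at hsum
  have e0 : ((0 : ℕ) : ℝ) / x = 0 := by simp
  rw [e0] at hsum
  have hle1 : (r : ℝ) / x ≤ 1 := by
    rw [div_le_one hx0, hx]
    linarith
  have h5 : ∫ t in (0 : ℝ)..((r : ℝ) / x), t * hh x t ≤ ∫ t in (0 : ℝ)..1, t * hh x t := by
    rw [← intervalIntegral.integral_add_adjacent_intervals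
      (hcont.intervalIntegrable 0 ((r : ℝ) / x)) (hcont.intervalIntegrable ((r : ℝ) / x) 1)]
    have : 0 ≤ ∫ t in ((r : ℝ) / x)..1, t * hh x t := by
      apply intervalIntegral.integral_nonneg hle1
      intro t ht
      exact mul_nonneg (le_trans (by positivity) ht.1) (hh_nonneg x t)
    linarith
  have e3 : ∑ k ∈ Finset.range r, 1 / (2 * ((k : ℝ) + 1)) = H1 r / 2 := by
    unfold Pool.Agent.H707.SM.H1
    rw [Finset.sum_div]
    apply Finset.sum_congr rfl
    intro k _
    have : (k : ℝ) + 1 ≠ 0 := by positivity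
    field_simp
  rw [e3] at hsum
  have e4 : H1 r / Real.pi ^ 2 = 2 * (1 / Real.pi ^ 2 * (H1 r / 2)) := by
    field_simp
  rw [e4]
  linarith

lemma log_le_H1 (m : ℕ) : Real.log (m + 1) ≤ H1 m := by
  induction m with
  | zero => simp [Pool.Agent.H707.SM.H1_zero]
  | succ m ih =>
    rw [H1_succ]
    have hm : (0 : ℝ) < (m : ℝ) + 1 := by positivity
    have h1 : Real.log (((m + 1 : ℕ) : ℝ) + 1) = Real.log ((m : ℝ) + 1) +
        Real.log (((m : ℝ) + 2) / (m + 1)) := by
      rw [← Real.log_mul hm.ne' (by positivity)]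
      congr 1
      push_cast
      field_simp
      ring
    have h2 : Real.log (((m : ℝ) + 2) / (m + 1)) ≤ 1 / ((m : ℝ) + 1) := by
      have h3 := Real.log_le_sub_one_of_pos (show 0 < ((m : ℝ) + 2) / (m + 1) by positivity)
      refine h3.trans (le_of_eq ?_)
      field_simp
      ring
    rw [h1]
    linarith

end Pool.Agent.H666.ZG
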