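import Pool.Graph.R_pool_sql_team_seeded_620a6dc7.H707.SM.Win

/-! Sums of `r` consecutive gaps of a finite sequence are controlled by its pairs, from above and
from below. -/

open Set Filter Topology MeasureTheory

namespace Pool.Agent.H666.ZG

open Pool.Agent.H707.SM (chi chi_of_mem chi_of_not chi_int integral_chi chi_mul)

/-- the quadratic functional of the number of points of a window of length `x` -/
noncomputable def QF (y : ℕ → ℝ) (a b : ℕ) (x : ℝ) (q : ℕ) (t : ℝ) : ℝ :=
  ∑ n ∈ Finset.Icc a b, ∑ k ∈ Finset.Icc a b, chi (max (y n - x) (y k - x)) (min (y n) (y k)) t -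
        (2 * q + 1) * ∑ n ∈ Finset.Icc a b, chi (y n - x) (y n) t +
        (q : ℝ) * (q + 1) * chi (y a - x) (y b) t

lemma QF_int (y : ℕ → ℝ) (a b : ℕ) (x : ℝ) (q : ℕ) : Integrable (QF y a b x q) := by
  unfold QF
  have j1 : Integrable fun t => ∑ n ∈ Finset.Icc a b, ∑ k ∈ Finset.Icc a b,
      chi (max (y n - x) (y k - x)) (min (y n) (y k)) t :=
    integrable_finsetSum _ fun n _ => integrable_finsetSum _ fun k _ => chi_int _ _
  have j2 : Integrable fun t => (2 * (q : ℝ) + 1) * ∑ n ∈ Finset.Icc a b, chi (y n - x) (y n) t :=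
    (integrable_finsetSum _ fun n _ => chi_int _ _).const_mul _
  have j3 : Integrable fun t => (q : ℝ) * (q + 1) * chi (y a - x) (y b) t :=
    (chi_int _ _).const_mul _
  exact (j1.sub j2).add j3

lemma QF_integral {y : ℕ → ℝ} {a b : ℕ} (hab : a ≤ b)
    (hy : ∀ n k : ℕ, a ≤ n → n ≤ k → k ≤ b → y n ≤ y k) {x : ℝ} (hx : 0 < x) (q : ℕ) :
    ∫ t, QF y a b x q t =
      ∑ n ∈ Finset.Icc a b, ∑ k ∈ Finset.Icc a b, max 0 (x - |y n - y k|) -
        (2 * q + 1) * x * (Finset.Icc a b).card + (q : ℝ) * (q + 1) * (y b - y a + x) := by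
  have j1 : Integrable fun t => ∑ n ∈ Finset.Icc a b, ∑ k ∈ Finset.Icc a b,
      chi (max (y n - x) (y k - x)) (min (y n) (y k)) t :=
    integrable_finsetSum _ fun n _ => integrable_finsetSum _ fun k _ => chi_int _ _
  have j2 : Integrable fun t => (2 * (q : ℝ) + 1) * ∑ n ∈ Finset.Icc a b, chi (y n - x) (y n) t :=
    (integrable_finsetSum _ fun n _ => chi_int _ _).const_mul _
  have j3 : Integrable fun t => (q : ℝ) * (q + 1) * chi (y a - x) (y b) t :=
    (chi_int _ _).const_mul _
  have j12 : Integrable fun t => ∑ n ∈ Finset.Icc a b, ∑ k ∈ Finset.Icc a b,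
      chi (max (y n - x) (y k - x)) (min (y n) (y k)) t -
        (2 * (q : ℝ) + 1) * ∑ n ∈ Finset.Icc a b, chi (y n - x) (y n) t := j1.sub j2
  unfold QF
  rw [integral_add j12 j3, integral_sub j1 j2, integral_const_mul, integral_const_mul,
      integral_chi, integral_finsetSum _ fun n _ => chi_int _ _,
      integral_finsetSum _ fun n _ => integrable_finsetSum _ fun k _ => chi_int _ _]
  have e1 : ∑ n ∈ Finset.Icc a b, ∫ t, ∑ k ∈ Finset.Icc a b,
      chi (max (y n - x) (y k - x)) (min (y n) (y k)) t =
      ∑ n ∈ Finset.Icc a b, ∑ k ∈ Finset.Icc a b, max 0 (x - |y n - y k|) := by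
    apply Finset.sum_congr rfl
    intro n _
    rw [integral_finsetSum _ fun k _ => chi_int _ _]
    apply Finset.sum_congr rfl
    intro k _
    rw [integral_chi]
    congr 1
    rcases le_total (y n) (y k) with h1 | h1
    · rw [min_eq_left h1, max_eq_right (by linarith), abs_of_nonpos (by linarith)]
      ring
    · rw [min_eq_right h1, max_eq_left (by linarith), abs_of_nonneg (by linarith)]
      ring
  have e2 : ∑ n ∈ Finset.Icc a b, ∫ t, chi (y n - x) (y n) t = x * (Finset.Icc a b).card := by
    have : ∀ n ∈ Finset.Icc a b, ∫ t, chi (y n - x) (y n) t = x := by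
      intro n _
      rw [integral_chi, max_eq_right (by linarith)]
      ring
    rw [Finset.sum_congr rfl this, Finset.sum_const, nsmul_eq_mul]
    ring
  have e3 : max 0 (y b - (y a - x)) = y b - y a + x := by
    have := hy a b le_rfl hab le_rfl
    rw [max_eq_right (by linarith)]
    ring
  rw [e1, e2, e3]
  ring

/-- the value of the functional -/
lemma QF_eq {y : ℕ → ℝ} {a b : ℕ}
    (hy : ∀ n k : ℕ, a ≤ n → n ≤ k → k ≤ b → y n ≤ y k) (x : ℝ) (q : ℕ) (t : ℝ) :
    (y a - x ≤ t ∧ t < y b → QF y a b x q t =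
      ((((Finset.Icc a b).filter (fun n => y n - x ≤ t ∧ t < y n)).card : ℝ) - q) *
      ((((Finset.Icc a b).filter (fun n => y n - x ≤ t ∧ t < y n)).card : ℝ) - q - 1)) ∧
    (¬ (y a - x ≤ t ∧ t < y b) → QF y a b x q t = 0) := by
  classical
  have e1 : ∑ n ∈ Finset.Icc a b, ∑ k ∈ Finset.Icc a b,
      chi (max (y n - x) (y k - x)) (min (y n) (y k)) t =
      (∑ n ∈ Finset.Icc a b, chi (y n - x) (y n) t) ^ 2 := by
    rw [sq, Finset.sum_mul_sum]
    apply Finset.sum_congr rfl
    intro n _
    apply Finset.sum_congr rfl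
    intro k _
    rw [chi_mul]
  constructor
  · intro hI
    have hM : ∑ n ∈ Finset.Icc a b, chi (y n - x) (y n) t =
        (((Finset.Icc a b).filter (fun n => y n - x ≤ t ∧ t < y n)).card : ℝ) := by
      rw [Finset.card_filter]
      push_cast
      apply Finset.sum_congr rfl
      intro n _
      split_ifs with h
      · exact chi_of_mem h.1 h.2
      · exact chi_of_not h
    unfold QF
    rw [e1, hM, chi_of_mem hI.1 hI.2]
    ring
  · intro hI
    have hz1 : ∑ n ∈ Finset.Icc a b, chi (y n - x) (y n) t = 0 := by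
      apply Finset.sum_eq_zero
      intro k hk
      rw [Finset.mem_Icc] at hk
      apply chi_of_not
      rintro ⟨h3, h4⟩
      apply hI
      have h5 := hy a k le_rfl hk.1 hk.2
      have h6 := hy k b hk.1 hk.2 le_rfl
      exact ⟨by linarith, by linarith⟩
    unfold QF
    rw [e1, hz1, chi_of_not hI]
    simp

/-- **the window inequality for long sums of `r` consecutive gaps** -/
theorem window_plus {y : ℕ → ℝ} {a b : ℕ} (hab : a ≤ b)
    (hy : ∀ n k : ℕ, a ≤ n → n ≤ k → k ≤ b → y n ≤ y k) {x : ℝ} (hx : 0 < x) (q r : ℕ)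
    {w : ℝ} (hw0 : 0 ≤ w)
    (hw : ∀ M : ℕ, M ≤ r → w * ((r : ℝ) - M) ≤ ((M : ℝ) - q) * ((M : ℝ) - q - 1)) :
    w * ∑ n ∈ Finset.Ico a (b + 1 - r), max 0 (y (n + r) - y n - x) ≤
      ∑ n ∈ Finset.Icc a b, ∑ k ∈ Finset.Icc a b, max 0 (x - |y n - y k|) -
        (2 * q + 1) * x * (Finset.Icc a b).card + (q : ℝ) * (q + 1) * (y b - y a + x) := by
  classical
  have pt : ∀ t : ℝ, w * ∑ n ∈ Finset.Ico a (b + 1 - r), chi (y n) (y (n + r) - x) t ≤
      QF y a b x q t := by
    intro t
    set I := (Finset.Ico a (b + 1 - r)).filter (fun n => y n ≤ t ∧ t < y (n + r) - x) with hI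
    set J := (Finset.Icc a b).filter (fun n => y n - x ≤ t ∧ t < y n) with hJ
    have hsum : ∑ n ∈ Finset.Ico a (b + 1 - r), chi (y n) (y (n + r) - x) t = (I.card : ℝ) := by
      rw [hI, Finset.card_filter]
      push_cast
      apply Finset.sum_congr rfl
      intro n _
      split_ifs with h
      · exact chi_of_mem h.1 h.2
      · exact chi_of_not h
    rw [hsum]
    have hprod : ∀ M : ℕ, (0 : ℝ) ≤ ((M : ℝ) - q) * ((M : ℝ) - q - 1) := by
      intro M
      rcases le_or_gt M q with h | h
      · have h1 : (M : ℝ) ≤ q := by exact_mod_cast h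
        nlinarith
      · have h1 : (q : ℝ) + 1 ≤ M := by exact_mod_cast h
        nlinarith
    by_cases hne : I.Nonempty
    · -- there is a long sum
      set n0 := I.min' hne with hn0
      have hn0I : n0 ∈ I := Finset.min'_mem _ _
      have hn0' := hn0I
      rw [hI, Finset.mem_filter, Finset.mem_Ico] at hn0'
      obtain ⟨⟨g1, g2⟩, g3, g4⟩ := hn0'
      have hdis : Disjoint I J := by
        rw [Finset.disjoint_left]
        intro n h1 h2
        rw [hI, Finset.mem_filter] at h1
        rw [hJ, Finset.mem_filter] at h2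
        linarith [h1.2.1, h2.2.2]
      have hsub : I ∪ J ⊆ Finset.Ico n0 (n0 + r) := by
        intro n hn
        rw [Finset.mem_union] at hn
        rw [Finset.mem_Ico]
        rcases hn with h | h
        · have h1 : n0 ≤ n := Finset.min'_le _ _ h
          rw [hI, Finset.mem_filter, Finset.mem_Ico] at h
          refine ⟨h1, ?_⟩
          by_contra h2
          rw [not_lt] at h2
          have := hy (n0 + r) n (by omega) h2 (by omega)
          linarith [h.2.1]
        · rw [hJ, Finset.mem_filter, Finset.mem_Icc] at h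
          constructor
          · by_contra h2
            rw [not_le] at h2
            have := hy n n0 h.1.1 h2.le (by omega)
            linarith [h.2.2]
          · by_contra h2
            rw [not_lt] at h2
            have := hy (n0 + r) n (by omega) h2 (by omega)
            linarith [h.2.1]
      have hcard : I.card + J.card ≤ r := by
        rw [← Finset.card_union_of_disjoint hdis]
        refine (Finset.card_le_card hsub).trans ?_
        rw [Nat.card_Ico]
        omega
      have hIt : y a - x ≤ t ∧ t < y b := by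
        have h1 := hy a n0 le_rfl g1 (by omega)
        have h2 := hy (n0 + r) b (by omega) (by omega) le_rfl
        exact ⟨by linarith, by linarith⟩
      rw [(QF_eq hy x q t).1 hIt]
      have h1 := hw J.card (by omega)
      have h2 : (I.card : ℝ) ≤ (r : ℝ) - J.card := by
        have : ((I.card + J.card : ℕ) : ℝ) ≤ r := by exact_mod_cast hcard
        push_cast at this
        linarith
      exact (mul_le_mul_of_nonneg_left h2 hw0).trans h1
    · rw [Finset.not_nonempty_iff_eq_empty] at hne
      rw [hne, Finset.card_empty, Nat.cast_zero, mul_zero]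
      by_cases hIt : y a - x ≤ t ∧ t < y b
      · rw [(QF_eq hy x q t).1 hIt]
        exact hprod _
      · rw [(QF_eq hy x q t).2 hIt]
  have i1 : Integrable fun t => w *
      ∑ n ∈ Finset.Ico a (b + 1 - r), chi (y n) (y (n + r) - x) t :=
    (integrable_finsetSum _ fun n _ => chi_int _ _).const_mul _
  have h := integral_mono i1 (QF_int y a b x q) pt
  have r1 : ∫ t, w * ∑ n ∈ Finset.Ico a (b + 1 - r), chi (y n) (y (n + r) - x) t =
      w * ∑ n ∈ Finset.Ico a (b + 1 - r), max 0 (y (n + r) - y n - x) := by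
    rw [integral_const_mul, integral_finsetSum _ fun n _ => chi_int _ _]
    congr 1
    apply Finset.sum_congr rfl
    intro n _
    rw [integral_chi]
    congr 1
    ring
  rw [r1, QF_integral hab hy hx q] at h
  exact h

/-- **the window inequality for short sums of `r` consecutive gaps** -/
theorem window_minus {y : ℕ → ℝ} {a b : ℕ} (hab : a ≤ b)
    (hy : ∀ n k : ℕ, a ≤ n → n ≤ k → k ≤ b → y n ≤ y k) {x : ℝ} (hx : 0 < x) (q r : ℕ)
    {w : ℝ} (hw0 : 0 ≤ w)
    (hw : ∀ M : ℕ, r ≤ M → w * ((M : ℝ) - r) ≤ ((M : ℝ) - q) * ((M : ℝ) - q - 1)) :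
    w * ∑ n ∈ Finset.Ico a (b + 1 - r), max 0 (x - (y (n + r) - y n)) ≤
      ∑ n ∈ Finset.Icc a b, ∑ k ∈ Finset.Icc a b, max 0 (x - |y n - y k|) -
        (2 * q + 1) * x * (Finset.Icc a b).card + (q : ℝ) * (q + 1) * (y b - y a + x) := by
  classical
  have pt : ∀ t : ℝ, w * ∑ n ∈ Finset.Ico a (b + 1 - r), chi (y (n + r) - x) (y n) t ≤
      QF y a b x q t := by
    intro t
    set I := (Finset.Ico a (b + 1 - r)).filter (fun n => y (n + r) - x ≤ t ∧ t < y n) with hI
    set J := (Finset.Icc a b).filter (fun n => y n - x ≤ t ∧ t < y n) with hJ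
    have hsum : ∑ n ∈ Finset.Ico a (b + 1 - r), chi (y (n + r) - x) (y n) t = (I.card : ℝ) := by
      rw [hI, Finset.card_filter]
      push_cast
      apply Finset.sum_congr rfl
      intro n _
      split_ifs with h
      · exact chi_of_mem h.1 h.2
      · exact chi_of_not h
    rw [hsum]
    have hprod : ∀ M : ℕ, (0 : ℝ) ≤ ((M : ℝ) - q) * ((M : ℝ) - q - 1) := by
      intro M
      rcases le_or_gt M q with h | h
      · have h1 : (M : ℝ) ≤ q := by exact_mod_cast h
        nlinarith
      · have h1 : (q : ℝ) + 1 ≤ M := by exact_mod_cast h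
        nlinarith
    by_cases hne : I.Nonempty
    · -- there is a short sum
      set n1 := I.max' hne with hn1
      have hn1I : n1 ∈ I := Finset.max'_mem _ _
      have hn1' := hn1I
      rw [hI, Finset.mem_filter, Finset.mem_Ico] at hn1'
      obtain ⟨⟨g1, g2⟩, g3, g4⟩ := hn1'
      have hdis : Disjoint I (Finset.Ioc n1 (n1 + r)) := by
        rw [Finset.disjoint_left]
        intro n h1 h2
        rw [Finset.mem_Ioc] at h2
        have : n ≤ n1 := Finset.le_max' _ _ h1
        omega
      have hsub : I ∪ Finset.Ioc n1 (n1 + r) ⊆ J := by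
        intro n hn
        rw [Finset.mem_union] at hn
        rw [hJ, Finset.mem_filter, Finset.mem_Icc]
        rcases hn with h | h
        · rw [hI, Finset.mem_filter, Finset.mem_Ico] at h
          have := hy n (n + r) h.1.1 (by omega) (by omega)
          exact ⟨⟨h.1.1, by omega⟩, by linarith [h.2.1], h.2.2⟩
        · rw [Finset.mem_Ioc] at h
          have h1 := hy n1 n g1 h.1.le (by omega)
          have h2 := hy n (n1 + r) (by omega) h.2 (by omega)
          exact ⟨⟨by omega, by omega⟩, by linarith, by linarith⟩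
      have hcard : I.card + r ≤ J.card := by
        have h1 := Finset.card_le_card hsub
        rw [Finset.card_union_of_disjoint hdis, Nat.card_Ioc] at h1
        omega
      have hIt : y a - x ≤ t ∧ t < y b := by
        have h1 := hy a (n1 + r) le_rfl (by omega) (by omega)
        have h2 := hy n1 b (by omega) (by omega) le_rfl
        exact ⟨by linarith, by linarith⟩
      rw [(QF_eq hy x q t).1 hIt]
      have h1 := hw J.card (by omega)
      have h2 : (I.card : ℝ) ≤ (J.card : ℝ) - r := by
        have : ((I.card + r : ℕ) : ℝ) ≤ J.card := by exact_mod_cast hcard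
        push_cast at this
        linarith
      exact (mul_le_mul_of_nonneg_left h2 hw0).trans h1
    · rw [Finset.not_nonempty_iff_eq_empty] at hne
      rw [hne, Finset.card_empty, Nat.cast_zero, mul_zero]
      by_cases hIt : y a - x ≤ t ∧ t < y b
      · rw [(QF_eq hy x q t).1 hIt]
        exact hprod _
      · rw [(QF_eq hy x q t).2 hIt]
  have i1 : Integrable fun t => w *
      ∑ n ∈ Finset.Ico a (b + 1 - r), chi (y (n + r) - x) (y n) t :=
    (integrable_finsetSum _ fun n _ => chi_int _ _).const_mul _
  have h := integral_mono i1 (QF_int y a b x q) pt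
  have r1 : ∫ t, w * ∑ n ∈ Finset.Ico a (b + 1 - r), chi (y (n + r) - x) (y n) t =
      w * ∑ n ∈ Finset.Ico a (b + 1 - r), max 0 (x - (y (n + r) - y n)) := by
    rw [integral_const_mul, integral_finsetSum _ fun n _ => chi_int _ _]
    congr 1
    apply Finset.sum_congr rfl
    intro n _
    rw [integral_chi]
    congr 1
    ring
  rw [r1, QF_integral hab hy hx q] at h
  exact h

end Pool.Agent.H666.ZG
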