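import Pool.Graph.R_pool_sql_team_seeded_620a6dc7.H707.SM.Fin
import Pool.Agent.H666.ZG.Win

/-! The means of `(S - x)₊` and `(x - S)₊`, where `S` is a sum of `r` consecutive gaps. -/

open Filter Topology Set MeasureTheory

namespace Pool.Agent.H666.ZG

open SG (ord NZ)
open Pool.Agent.TH873.EW (ct mom XV)
open Pool.Agent.Y747 (Bx mem_Bx)
open Pool.Agent.H707.SM (Bx_eq XV_large pair_le fin_arith mc mc_nonneg mc_le)
open LG (dlt)

/-- the block, all in one -/
theorem blockG (hRH : RiemannHypothesis) {g : ℝ → ℝ} (hg : ContDiff ℝ 1 g) (h1 : g 1 = 0) {x : ℝ}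
    (hx : 0 < x) (hmaj : ∀ u, max 0 (x - |u|) ≤ ct g u) (q : ℕ) {ε : ℝ} (hε : 0 < ε) :
    ∃ μ : ℝ, 1 - ε ≤ μ ∧ μ < 1 ∧ 0 < μ ∧ ∃ V0 : ℝ, 10 ≤ V0 ∧ ∀ V : ℝ, V0 ≤ V →
      NZ (V + 1) + 1 ≤ NZ (2 * V - 1) ∧
      (∀ n k : ℕ, NZ (V + 1) + 1 ≤ n → n ≤ k → k ≤ NZ (2 * V - 1) →
        μ * Real.log V / (2 * Real.pi) * ord n ≤ μ * Real.log V / (2 * Real.pi) * ord k) ∧
      ∑ n ∈ Finset.Icc (NZ (V + 1) + 1) (NZ (2 * V - 1)),
        ∑ k ∈ Finset.Icc (NZ (V + 1) + 1) (NZ (2 * V - 1)),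
        max 0 (x - |μ * Real.log V / (2 * Real.pi) * ord n - μ * Real.log V / (2 * Real.pi) * ord k|) -
        (2 * q + 1) * x * (Finset.Icc (NZ (V + 1) + 1) (NZ (2 * V - 1))).card +
        (q : ℝ) * (q + 1) * (μ * Real.log V / (2 * Real.pi) * ord (NZ (2 * V - 1)) -
          μ * Real.log V / (2 * Real.pi) * ord (NZ (V + 1) + 1) + x) ≤
      (mom g - (2 * q + 1) * x + q * (q + 1) + ε) * XV V ∧ ((Bx V).card : ℝ) ≤ (1 + ε) * XV V := by
  classical
  set I : ℝ := ∫ t in (0 : ℝ)..1, t * g t with hI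
  have hmomI : mom g = g 0 + 2 * I := rfl
  have hq0 : (0 : ℝ) ≤ q := Nat.cast_nonneg q
  set B : ℝ := |mom g| + 4 + (2 * q + 1) * x + q * (q + 1) with hB
  have hB4 : 4 ≤ B := by
    have := abs_nonneg (mom g)
    have : 0 ≤ (2 * (q : ℝ) + 1) * x := by positivity
    have : 0 ≤ (q : ℝ) * (q + 1) := by positivity
    linarith
  set e : ℝ := min (1 / 2) (ε / B) with he
  have he0 : 0 < e := lt_min (by norm_num) (by positivity)
  have he1 : e ≤ 1 / 2 := min_le_left _ _
  have heB : e * B ≤ ε := by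
    have : e ≤ ε / B := min_le_right _ _
    rwa [le_div_iff₀ (by linarith)] at this
  have heε : e ≤ ε := by
    have : e * 1 ≤ e * B := mul_le_mul_of_nonneg_left (by linarith) he0.le
    linarith
  -- choice of `μ`
  have hc : ContinuousAt (fun μ : ℝ => g 0 / μ + 2 * μ * I) 1 := by
    have : ContinuousAt (fun μ : ℝ => g 0 / μ) 1 :=
      continuousAt_const.div continuousAt_id one_ne_zero
    exact this.add (by fun_prop)
  have hev : ∀ᶠ μ in 𝓝[<] (1 : ℝ), g 0 / μ + 2 * μ * I < mom g + e := by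
    apply nhdsWithin_le_nhds
    apply hc.eventually_lt continuousAt_const
    simp only [div_one, mul_one]
    linarith
  have hev2 : ∀ᶠ μ in 𝓝[<] (1 : ℝ), max (1 / 2) (1 - ε) < μ := by
    apply nhdsWithin_le_nhds
    apply lt_mem_nhds
    exact max_lt (by norm_num) (by linarith)
  have hlt : ∀ᶠ s in 𝓝[<] (1 : ℝ), s < 1 := self_mem_nhdsWithin
  obtain ⟨μ, ⟨hμ1, hμ2⟩, hμ3⟩ := ((hev.and hev2).and hlt).exists
  have hμh : 1 / 2 < μ := (le_max_left _ _).trans_lt hμ2
  have hμpos : 0 < μ := by linarith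
  have hμε : 1 - ε ≤ μ := ((le_max_right _ _).trans_lt hμ2).le
  refine ⟨μ, hμε, hμ3, hμpos, ?_⟩
  have hpi := Real.pi_gt_three
  obtain ⟨V1, hV1, hp⟩ := Pool.Agent.Y747.blk_pair hRH hg h1 hμpos hμ3 he0
  obtain ⟨V2, hV2⟩ := XV_large (max 1 (x / e))
  have hlim : Tendsto (fun V : ℝ => μ * Real.log V / (2 * Real.pi)) atTop atTop :=
    (Real.tendsto_log_atTop.const_mul_atTop hμpos).atTop_div_const (by positivity)
  obtain ⟨V3, hV3⟩ := (hlim.eventually_ge_atTop (max 1 (x / e))).exists_forall_of_atTop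
  refine ⟨max V1 (max V2 V3), hV1.trans (le_max_left _ _), fun V hV => ?_⟩
  have c1 : V1 ≤ V := (le_max_left _ _).trans hV
  have c2 : V2 ≤ V := ((le_max_left _ _).trans (le_max_right _ _)).trans hV
  have c3 : V3 ≤ V := ((le_max_right _ _).trans (le_max_right _ _)).trans hV
  have hV10 : 10 ≤ V := hV1.trans c1
  obtain ⟨p1, p2⟩ := hp V c1
  have d2 := hV2 V c2
  have d3 := hV3 V c3
  set X := XV V with hX
  set κ : ℝ := μ * Real.log V / (2 * Real.pi) with hκ
  have hX1 : 1 ≤ X := (le_max_left _ _).trans d2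
  have hXe : x ≤ e * X := by
    have := (le_max_right _ _).trans d2
    rw [div_le_iff₀ he0] at this
    linarith
  have hκ1 : 1 ≤ κ := (le_max_left _ _).trans d3
  have hκe : x ≤ e * κ := by
    have := (le_max_right _ _).trans d3
    rw [div_le_iff₀ he0] at this
    linarith
  have hlogV : 0 < Real.log V := Real.log_pos (by linarith)
  have q1 := (abs_le.1 p1).1
  have q2 := (abs_le.1 p1).2
  -- the block is an interval
  set a := NZ (V + 1) + 1 with ha
  set b := NZ (2 * V - 1) with hb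
  have hBx : Bx V = Finset.Icc a b := Bx_eq V
  have hab : a ≤ b := by
    by_contra h
    have h0 : Bx V = ∅ := by
      rw [hBx, Finset.Icc_eq_empty]
      exact h
    rw [h0, Finset.card_empty, Nat.cast_zero] at q1
    have : e * X ≤ 1 / 2 * X := mul_le_mul_of_nonneg_right he1 (by linarith)
    linarith
  have haB : a ∈ Bx V := by rw [hBx]; exact Finset.mem_Icc.2 ⟨le_rfl, hab⟩
  have hbB : b ∈ Bx V := by rw [hBx]; exact Finset.mem_Icc.2 ⟨hab, le_rfl⟩
  set y : ℕ → ℝ := fun n => κ * ord n with hy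
  have hymono : ∀ n k : ℕ, a ≤ n → n ≤ k → k ≤ b → y n ≤ y k := by
    intro n k h2 h3 _
    simp only [hy]
    apply mul_le_mul_of_nonneg_left _ (by linarith)
    exact SG.ord_mono (by omega) h3
  refine ⟨hab, hymono, ?_, by
    have : e * X ≤ ε * X := mul_le_mul_of_nonneg_right heε (by linarith)
    linarith⟩
  -- the pairs
  have hpair : ∑ n ∈ Finset.Icc a b, ∑ k ∈ Finset.Icc a b, max 0 (x - |y n - y k|) ≤
      (1 + e) * ∑ n ∈ Bx V, ∑ m ∈ Bx V, Real.exp (-(ord n - ord m) ^ 2 / 4) *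
        ct g (κ * (ord n - ord m)) := by
    rw [hBx, Finset.mul_sum]
    apply Finset.sum_le_sum
    intro n _
    rw [Finset.mul_sum]
    apply Finset.sum_le_sum
    intro k _
    have hyy : y n - y k = κ * (ord n - ord k) := by simp only [hy]; ring
    rw [hyy]
    exact pair_le (by linarith) hκe he0 he1 hmaj _
  have q3 := (abs_le.1 p2).2
  set P := ∑ n ∈ Bx V, ∑ m ∈ Bx V, Real.exp (-(ord n - ord m) ^ 2 / 4) *
        ct g (κ * (ord n - ord m)) with hP
  have hPle : P ≤ (mom g + 2 * e) * X := by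
    have h6 : X * (g 0 / μ + 2 * μ * I) ≤ X * (mom g + e) :=
      mul_le_mul_of_nonneg_left hμ1.le (by linarith)
    have h7 : (mom g + 2 * e) * X = X * (mom g + e) + e * X := by ring
    rw [h7]
    linarith
  -- the length
  have hlen : y b - y a ≤ X := by
    have h6 : ord b ≤ 2 * V - 1 := (mem_Bx.1 hbB).2.2
    have h7 : V + 1 < ord a := (mem_Bx.1 haB).2.1
    have h8 : y b - y a ≤ κ * (V - 2) := by
      simp only [hy]
      have : κ * (ord b - ord a) ≤ κ * (V - 2) :=
        mul_le_mul_of_nonneg_left (by linarith) (by linarith)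
      linarith
    have h9 : κ * (V - 2) = μ * X := by
      rw [hκ, hX]
      unfold Pool.Agent.TH873.EW.XV
      ring
    rw [h9] at h8
    have h10 : μ * X ≤ 1 * X := mul_le_mul_of_nonneg_right hμ3.le (by linarith)
    linarith
  have hcard : (1 - e) * X ≤ ((Finset.Icc a b).card : ℝ) := by
    rw [← hBx]
    linarith
  exact fin_arith he0 he1 hx hq0 (by linarith) hB heB hpair hPle hcard (by linarith)

lemma fil_eq (V : ℝ) (r : ℕ) : (Bx V).filter (fun n => n + r ∈ Bx V) =
    Finset.Ico (NZ (V + 1) + 1) (NZ (2 * V - 1) + 1 - r) := by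
  ext n
  rw [Finset.mem_filter, Bx_eq, Finset.mem_Icc, Finset.mem_Icc, Finset.mem_Ico]
  omega

lemma exc_card (V : ℝ) (r : ℕ) : ((Bx V).filter (fun n => ¬ n + r ∈ Bx V)).card ≤ r := by
  have hsub : (Bx V).filter (fun n => ¬ n + r ∈ Bx V) ⊆
      Finset.Ioc (NZ (2 * V - 1) - r) (NZ (2 * V - 1)) := by
    intro n hn
    rw [Finset.mem_filter, Bx_eq, Finset.mem_Icc, Finset.mem_Icc] at hn
    rw [Finset.mem_Ioc]
    omega
  refine (Finset.card_le_card hsub).trans ?_
  rw [Nat.card_Ioc]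
  omega

/-- the sum of the `r` gaps that start at `n` -/
noncomputable def Sr (r n : ℕ) : ℝ := ∑ i ∈ Finset.range r, dlt (n + i)

lemma Bx_mid {V : ℝ} {n r i : ℕ} (h1 : n ∈ Bx V) (h2 : n + r ∈ Bx V) (hi : i ≤ r) :
    n + i ∈ Bx V := by
  rw [Bx_eq, Finset.mem_Icc] at *
  omega

lemma Sr_upper (r : ℕ) (η : ℝ) (hη : 0 < η) : ∃ V1 : ℝ, ∀ V : ℝ, V1 ≤ V → ∀ n : ℕ, n ∈ Bx V →
    n + r ∈ Bx V →
      Sr r n ≤ (1 + η) * (Real.log V / (2 * Real.pi) * (ord (n + r) - ord n)) := by
  obtain ⟨V1, hV1⟩ := Pool.Agent.H707.SM.hd_dlt η hη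
  refine ⟨V1, fun V hV n h1 h2 => ?_⟩
  have h3 : ∀ i ∈ Finset.range r, dlt (n + i) ≤
      (1 + η) * (Real.log V / (2 * Real.pi) * (ord (n + (i + 1)) - ord (n + i))) := by
    intro i hi
    rw [Finset.mem_range] at hi
    have h4 : n + i + 1 ∈ Bx V := by
      have := Bx_mid (i := i + 1) h1 h2 (by omega)
      rwa [← add_assoc] at this
    exact hV1 V hV (n + i) (Bx_mid h1 h2 hi.le) h4
  refine (Finset.sum_le_sum h3).trans (le_of_eq ?_)
  rw [← Finset.mul_sum, ← Finset.mul_sum, Finset.sum_range_sub (fun i => ord (n + i))]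
  simp

lemma dlt_lower {V : ℝ} (hV : 10 ≤ V) {n : ℕ} (hn : n ∈ Bx V) :
    Real.log V / (2 * Real.pi) * (ord (n + 1) - ord n) ≤ dlt n := by
  rw [mem_Bx] at hn
  have hpi := Real.pi_pos
  obtain ⟨a, ha⟩ : ∃ a, a = ord n := ⟨_, rfl⟩
  obtain ⟨b, hb⟩ : ∃ b, b = ord (n + 1) := ⟨_, rfl⟩
  have hab : a ≤ b := by rw [ha, hb]; exact SG.ord_mono hn.1 (by omega)
  have haV : V ≤ a := by rw [ha]; linarith [hn.2.1]
  have ha0 : 0 < a := by linarith
  unfold LG.dlt
  rw [← ha, ← hb, div_mul_eq_mul_div]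
  apply div_le_div_of_nonneg_right _ (by positivity)
  have h1 : Real.log V ≤ Real.log a := Real.log_le_log (by linarith) haV
  have h2 : Real.log a ≤ Real.log b := Real.log_le_log ha0 hab
  have h3 : b * Real.log a ≤ b * Real.log b := mul_le_mul_of_nonneg_left h2 (by linarith)
  have h4 : Real.log V * (b - a) ≤ Real.log a * (b - a) :=
    mul_le_mul_of_nonneg_right h1 (by linarith)
  have h5 : Real.log a * (b - a) = b * Real.log a - a * Real.log a := by ring
  linarith

lemma Sr_lower {V : ℝ} (hV : 10 ≤ V) {r n : ℕ} (h1 : n ∈ Bx V) (h2 : n + r ∈ Bx V) :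
    Real.log V / (2 * Real.pi) * (ord (n + r) - ord n) ≤ Sr r n := by
  have h3 : ∀ i ∈ Finset.range r, Real.log V / (2 * Real.pi) * (ord (n + (i + 1)) - ord (n + i)) ≤
      dlt (n + i) := by
    intro i hi
    rw [Finset.mem_range] at hi
    exact dlt_lower hV (Bx_mid h1 h2 hi.le)
  refine le_trans (le_of_eq ?_) (Finset.sum_le_sum h3)
  rw [← Finset.mul_sum, Finset.sum_range_sub (fun i => ord (n + i))]
  simp

/-- **the mean of `min B (S - x)₊`** -/
theorem meanP (hRH : RiemannHypothesis) {g : ℝ → ℝ} (hg : ContDiff ℝ 1 g) (h1 : g 1 = 0) {x : ℝ}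
    (hx : 0 < x) (hmaj : ∀ u, max 0 (x - |u|) ≤ ct g u) (q r : ℕ) {w : ℝ} (hw1 : 1 ≤ w)
    (hw : ∀ M : ℕ, M ≤ r → w * ((r : ℝ) - M) ≤ ((M : ℝ) - q) * ((M : ℝ) - q - 1))
    {B : ℝ} (hB : 0 ≤ B) {ε : ℝ} (hε : 0 < ε) :
    ∀ᶠ N : ℕ in atTop, ∑ n ∈ Finset.Icc 1 N, mc B x (Sr r n) ≤
      ((mom g - (2 * q + 1) * x + q * (q + 1)) / w + ε) * N := by
  classical
  set A : ℝ := (mom g - (2 * q + 1) * x + q * (q + 1)) / w with hA
  apply Pool.Agent.Y747.average hRH A B (fun n => mc B x (Sr r n)) (fun n => mc_nonneg hB)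
    (fun n => mc_le _ _ _) _ ε hε
  intro ε hε
  set M : ℝ := 4 * |A| + 8 * x + 8 with hM
  have hM8 : 8 ≤ M := by
    have := abs_nonneg A
    linarith
  set e : ℝ := min (1 / 2) (ε / M) with he
  have he0 : 0 < e := lt_min (by norm_num) (by positivity)
  have he1 : e ≤ 1 / 2 := min_le_left _ _
  have heM : e * M ≤ ε := by
    have : e ≤ ε / M := min_le_right _ _
    rwa [le_div_iff₀ (by linarith)] at this
  obtain ⟨μ, hμe, hμ1, hμ0, V0, hV0, hblk⟩ := blockG hRH hg h1 hx hmaj q he0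
  obtain ⟨V1, hV1⟩ := Sr_upper r e he0
  obtain ⟨V2, hV2⟩ := XV_large (max 1 (r * B / e))
  refine ⟨max V0 (max V1 V2), hV0.trans (le_max_left _ _), fun V hV => ?_⟩
  have c1 : V0 ≤ V := (le_max_left _ _).trans hV
  have c2 : V1 ≤ V := ((le_max_left _ _).trans (le_max_right _ _)).trans hV
  have c3 : V2 ≤ V := ((le_max_right _ _).trans (le_max_right _ _)).trans hV
  have hV10 : 10 ≤ V := hV0.trans c1
  obtain ⟨hab, hmono, b1', b2⟩ := hblk V c1
  have b1 := (window_plus hab hmono hx q r (by linarith) hw).trans b1'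
  have b3 := hV2 V c3
  set X := XV V with hX
  have hX1 : 1 ≤ X := (le_max_left _ _).trans b3
  have hXB : r * B ≤ e * X := by
    have := (le_max_right _ _).trans b3
    rw [div_le_iff₀ he0] at this
    linarith
  have hlogV : 0 < Real.log V := Real.log_pos (by linarith)
  have hpi := Real.pi_pos
  set c : ℝ := (1 + e) / μ with hc
  have hμh : 1 / 2 ≤ μ := by linarith
  have hc1 : 1 ≤ c := by
    rw [hc, le_div_iff₀ hμ0]
    linarith
  have hc2 : c ≤ 1 + 4 * e := by
    rw [hc, div_le_iff₀ hμ0]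
    nlinarith
  set S' := (Bx V).filter (fun n => n + r ∈ Bx V) with hS'
  have hsplit := Finset.sum_filter_add_sum_filter_not (Bx V) (fun n => n + r ∈ Bx V)
    (fun n => mc B x (Sr r n))
  rw [← hS'] at hsplit
  -- the exceptional indices
  have hexc : ∑ n ∈ (Bx V).filter (fun n => ¬ n + r ∈ Bx V), mc B x (Sr r n) ≤ r * B := by
    refine (Finset.sum_le_card_nsmul _ _ B fun n _ => mc_le _ _ _).trans ?_
    rw [nsmul_eq_mul]
    apply mul_le_mul_of_nonneg_right _ hB
    exact_mod_cast exc_card V r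
  -- the other indices
  have hmain : ∀ n ∈ S', mc B x (Sr r n) ≤
      c * max 0 (μ * Real.log V / (2 * Real.pi) * ord (n + r) -
        μ * Real.log V / (2 * Real.pi) * ord n - x) + 4 * e * x := by
    intro n hn
    rw [hS', Finset.mem_filter] at hn
    have h2 := hV1 V c2 n hn.1 hn.2
    set D : ℝ := μ * Real.log V / (2 * Real.pi) * ord (n + r) -
        μ * Real.log V / (2 * Real.pi) * ord n with hD
    have h3 : (1 + e) * (Real.log V / (2 * Real.pi) * (ord (n + r) - ord n)) = c * D := by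
      rw [hc, hD]
      field_simp
    rw [h3] at h2
    refine (min_le_right _ _).trans ?_
    have hD0 : 0 ≤ max 0 (D - x) := le_max_left _ _
    have hD1 : D - x ≤ max 0 (D - x) := le_max_right _ _
    apply max_le
    · positivity
    · have h4 : c * (D - x) ≤ c * max 0 (D - x) := mul_le_mul_of_nonneg_left hD1 (by linarith)
      have h5 : (c - 1) * x ≤ 4 * e * x := mul_le_mul_of_nonneg_right (by linarith) hx.le
      have h6 : c * (D - x) = c * D - c * x := by ring
      have h7 : (c - 1) * x = c * x - x := by ring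
      linarith
  have hS'card : (S'.card : ℝ) ≤ (1 + e) * X := by
    have : (S'.card : ℝ) ≤ (Bx V).card := by
      exact_mod_cast Finset.card_le_card (Finset.filter_subset _ _)
    exact this.trans b2
  have hsum := Finset.sum_le_sum hmain
  rw [Finset.sum_add_distrib, Finset.sum_const, nsmul_eq_mul, ← Finset.mul_sum] at hsum
  rw [← fil_eq V r, ← hS'] at b1
  set W := ∑ n ∈ S', max 0 (μ * Real.log V / (2 * Real.pi) * ord (n + r) -
        μ * Real.log V / (2 * Real.pi) * ord n - x) with hW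
  have hW0 : 0 ≤ W := Finset.sum_nonneg fun _ _ => le_max_left _ _
  have hAQ : mom g - (2 * q + 1) * x + q * (q + 1) = A * w := by
    rw [hA]
    field_simp
  have h5 : W ≤ (A + e) * X := by
    have h6 : w * W ≤ (A * w + e) * X := by
      rw [← hAQ]
      exact b1
    have h7 : (A * w + e) * X ≤ w * ((A + e) * X) := by
      have i1 : 0 ≤ e * X := mul_nonneg he0.le (by linarith)
      have i2 : 1 * (e * X) ≤ w * (e * X) := mul_le_mul_of_nonneg_right hw1 i1
      have i3 : w * ((A + e) * X) = A * w * X + w * (e * X) := by ring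
      have i4 : (A * w + e) * X = A * w * X + e * X := by ring
      linarith
    exact le_of_mul_le_mul_left (h6.trans h7) (by linarith)
  have h8 : c * W ≤ (A + e * (4 * |A| + 3)) * X := by
    have h9 : 0 ≤ (A + e) * X := hW0.trans h5
    calc c * W ≤ c * ((A + e) * X) := mul_le_mul_of_nonneg_left h5 (by linarith)
      _ ≤ (1 + 4 * e) * ((A + e) * X) := mul_le_mul_of_nonneg_right hc2 h9
      _ = (A + e * (4 * A + 1 + 4 * e)) * X := by ring
      _ ≤ _ := by
        apply mul_le_mul_of_nonneg_right _ (by linarith)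
        have i1 := le_abs_self A
        have i2 : e * (4 * A + 1 + 4 * e) ≤ e * (4 * |A| + 3) :=
          mul_le_mul_of_nonneg_left (by linarith) he0.le
        linarith
  have h11 : (S'.card : ℝ) * (4 * e * x) ≤ e * (8 * x) * X := by
    calc (S'.card : ℝ) * (4 * e * x) ≤ ((1 + e) * X) * (4 * e * x) :=
          mul_le_mul_of_nonneg_right hS'card (by positivity)
      _ ≤ (2 * X) * (4 * e * x) := by
          apply mul_le_mul_of_nonneg_right _ (by positivity)
          exact mul_le_mul_of_nonneg_right (by linarith) (by linarith)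
      _ = _ := by ring
  have h12 : e * M * X ≤ ε * X := mul_le_mul_of_nonneg_right heM (by linarith)
  have h13 : e * M * X = e * (4 * |A| + 3) * X + e * (8 * x) * X + 5 * (e * X) := by
    rw [hM]; ring
  have h14 : 0 ≤ e * X := mul_nonneg he0.le (by linarith)
  have h15 : (A + e * (4 * |A| + 3)) * X = A * X + e * (4 * |A| + 3) * X := by ring
  have h16 : (A + ε) * X = A * X + ε * X := by ring
  rw [← hsplit, h16]
  linarith

/-- `min B (x - d)₊` -/
noncomputable def mm (B x d : ℝ) : ℝ := min B (max 0 (x - d))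

lemma mm_nonneg {B x d : ℝ} (hB : 0 ≤ B) : 0 ≤ mm B x d := le_min hB (le_max_left _ _)

lemma mm_le (B x d : ℝ) : mm B x d ≤ B := min_le_left _ _

/-- **the mean of `min B (x - S)₊`** -/
theorem meanM (hRH : RiemannHypothesis) {g : ℝ → ℝ} (hg : ContDiff ℝ 1 g) (h1 : g 1 = 0) {x : ℝ}
    (hx : 0 < x) (hmaj : ∀ u, max 0 (x - |u|) ≤ ct g u) (q r : ℕ) {w : ℝ} (hw1 : 1 ≤ w)
    (hw : ∀ M : ℕ, r ≤ M → w * ((M : ℝ) - r) ≤ ((M : ℝ) - q) * ((M : ℝ) - q - 1))
    {B : ℝ} (hB : 0 ≤ B) {ε : ℝ} (hε : 0 < ε) :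
    ∀ᶠ N : ℕ in atTop, ∑ n ∈ Finset.Icc 1 N, mm B x (Sr r n) ≤
      ((mom g - (2 * q + 1) * x + q * (q + 1)) / w + ε) * N := by
  classical
  set A : ℝ := (mom g - (2 * q + 1) * x + q * (q + 1)) / w with hA
  apply Pool.Agent.Y747.average hRH A B (fun n => mm B x (Sr r n)) (fun n => mm_nonneg hB)
    (fun n => mm_le _ _ _) _ ε hε
  intro ε hε
  set e : ℝ := min (1 / 2) (ε / 2) with he
  have he0 : 0 < e := lt_min (by norm_num) (by positivity)
  have he1 : e ≤ 1 / 2 := min_le_left _ _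
  have heε : e ≤ ε / 2 := min_le_right _ _
  obtain ⟨μ, hμe, hμ1, hμ0, V0, hV0, hblk⟩ := blockG hRH hg h1 hx hmaj q he0
  obtain ⟨V2, hV2⟩ := XV_large (max 1 (r * B / e))
  refine ⟨max V0 V2, hV0.trans (le_max_left _ _), fun V hV => ?_⟩
  have c1 : V0 ≤ V := (le_max_left _ _).trans hV
  have c3 : V2 ≤ V := (le_max_right _ _).trans hV
  have hV10 : 10 ≤ V := hV0.trans c1
  obtain ⟨hab, hmono, b1', b2⟩ := hblk V c1
  have b1 := (window_minus hab hmono hx q r (by linarith) hw).trans b1'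
  have b3 := hV2 V c3
  set X := XV V with hX
  have hX1 : 1 ≤ X := (le_max_left _ _).trans b3
  have hXB : r * B ≤ e * X := by
    have := (le_max_right _ _).trans b3
    rw [div_le_iff₀ he0] at this
    linarith
  have hlogV : 0 < Real.log V := Real.log_pos (by linarith)
  have hpi := Real.pi_pos
  set S' := (Bx V).filter (fun n => n + r ∈ Bx V) with hS'
  have hsplit := Finset.sum_filter_add_sum_filter_not (Bx V) (fun n => n + r ∈ Bx V)
    (fun n => mm B x (Sr r n))
  rw [← hS'] at hsplit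
  -- the exceptional indices
  have hexc : ∑ n ∈ (Bx V).filter (fun n => ¬ n + r ∈ Bx V), mm B x (Sr r n) ≤ r * B := by
    refine (Finset.sum_le_card_nsmul _ _ B fun n _ => mm_le _ _ _).trans ?_
    rw [nsmul_eq_mul]
    apply mul_le_mul_of_nonneg_right _ hB
    exact_mod_cast exc_card V r
  -- the other indices
  have hmain : ∀ n ∈ S', mm B x (Sr r n) ≤
      max 0 (x - (μ * Real.log V / (2 * Real.pi) * ord (n + r) -
        μ * Real.log V / (2 * Real.pi) * ord n)) := by
    intro n hn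
    rw [hS', Finset.mem_filter] at hn
    have h2 := Sr_lower hV10 hn.1 hn.2
    have h3 : ord n ≤ ord (n + r) := SG.ord_mono (mem_Bx.1 hn.1).1 (by omega)
    have h4 : μ * Real.log V / (2 * Real.pi) * ord (n + r) -
        μ * Real.log V / (2 * Real.pi) * ord n =
        μ * (Real.log V / (2 * Real.pi) * (ord (n + r) - ord n)) := by ring
    have h5 : 0 ≤ Real.log V / (2 * Real.pi) * (ord (n + r) - ord n) :=
      mul_nonneg (by positivity) (by linarith)
    have h6 : μ * (Real.log V / (2 * Real.pi) * (ord (n + r) - ord n)) ≤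
        1 * (Real.log V / (2 * Real.pi) * (ord (n + r) - ord n)) :=
      mul_le_mul_of_nonneg_right hμ1.le h5
    refine (min_le_right _ _).trans ?_
    apply max_le_max le_rfl
    rw [h4]
    linarith
  have hsum := Finset.sum_le_sum hmain
  rw [← fil_eq V r, ← hS'] at b1
  set W := ∑ n ∈ S', max 0 (x - (μ * Real.log V / (2 * Real.pi) * ord (n + r) -
        μ * Real.log V / (2 * Real.pi) * ord n)) with hW
  have hAQ : mom g - (2 * q + 1) * x + q * (q + 1) = A * w := by
    rw [hA]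
    field_simp
  have h5 : W ≤ (A + e) * X := by
    have h6 : w * W ≤ (A * w + e) * X := by
      rw [← hAQ]
      exact b1
    have h7 : (A * w + e) * X ≤ w * ((A + e) * X) := by
      have i1 : 0 ≤ e * X := mul_nonneg he0.le (by linarith)
      have i2 : 1 * (e * X) ≤ w * (e * X) := mul_le_mul_of_nonneg_right hw1 i1
      have i3 : w * ((A + e) * X) = A * w * X + w * (e * X) := by ring
      have i4 : (A * w + e) * X = A * w * X + e * X := by ring
      linarith
    exact le_of_mul_le_mul_left (h6.trans h7) (by linarith)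
  have h12 : e * X ≤ ε / 2 * X := mul_le_mul_of_nonneg_right heε (by linarith)
  have h16 : (A + ε) * X = A * X + ε / 2 * X + ε / 2 * X := by ring
  have h17 : (A + e) * X = A * X + e * X := by ring
  rw [← hsplit, h16]
  linarith

end Pool.Agent.H666.ZG
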