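import Pool.Agent.H666.ZG.TL

/-! The variance of sums of consecutive gaps: assembly. -/

open Filter Topology Set MeasureTheory

namespace Pool.Agent.H666.ZG

open SG (ord NZ)
open Pool.Agent.H707.SM (Jm H1 Jm_le H1_succ mc)
open Pool.Agent.H707.NV (LL)

/-- `∑ (S - r)²` -/
noncomputable def VS (r N : ℕ) : ℝ := ∑ n ∈ Finset.Icc 1 N, (Sr r n - r) ^ 2

lemma VS_nonneg (r N : ℕ) : 0 ≤ VS r N := Finset.sum_nonneg fun _ _ => sq_nonneg _

lemma VS_up (hRH : RiemannHypothesis) : ∃ A K : ℝ, 1 ≤ A ∧ 0 ≤ K ∧ ∀ r U : ℕ, 1 ≤ U → U ≤ r →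
    A * Real.log (r + 1) ≤ U → ∀ η : ℝ, 0 < η → η < 1 → ∀ ε : ℝ, 0 < ε → ∀ᶠ N : ℕ in atTop,
      VS r N ≤ (Jm r / (1 - η) + 6 + K + (1 + Real.log U) ^ 2 / η + ε) * N := by
  obtain ⟨A, K, hA, hK, htail⟩ := tail_U hRH
  refine ⟨A, K, hA, hK, fun r U hU hUr hAU η hη hη1 ε hε => ?_⟩
  have h1 := tr_up hRH hUr (P := Jm r / (1 - η) + 5 + (1 + Real.log U) ^ 2 / η)
    (fun ε hε => Gt_up hRH hη hη1 hU hUr hε) hε
  have h2 := htail r (by omega) U hAU
  filter_upwards [h1, h2] with N h1 h2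
  have hpt : ∀ n ∈ Finset.Icc 1 N, (Sr r n - r) ^ 2 ≤ 1 / 4 + FF U r (Sr r n) + tq U r n := by
    intro n _
    unfold tq
    split_ifs with h
    · have := FF_nonneg U r (Sr r n)
      linarith
    · have := sq_le_FF (not_lt.1 h)
      linarith
  have h3 := Finset.sum_le_sum hpt
  rw [Finset.sum_add_distrib, Finset.sum_add_distrib, Finset.sum_const, nsmul_eq_mul,
    Nat.card_Icc] at h3
  have hN0 : (0 : ℝ) ≤ N := Nat.cast_nonneg N
  have h4 : ((N + 1 - 1 : ℕ) : ℝ) = N := by simp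
  rw [h4] at h3
  unfold VS
  have h5 : (Jm r / (1 - η) + 6 + K + (1 + Real.log U) ^ 2 / η + ε) * N =
      (Jm r / (1 - η) + 5 + (1 + Real.log U) ^ 2 / η + ε) * N + K * N + N := by ring
  rw [h5]
  linarith

lemma VS_low (hRH : RiemannHypothesis) : ∃ C : ℝ, 1 ≤ C ∧ ∀ η : ℝ, 0 < η → ∀ U r : ℕ, 1 ≤ U →
    U ≤ r → ∀ ε : ℝ, 0 < ε → ∀ᶠ N : ℕ in atTop,
    ((LL ((r : ℝ) + 1 / 2) - 1 / 4 - C * (1 + Real.log (2 * r + 2)) ^ 4 / (U : ℝ) ^ 2) / (1 + η) -
      (5 + (1 + Real.log U) ^ 2 / η) - ε) * N ≤ VS r N := by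
  obtain ⟨C, hC, hlow⟩ := Gt_low hRH
  refine ⟨C, hC, fun η hη U r hU hUr ε hε => ?_⟩
  obtain ⟨P, hP⟩ : ∃ P, P = (LL ((r : ℝ) + 1 / 2) - 1 / 4 -
    C * (1 + Real.log (2 * r + 2)) ^ 4 / (U : ℝ) ^ 2) / (1 + η) -
      (5 + (1 + Real.log U) ^ 2 / η) := ⟨_, rfl⟩
  rw [← hP]
  by_cases hP0 : 0 ≤ P
  · have h1 := tr_low hRH hUr hP0 (by
      intro ε hε
      rw [hP]
      exact hlow η hη U r hU hUr ε hε) hε
    filter_upwards [h1] with N h1
    refine h1.trans ?_
    exact Finset.sum_le_sum fun n _ => Gs_le_sq U r _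
  · filter_upwards with N
    have h1 := VS_nonneg r N
    have hN0 : (0 : ℝ) ≤ N := Nat.cast_nonneg N
    have h2 : (P - ε) * N ≤ 0 := mul_nonpos_of_nonpos_of_nonneg (by linarith) hN0
    linarith

lemma sqrt_mul_ge {l w : ℝ} (hl : 1 ≤ l) (hw : 1 ≤ w) : 1 ≤ Real.sqrt l * w := by
  have h1 : 1 ≤ Real.sqrt l := by rw [Real.one_le_sqrt]; exact hl
  nlinarith

/-- **large `r`** -/
lemma VS_large (hRH : RiemannHypothesis) : ∃ K : ℝ, 0 ≤ K ∧ ∃ r0 : ℕ, 16 ≤ r0 ∧ ∀ r : ℕ, r0 ≤ r →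
    ∀ᶠ N : ℕ in atTop, |VS r N - Real.log r / Real.pi ^ 2 * N| ≤
      K * (Real.sqrt (Real.log r) * Real.log (Real.log r)) * N := by
  obtain ⟨A, K, hA, hK, hup⟩ := VS_up hRH
  obtain ⟨C, hC, hlow⟩ := VS_low hRH
  set a : ℝ := 3 + Real.log (5 * A) with ha
  have hlogA : 0 ≤ Real.log (5 * A) := Real.log_nonneg (by linarith)
  have ha3 : 3 ≤ a := by linarith
  have hpi := Real.pi_gt_three
  have hpi2 : 9 ≤ Real.pi ^ 2 := by nlinarith
  -- the conditions on `r`
  have hlim : Tendsto (fun r : ℕ => Real.log (r : ℝ)) atTop atTop :=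
    Real.tendsto_log_atTop.comp tendsto_natCast_atTop_atTop
  have ev1 : ∀ᶠ r : ℕ in atTop, 3 ≤ Real.log (r : ℝ) := hlim.eventually_ge_atTop 3
  have ev2 : ∀ᶠ r : ℕ in atTop, 5 * A * Real.log (r : ℝ) ^ 2 ≤ r := by
    have h1 : Tendsto (fun x : ℝ => Real.log x ^ 2 / x) atTop (𝓝 0) := by
      have := (isLittleO_log_rpow_rpow_atTop (s := 1) 2 one_pos)
      have h2 := this.tendsto_div_nhds_zero
      refine h2.congr ?_
      intro x
      norm_num
    have h3 := (h1.comp tendsto_natCast_atTop_atTop (α := ℕ)).eventually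
      (gt_mem_nhds (show (0 : ℝ) < 1 / (5 * A) by positivity))
    filter_upwards [h3, eventually_gt_atTop 0] with r h4 h5
    have hr : (0 : ℝ) < r := by exact_mod_cast h5
    simp only [Function.comp] at h4
    rw [div_lt_div_iff₀ hr (by positivity)] at h4
    linarith
  have ev3 : ∀ᶠ r : ℕ in atTop, a * Real.log (Real.log r) / Real.sqrt (Real.log r) ≤ 1 / 2 := by
    have h1 : Tendsto (fun x : ℝ => Real.log x / x ^ (1 / 2 : ℝ)) atTop (𝓝 0) :=
      (isLittleO_log_rpow_atTop (by norm_num)).tendsto_div_nhds_zero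
    have h3 := (h1.comp hlim).eventually
      (gt_mem_nhds (show (0 : ℝ) < 1 / (2 * a) by positivity))
    filter_upwards [h3] with r h4
    simp only [Function.comp] at h4
    rw [← Real.sqrt_eq_rpow] at h4
    have h5 : a * (Real.log (Real.log r) / Real.sqrt (Real.log r)) ≤ a * (1 / (2 * a)) :=
      mul_le_mul_of_nonneg_left h4.le (by linarith)
    have h6 : a * (1 / (2 * a)) = 1 / 2 := by field_simp
    rw [mul_div_assoc]
    linarith
  obtain ⟨r1, hr1⟩ := ((ev1.and ev2).and ev3).exists_forall_of_atTop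
  refine ⟨2 * a + 8 + K + 6 * C + 7, by linarith, max 16 r1, le_max_left _ _, fun r hr => ?_⟩
  have hr16 : 16 ≤ r := (le_max_left _ _).trans hr
  obtain ⟨⟨c1, c2⟩, c3⟩ := hr1 r ((le_max_right _ _).trans hr)
  obtain ⟨l, hl⟩ : ∃ l, l = Real.log (r : ℝ) := ⟨_, rfl⟩
  obtain ⟨w, hw⟩ : ∃ w, w = Real.log l := ⟨_, rfl⟩
  rw [← hl] at c1 c2 c3 ⊢
  rw [← hw] at c3 ⊢
  have hr0 : (0 : ℝ) < r := by
    have : 0 < r := by omega
    exact_mod_cast this
  have hr1' : (1 : ℝ) ≤ r := by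
    have : 1 ≤ r := by omega
    exact_mod_cast this
  have hw1 : 1 ≤ w := by
    rw [hw, Real.le_log_iff_exp_le (by linarith)]
    have := Real.exp_one_lt_d9
    linarith
  have hsl : 1 ≤ Real.sqrt l := by rw [Real.one_le_sqrt]; linarith
  have hssq : Real.sqrt l * Real.sqrt l = l := Real.mul_self_sqrt (by linarith)
  set s := Real.sqrt l with hs
  -- `U`
  obtain ⟨U, hU⟩ : ∃ U : ℕ, U = ⌈4 * A * l ^ 2⌉₊ := ⟨_, rfl⟩
  have hAl : 1 ≤ A * l ^ 2 := by nlinarith
  have hUge : 4 * A * l ^ 2 ≤ U := by rw [hU]; exact Nat.le_ceil _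
  have hUle : (U : ℝ) ≤ 5 * A * l ^ 2 := by
    have : (U : ℝ) < 4 * A * l ^ 2 + 1 := by rw [hU]; exact Nat.ceil_lt_add_one (by positivity)
    linarith
  have hUr : U ≤ r := by
    have : (U : ℝ) ≤ r := hUle.trans c2
    exact_mod_cast this
  have hU1 : 1 ≤ U := by
    have : (1 : ℝ) ≤ U := by linarith
    exact_mod_cast this
  have hU0 : (0 : ℝ) < U := by linarith
  have hlog1 : Real.log ((r : ℝ) + 1) ≤ 2 * l := by
    have h1 : Real.log ((r : ℝ) + 1) ≤ Real.log (2 * r) := Real.log_le_log (by linarith) (by linarith)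
    rw [Real.log_mul (by norm_num) hr0.ne', ← hl] at h1
    have := Real.log_two_lt_d9
    linarith
  have hAU : A * Real.log ((r : ℝ) + 1) ≤ U := by
    refine le_trans (mul_le_mul_of_nonneg_left hlog1 (by linarith)) (le_trans ?_ hUge)
    nlinarith
  have hlogU : 1 + Real.log U ≤ a * w := by
    have h1 : Real.log U ≤ Real.log (5 * A * l ^ 2) := Real.log_le_log hU0 hUle
    rw [Real.log_mul (by positivity) (by positivity), Real.log_pow] at h1
    push_cast at h1
    rw [← hw] at h1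
    have : Real.log (5 * A) ≤ Real.log (5 * A) * w := by nlinarith
    rw [ha]
    nlinarith
  have hlogU0 : 0 ≤ 1 + Real.log U := by
    have : 0 ≤ Real.log U := Real.log_nonneg (by exact_mod_cast hU1)
    linarith
  -- `η`
  set η := a * w / s with hη
  have hη0 : 0 < η := by positivity
  have hη2 : η ≤ 1 / 2 := c3
  have hηs : η * s = a * w := by rw [hη]; field_simp
  have hηl : η * l = a * w * s := by
    rw [← hssq, ← mul_assoc, hηs]
  have hquot : (1 + Real.log U) ^ 2 / η ≤ a * w * s := by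
    rw [div_le_iff₀ hη0]
    have e1 : a * w * s * η = (a * w) ^ 2 := by
      rw [mul_assoc (a * w) s η, mul_comm s η, hηs]
      ring
    rw [e1]
    exact pow_le_pow_left₀ hlogU0 hlogU 2
  have hquart : C * (1 + Real.log (2 * r + 2)) ^ 4 / (U : ℝ) ^ 2 ≤ 6 * C := by
    rw [div_le_iff₀ (by positivity)]
    have h1 : 1 + Real.log (2 * (r : ℝ) + 2) ≤ 3 * l := by
      have h2 : Real.log (2 * (r : ℝ) + 2) ≤ Real.log (4 * r) :=
        Real.log_le_log (by linarith) (by linarith)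
      rw [Real.log_mul (by norm_num) hr0.ne', ← hl, show (4 : ℝ) = 2 ^ 2 by norm_num,
        Real.log_pow] at h2
      have := Real.log_two_lt_d9
      push_cast at h2
      linarith
    have h3 : 0 ≤ 1 + Real.log (2 * (r : ℝ) + 2) := by
      have : 0 ≤ Real.log (2 * (r : ℝ) + 2) := Real.log_nonneg (by linarith)
      linarith
    have h4 : (1 + Real.log (2 * (r : ℝ) + 2)) ^ 4 ≤ (3 * l) ^ 4 := pow_le_pow_left₀ h3 h1 4
    have h5 : (4 * l ^ 2) ^ 2 ≤ (U : ℝ) ^ 2 := by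
      apply pow_le_pow_left₀ (by positivity)
      refine le_trans ?_ hUge
      nlinarith [sq_nonneg l]
    have h6 : (3 * l) ^ 4 ≤ 6 * (4 * l ^ 2) ^ 2 := by nlinarith [sq_nonneg (l ^ 2)]
    have h7 : (1 + Real.log (2 * (r : ℝ) + 2)) ^ 4 ≤ 6 * (U : ℝ) ^ 2 := by linarith
    have := mul_le_mul_of_nonneg_left h7 (show 0 ≤ C by linarith)
    linarith
  -- the main terms
  have hsw : 1 ≤ s * w := by nlinarith
  have hJ : Jm r / (1 - η) ≤ l / Real.pi ^ 2 + 1 + a * w * s := by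
    rw [div_le_iff₀ (by linarith)]
    have h1 : Jm r ≤ (3 + l) / Real.pi ^ 2 := by
      refine (Jm_le r).trans ?_
      apply div_le_div_of_nonneg_right _ (by positivity)
      have := H1_le_log (m := r) (by omega)
      rw [← hl] at this
      linarith
    refine h1.trans ?_
    have h2 : (3 + l) / Real.pi ^ 2 = l / Real.pi ^ 2 + 3 / Real.pi ^ 2 := by ring
    have h3 : 3 / Real.pi ^ 2 ≤ 1 / 2 := by
      rw [div_le_iff₀ (by positivity)]
      linarith
    have h4 : (l / Real.pi ^ 2 + 1 + a * w * s) * (1 - η) =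
        l / Real.pi ^ 2 + (1 - η) + (a * w * s * (1 - η) - η * l / Real.pi ^ 2) := by
      ring
    have h5 : η * l / Real.pi ^ 2 ≤ a * w * s * (1 - η) := by
      rw [hηl, div_le_iff₀ (by positivity)]
      have h6 : 1 ≤ (1 - η) * Real.pi ^ 2 := by nlinarith
      have h7 : 0 ≤ a * w * s := by positivity
      calc a * w * s = a * w * s * 1 := by ring
        _ ≤ a * w * s * ((1 - η) * Real.pi ^ 2) := mul_le_mul_of_nonneg_left h6 h7
        _ = _ := by ring
    rw [h2, h4]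
    linarith
  have hL : l / Real.pi ^ 2 - a * w * s - 1 / 4 - 6 * C ≤
      (LL ((r : ℝ) + 1 / 2) - 1 / 4 - C * (1 + Real.log (2 * r + 2)) ^ 4 / (U : ℝ) ^ 2) / (1 + η) := by
    rw [le_div_iff₀ (by linarith)]
    have h1 := LL_ge r
    have h2 : l / Real.pi ^ 2 ≤ H1 r / Real.pi ^ 2 := by
      apply div_le_div_of_nonneg_right _ (by positivity)
      have h3 := log_le_H1 r
      have h4 : l ≤ Real.log ((r : ℝ) + 1) := by rw [hl]; exact Real.log_le_log hr0 (by linarith)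
      linarith
    have h5 : (l / Real.pi ^ 2 - a * w * s - 1 / 4 - 6 * C) * (1 + η) =
        l / Real.pi ^ 2 - (1 / 4 + 6 * C) + (η * l / Real.pi ^ 2 - a * w * s) -
          η * (a * w * s + 1 / 4 + 6 * C) := by ring
    have h6 : η * l / Real.pi ^ 2 ≤ a * w * s := by
      rw [hηl]
      exact div_le_self (by positivity) (by linarith)
    have h7 : 0 ≤ η * (a * w * s + 1 / 4 + 6 * C) := by positivity
    rw [h5]
    linarith
  filter_upwards [hup r U hU1 hUr hAU η hη0 (by linarith) 1 one_pos,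
    hlow η hη0 U r hU1 hUr 1 one_pos] with N g1 g2
  have hN0 : (0 : ℝ) ≤ N := Nat.cast_nonneg N
  have k1 : Jm r / (1 - η) + 6 + K + (1 + Real.log U) ^ 2 / η + 1 ≤
      l / Real.pi ^ 2 + (2 * a + 8 + K + 6 * C + 7) * (s * w) := by
    have h1 : 8 + K ≤ (8 + K) * (s * w) := by nlinarith
    have h2 : 0 ≤ (6 * C + 7) * (s * w) := by positivity
    have h3 : (2 * a + 8 + K + 6 * C + 7) * (s * w) = 2 * (a * w * s) + (8 + K) * (s * w) +
        (6 * C + 7) * (s * w) := by ring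
    rw [h3]
    linarith
  have k2 : l / Real.pi ^ 2 - (2 * a + 8 + K + 6 * C + 7) * (s * w) ≤
      (LL ((r : ℝ) + 1 / 2) - 1 / 4 - C * (1 + Real.log (2 * r + 2)) ^ 4 / (U : ℝ) ^ 2) / (1 + η) -
      (5 + (1 + Real.log U) ^ 2 / η) - 1 := by
    have h1 : 7 + 6 * C ≤ (6 * C + 7) * (s * w) := by nlinarith
    have h2 : 0 ≤ (8 + K) * (s * w) := by positivity
    have h3 : (2 * a + 8 + K + 6 * C + 7) * (s * w) = 2 * (a * w * s) + (8 + K) * (s * w) +
        (6 * C + 7) * (s * w) := by ring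
    rw [h3]
    linarith
  have k3 := mul_le_mul_of_nonneg_right k1 hN0
  have k4 := mul_le_mul_of_nonneg_right k2 hN0
  rw [abs_le]
  constructor
  · linarith
  · linarith

/-- **all `r ≥ 16`** -/
theorem VS_all (hRH : RiemannHypothesis) : ∃ K : ℝ, 0 ≤ K ∧ ∀ r : ℕ, 16 ≤ r →
    ∀ᶠ N : ℕ in atTop, |VS r N - Real.log r / Real.pi ^ 2 * N| ≤
      K * (Real.sqrt (Real.log r) * Real.log (Real.log r)) * N := by
  obtain ⟨K, hK, r0, hr0, h⟩ := VS_large hRH
  set K2 : ℝ := ∑ r ∈ Finset.range r0, (|Bd r| + 1 + |Real.log r|) with hK2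
  have hK20 : 0 ≤ K2 := Finset.sum_nonneg fun r _ => by positivity
  refine ⟨K + K2, by linarith, fun r hr => ?_⟩
  have hr16 : (16 : ℝ) ≤ r := by exact_mod_cast hr
  have hlog16 : (2.77 : ℝ) ≤ Real.log 16 := by
    rw [show (16 : ℝ) = 2 ^ 4 by norm_num, Real.log_pow]
    have := Real.log_two_gt_d9
    push_cast
    linarith
  have hl : 2.77 ≤ Real.log (r : ℝ) :=
    hlog16.trans (Real.log_le_log (by norm_num) hr16)
  have hw : 1 ≤ Real.log (Real.log (r : ℝ)) := by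
    rw [Real.le_log_iff_exp_le (by linarith)]
    have := Real.exp_one_lt_d9
    linarith
  have hsw : 1 ≤ Real.sqrt (Real.log r) * Real.log (Real.log r) := sqrt_mul_ge (by linarith) hw
  set X := Real.sqrt (Real.log r) * Real.log (Real.log r) with hX
  by_cases hrr : r0 ≤ r
  · filter_upwards [h r hrr] with N hN
    refine hN.trans ?_
    apply mul_le_mul_of_nonneg_right _ (Nat.cast_nonneg N)
    apply mul_le_mul_of_nonneg_right _ (by linarith)
    linarith
  · rw [not_le] at hrr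
    filter_upwards [var_le hRH (show 1 ≤ r by omega) one_pos] with N hN
    have hN0 : (0 : ℝ) ≤ N := Nat.cast_nonneg N
    have h1 : |Bd r| + 1 + |Real.log (r : ℝ)| ≤ K2 :=
      Finset.single_le_sum (f := fun r : ℕ => |Bd r| + 1 + |Real.log (r : ℝ)|)
        (fun r _ => by positivity) (Finset.mem_range.2 hrr)
    have h2 : K2 * N ≤ (K + K2) * X * N := by
      apply mul_le_mul_of_nonneg_right _ hN0
      nlinarith
    have h3 : 0 ≤ Real.log (r : ℝ) / Real.pi ^ 2 := by positivity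
    have h4 : Real.log (r : ℝ) / Real.pi ^ 2 ≤ |Real.log (r : ℝ)| := by
      refine le_trans ?_ (le_abs_self _)
      apply div_le_self (by linarith)
      have := Real.pi_gt_three
      nlinarith
    have h5 := VS_nonneg r N
    have h6 : VS r N ≤ (Bd r + 1) * N := hN
    have h7 := le_abs_self (Bd r)
    have h8 := abs_nonneg (Bd r)
    have h9 := abs_nonneg (Real.log (r : ℝ))
    have h10 : (Bd r + 1) * N ≤ K2 * N := mul_le_mul_of_nonneg_right (by linarith) hN0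
    have h11 : Real.log (r : ℝ) / Real.pi ^ 2 * N ≤ K2 * N :=
      mul_le_mul_of_nonneg_right (by linarith) hN0
    have h12 : 0 ≤ Real.log (r : ℝ) / Real.pi ^ 2 * N := mul_nonneg h3 hN0
    rw [abs_le]
    constructor
    · linarith
    · linarith

end Pool.Agent.H666.ZG
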