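import Mathlib

/-! Elementary inequalities for the comparison of windows with a fixed window. -/

open Finset

namespace Pool.Agent.H666.ZG

/-- sums of positive parts of an arithmetic progression -/
lemma pos_sum_eq (k h : ℝ) (hh : 0 < h) (U : ℕ) : ∃ J : ℕ, J ≤ U ∧
    ∑ j ∈ range U, max 0 (k - h * j) = ∑ j ∈ range J, (k - h * j) ∧
    (J = U ∨ k ≤ h * J) ∧ (J = 0 ∨ h * ((J : ℝ) - 1) ≤ k) := by
  induction U with
  | zero => exact ⟨0, le_rfl, by simp, Or.inl rfl, Or.inl rfl⟩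
  | succ U ih =>
    obtain ⟨J, h1, h2, h3, h4⟩ := ih
    rw [sum_range_succ, h2]
    rcases le_or_gt (k - h * U) 0 with h5 | h5
    · refine ⟨J, by omega, by rw [max_eq_left h5, add_zero], ?_, h4⟩
      rcases h3 with h6 | h6
      · right
        rw [h6]
        linarith
      · exact Or.inr h6
    · have hJ : J = U := by
        rcases h3 with h6 | h6
        · exact h6
        · by_contra hne
          have h7 : J < U := lt_of_le_of_ne h1 hne
          have h8 : (J : ℝ) ≤ U := by exact_mod_cast h7.le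
          have := mul_le_mul_of_nonneg_left h8 hh.le
          linarith
      subst hJ
      refine ⟨J + 1, le_rfl, ?_, Or.inl rfl, ?_⟩
      · rw [sum_range_succ, max_eq_right h5.le]
      · right
        push_cast
        have : h * ((J : ℝ) + 1 - 1) = h * J := by ring
        rw [this]
        linarith

lemma ap_sum (k h : ℝ) (J : ℕ) :
    2 * ∑ j ∈ range J, (k - h * j) = 2 * J * k - h * J * ((J : ℝ) - 1) := by
  induction J with
  | zero => simp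
  | succ J ih =>
    rw [sum_range_succ, mul_add, ih]
    push_cast
    ring

lemma trap_up {k h : ℝ} (hk : 0 ≤ k) (hh : 0 < h) (hh1 : h ≤ 1) (U : ℕ) :
    2 * ∑ j ∈ range U, max 0 (k - h * j) ≤ (k ^ 2 + k) / h + 1 / 4 := by
  obtain ⟨J, -, h2, -, -⟩ := pos_sum_eq k h hh U
  rw [h2, ap_sum]
  have e : (k ^ 2 + k) / h + 1 / 4 - (2 * J * k - h * J * ((J : ℝ) - 1)) =
      h * ((J : ℝ) - k / h - 1 / 2) ^ 2 + (1 - h) / 4 + k * (1 - h) / h := by
    field_simp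
    ring
  have h3 : 0 ≤ h * ((J : ℝ) - k / h - 1 / 2) ^ 2 + (1 - h) / 4 + k * (1 - h) / h := by
    have a1 : 0 ≤ 1 - h := by linarith
    positivity
  linarith

lemma trap_low {k h : ℝ} (hk : 0 ≤ k) (hh1 : 1 ≤ h) {U : ℕ} (hU : k ≤ h * U) :
    (k ^ 2 + k) / h ≤ 2 * ∑ j ∈ range U, max 0 (k - h * j) := by
  have hh : 0 < h := by linarith
  obtain ⟨J, -, h2, h3, h4⟩ := pos_sum_eq k h hh U
  rw [h2, ap_sum]
  have h5 : k ≤ h * J := by
    rcases h3 with h6 | h6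
    · rw [h6]; exact hU
    · exact h6
  rcases h4 with h6 | h6
  · subst h6
    have : k = 0 := by
      have : k ≤ 0 := by simpa using h5
      linarith
    subst this
    simp
  · have e : 2 * J * k - h * J * ((J : ℝ) - 1) - (k ^ 2 + k) / h =
        (h * J - k) * (k - h * ((J : ℝ) - 1)) / h + k * (h - 1) / h := by
      field_simp
      ring
    have a1 : 0 ≤ h * J - k := by linarith
    have a2 : 0 ≤ k - h * ((J : ℝ) - 1) := by linarith
    have a3 : 0 ≤ h - 1 := by linarith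
    have h7 : 0 ≤ (h * J - k) * (k - h * ((J : ℝ) - 1)) / h + k * (h - 1) / h := by positivity
    linarith

lemma one_up {A Ap D η j : ℝ} (hA : A ≤ Ap) (hη : 0 < η * j) :
    max 0 (A - j - D) ≤ max 0 (Ap - (1 - η) * j) + D ^ 2 / (4 * (η * j)) := by
  have h1 : -D - η * j ≤ D ^ 2 / (4 * (η * j)) := by
    rw [le_div_iff₀ (by linarith)]
    nlinarith [sq_nonneg (D + 2 * (η * j))]
  have h2 : 0 ≤ D ^ 2 / (4 * (η * j)) := by positivity
  apply max_le
  · have := le_max_left 0 (Ap - (1 - η) * j)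
    linarith
  · have := le_max_right 0 (Ap - (1 - η) * j)
    linarith

lemma one_low {A D η j : ℝ} (hη : 0 < η * j) (hj : 0 ≤ (1 + η) * j) :
    max 0 (max 0 A - (1 + η) * j) - D ^ 2 / (4 * (η * j)) ≤ max 0 (A - j - D) := by
  have h1 : -(D ^ 2 / (4 * (η * j))) ≤ η * j - D := by
    have : D - η * j ≤ D ^ 2 / (4 * (η * j)) := by
      rw [le_div_iff₀ (by linarith)]
      nlinarith [sq_nonneg (D - 2 * (η * j))]
    linarith
  have h2 : 0 ≤ D ^ 2 / (4 * (η * j)) := by positivity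
  rcases le_or_gt (max 0 A - (1 + η) * j) 0 with h | h
  · rw [max_eq_left h]
    have := le_max_left 0 (A - j - D)
    linarith
  · have hA : 0 < A := by
      by_contra hc
      rw [not_lt] at hc
      rw [max_eq_left hc] at h
      linarith
    rw [max_eq_right hA.le] at h ⊢
    rw [max_eq_right h.le]
    have := le_max_right 0 (A - j - D)
    linarith

/-- the error term -/
noncomputable def Err (η : ℝ) (U : ℕ) (D D' : ℕ → ℝ) : ℝ :=
  3 + 2 * D' 0 ^ 2 + ∑ j ∈ Ico 1 U, (D j ^ 2 + D' j ^ 2) / (2 * (η * j))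

lemma abs_le_one_sq (x : ℝ) : |x| ≤ 1 + x ^ 2 := by
  rw [← sq_abs]
  nlinarith [sq_nonneg (|x| - 1), abs_nonneg x]

lemma q_split (M r : ℤ) : ((M : ℝ) - r) * ((M : ℝ) - r - 1) =
    (max 0 ((r : ℝ) - M) ^ 2 + max 0 ((r : ℝ) - M)) +
    (max 0 ((M : ℝ) - r - 1) ^ 2 + max 0 ((M : ℝ) - r - 1)) := by
  rcases le_or_gt M r with h | h
  · have h1 : (M : ℝ) ≤ r := by exact_mod_cast h
    rw [max_eq_right (by linarith : (0 : ℝ) ≤ (r : ℝ) - M),
      max_eq_left (by linarith : (M : ℝ) - r - 1 ≤ 0)]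
    ring
  · have h1 : (r : ℝ) + 1 ≤ M := by exact_mod_cast h
    rw [max_eq_left (by linarith : (r : ℝ) - M ≤ 0),
      max_eq_right (by linarith : (0 : ℝ) ≤ (M : ℝ) - r - 1)]
    ring

lemma sum_head (f : ℕ → ℝ) {U : ℕ} (hU : 1 ≤ U) :
    ∑ j ∈ range U, f j = f 0 + ∑ j ∈ Ico 1 U, f j := by
  rw [range_eq_Ico, sum_eq_sum_Ico_succ_bot (by omega : 0 < U)]

/-- **upper bound, pointwise** -/
theorem G_up (M r : ℤ) {η : ℝ} (hη : 0 < η) (hη1 : η < 1) {U : ℕ} (hU : 1 ≤ U) {D D' : ℕ → ℝ}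
    (hD0 : D 0 = 0) :
    2 * ∑ j ∈ range U, max 0 ((r : ℝ) - M - j - D j) +
      2 * ∑ j ∈ range U, max 0 ((M : ℝ) - r - 1 - j - D' j) ≤
      ((M : ℝ) - r) * ((M : ℝ) - r - 1) / (1 - η) + Err η U D D' := by
  set k1 : ℝ := max 0 ((r : ℝ) - M) with hk1
  set k2 : ℝ := max 0 ((M : ℝ) - r - 1) with hk2
  have hk10 : 0 ≤ k1 := le_max_left _ _
  have hk20 : 0 ≤ k2 := le_max_left _ _
  have hA1 : (r : ℝ) - M ≤ k1 := le_max_right _ _
  have hA2 : (M : ℝ) - r - 1 ≤ k2 := le_max_right _ _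
  have t1 := trap_up hk10 (by linarith : 0 < 1 - η) (by linarith) U
  have t2 := trap_up hk20 (by linarith : 0 < 1 - η) (by linarith) U
  rw [sum_head _ hU] at t1 t2 ⊢
  rw [sum_head (fun j : ℕ => max 0 ((M : ℝ) - r - 1 - j - D' j)) hU]
  have s1 : ∑ j ∈ Ico 1 U, max 0 ((r : ℝ) - M - j - D j) ≤
      ∑ j ∈ Ico 1 U, (max 0 (k1 - (1 - η) * j) + D j ^ 2 / (4 * (η * j))) := by
    apply sum_le_sum
    intro j hj
    rw [mem_Ico] at hj
    have hj1 : (0 : ℝ) < j := by exact_mod_cast hj.1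
    exact one_up hA1 (by positivity)
  have s2 : ∑ j ∈ Ico 1 U, max 0 ((M : ℝ) - r - 1 - j - D' j) ≤
      ∑ j ∈ Ico 1 U, (max 0 (k2 - (1 - η) * j) + D' j ^ 2 / (4 * (η * j))) := by
    apply sum_le_sum
    intro j hj
    rw [mem_Ico] at hj
    have hj1 : (0 : ℝ) < j := by exact_mod_cast hj.1
    exact one_up hA2 (by positivity)
  rw [sum_add_distrib] at s1 s2
  have z1 : max 0 ((r : ℝ) - M - (0 : ℕ) - D 0) = max 0 (k1 - (1 - η) * (0 : ℕ)) := by
    rw [hD0]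
    simp only [Nat.cast_zero, sub_zero, mul_zero]
    rw [max_eq_right hk10]
  have z2 : max 0 ((M : ℝ) - r - 1 - (0 : ℕ) - D' 0) ≤
      max 0 (k2 - (1 - η) * (0 : ℕ)) + (1 + D' 0 ^ 2) := by
    simp only [Nat.cast_zero, sub_zero, mul_zero]
    rw [max_eq_right hk20]
    have h1 := abs_le_one_sq (D' 0)
    have h2 := neg_abs_le (D' 0)
    have h3 := abs_nonneg (D' 0)
    apply max_le
    · linarith
    · linarith
  have e1 : ∑ j ∈ Ico 1 U, (D j ^ 2 + D' j ^ 2) / (2 * (η * j)) =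
      2 * ∑ j ∈ Ico 1 U, D j ^ 2 / (4 * (η * j)) + 2 * ∑ j ∈ Ico 1 U, D' j ^ 2 / (4 * (η * j)) := by
    rw [mul_sum, mul_sum, ← sum_add_distrib]
    apply sum_congr rfl
    intro j hj
    rw [mem_Ico] at hj
    have hj1 : (0 : ℝ) < j := by exact_mod_cast hj.1
    field_simp
    ring
  have e2 : ((M : ℝ) - r) * ((M : ℝ) - r - 1) / (1 - η) =
      (k1 ^ 2 + k1) / (1 - η) + (k2 ^ 2 + k2) / (1 - η) := by
    rw [q_split, add_div]
  rw [e2]
  unfold Err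
  rw [e1, z1]
  generalize ∑ j ∈ Ico 1 U, D j ^ 2 / (4 * (η * j)) = E1 at *
  generalize ∑ j ∈ Ico 1 U, D' j ^ 2 / (4 * (η * j)) = E2 at *
  generalize ∑ j ∈ Ico 1 U, max 0 (k1 - (1 - η) * j) = S1 at *
  generalize ∑ j ∈ Ico 1 U, max 0 (k2 - (1 - η) * j) = S2 at *
  generalize ∑ j ∈ Ico 1 U, max 0 ((r : ℝ) - M - j - D j) = G1 at *
  generalize ∑ j ∈ Ico 1 U, max 0 ((M : ℝ) - r - 1 - j - D' j) = G2 at *
  generalize max 0 (k1 - (1 - η) * (0 : ℕ)) = m1 at *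
  generalize max 0 (k2 - (1 - η) * (0 : ℕ)) = m2 at *
  generalize max 0 ((M : ℝ) - r - 1 - (0 : ℕ) - D' 0) = m3 at *
  generalize (k1 ^ 2 + k1) / (1 - η) = Q1 at *
  generalize (k2 ^ 2 + k2) / (1 - η) = Q2 at *
  linarith

/-- **lower bound, pointwise** -/
theorem G_low (M r : ℤ) {η : ℝ} (hη : 0 < η) {U : ℕ} (hU : 1 ≤ U) {D D' : ℕ → ℝ}
    (hD0 : D 0 = 0) (h1 : (r : ℝ) - M ≤ U) (h2 : (M : ℝ) - r - 1 ≤ U) :
    ((M : ℝ) - r) * ((M : ℝ) - r - 1) / (1 + η) - Err η U D D' ≤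
    2 * ∑ j ∈ range U, max 0 ((r : ℝ) - M - j - D j) +
      2 * ∑ j ∈ range U, max 0 ((M : ℝ) - r - 1 - j - D' j) := by
  set k1 : ℝ := max 0 ((r : ℝ) - M) with hk1
  set k2 : ℝ := max 0 ((M : ℝ) - r - 1) with hk2
  have hU0 : (0 : ℝ) ≤ U := Nat.cast_nonneg U
  have hk10 : 0 ≤ k1 := le_max_left _ _
  have hk20 : 0 ≤ k2 := le_max_left _ _
  have hk1U : k1 ≤ (1 + η) * U := by
    have : k1 ≤ U := max_le hU0 h1
    nlinarith
  have hk2U : k2 ≤ (1 + η) * U := by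
    have : k2 ≤ U := max_le hU0 h2
    nlinarith
  have t1 := trap_low hk10 (by linarith : 1 ≤ 1 + η) hk1U
  have t2 := trap_low hk20 (by linarith : 1 ≤ 1 + η) hk2U
  rw [sum_head _ hU] at t1 t2 ⊢
  rw [sum_head (fun j : ℕ => max 0 ((M : ℝ) - r - 1 - j - D' j)) hU]
  have s1 : ∑ j ∈ Ico 1 U, (max 0 (k1 - (1 + η) * j) - D j ^ 2 / (4 * (η * j))) ≤
      ∑ j ∈ Ico 1 U, max 0 ((r : ℝ) - M - j - D j) := by
    apply sum_le_sum
    intro j hj
    rw [mem_Ico] at hj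
    have hj1 : (0 : ℝ) < j := by exact_mod_cast hj.1
    exact one_low (by positivity) (by positivity)
  have s2 : ∑ j ∈ Ico 1 U, (max 0 (k2 - (1 + η) * j) - D' j ^ 2 / (4 * (η * j))) ≤
      ∑ j ∈ Ico 1 U, max 0 ((M : ℝ) - r - 1 - j - D' j) := by
    apply sum_le_sum
    intro j hj
    rw [mem_Ico] at hj
    have hj1 : (0 : ℝ) < j := by exact_mod_cast hj.1
    exact one_low (by positivity) (by positivity)
  rw [sum_sub_distrib] at s1 s2
  have z1 : max 0 ((r : ℝ) - M - (0 : ℕ) - D 0) = max 0 (k1 - (1 + η) * (0 : ℕ)) := by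
    rw [hD0]
    simp only [Nat.cast_zero, sub_zero, mul_zero]
    rw [max_eq_right hk10]
  have z2 : max 0 (k2 - (1 + η) * (0 : ℕ)) - (1 + D' 0 ^ 2) ≤
      max 0 ((M : ℝ) - r - 1 - (0 : ℕ) - D' 0) := by
    simp only [Nat.cast_zero, sub_zero, mul_zero]
    rw [max_eq_right hk20]
    have h1 := abs_le_one_sq (D' 0)
    have h2 := le_abs_self (D' 0)
    have h3 := abs_nonneg (D' 0)
    have h4 := le_max_left 0 ((M : ℝ) - r - 1 - D' 0)
    have h5 := le_max_right 0 ((M : ℝ) - r - 1 - D' 0)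
    rw [hk2]
    rcases le_total ((M : ℝ) - r - 1) 0 with h6 | h6
    · rw [max_eq_left h6]
      linarith
    · rw [max_eq_right h6]
      linarith
  have e1 : ∑ j ∈ Ico 1 U, (D j ^ 2 + D' j ^ 2) / (2 * (η * j)) =
      2 * ∑ j ∈ Ico 1 U, D j ^ 2 / (4 * (η * j)) + 2 * ∑ j ∈ Ico 1 U, D' j ^ 2 / (4 * (η * j)) := by
    rw [mul_sum, mul_sum, ← sum_add_distrib]
    apply sum_congr rfl
    intro j hj
    rw [mem_Ico] at hj
    have hj1 : (0 : ℝ) < j := by exact_mod_cast hj.1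
    field_simp
    ring
  have e2 : ((M : ℝ) - r) * ((M : ℝ) - r - 1) / (1 + η) =
      (k1 ^ 2 + k1) / (1 + η) + (k2 ^ 2 + k2) / (1 + η) := by
    rw [q_split, add_div]
  rw [e2]
  unfold Err
  rw [e1, z1]
  generalize ∑ j ∈ Ico 1 U, D j ^ 2 / (4 * (η * j)) = E1 at *
  generalize ∑ j ∈ Ico 1 U, D' j ^ 2 / (4 * (η * j)) = E2 at *
  generalize ∑ j ∈ Ico 1 U, max 0 (k1 - (1 + η) * j) = S1 at *
  generalize ∑ j ∈ Ico 1 U, max 0 (k2 - (1 + η) * j) = S2 at *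
  generalize ∑ j ∈ Ico 1 U, max 0 ((r : ℝ) - M - j - D j) = G1 at *
  generalize ∑ j ∈ Ico 1 U, max 0 ((M : ℝ) - r - 1 - j - D' j) = G2 at *
  generalize max 0 (k1 - (1 + η) * (0 : ℕ)) = m1 at *
  generalize max 0 (k2 - (1 + η) * (0 : ℕ)) = m2 at *
  generalize max 0 ((M : ℝ) - r - 1 - (0 : ℕ) - D' 0) = m3 at *
  generalize (k1 ^ 2 + k1) / (1 + η) = Q1 at *
  generalize (k2 ^ 2 + k2) / (1 + η) = Q2 at *
  linarith

end Pool.Agent.H666.ZG
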