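import Pool.Graph.R_pool_sql_team_seeded_620a6dc7.H707.NV.Fin
import Pool.Agent.H666.ZG.Cov
import Pool.Agent.H666.ZG.TS

/-! Transfer between averages over windows and averages over zeros. -/

open Filter Topology Set MeasureTheory

namespace Pool.Agent.H666.ZG

open SG (ord NZ)
open Pool.Agent.TH873.EW (ct mom XV)
open Pool.Agent.Y747 (Bx mem_Bx Jx mem_Jx)
open Pool.Agent.H707.SM (chi chi_of_mem chi_of_not chi_int integral_chi chi_mul Bx_eq XV_large
  mc mc_nonneg mc_le const_small)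
open Pool.Agent.H707.NV (cn hl hl_small cn_meas cn_nonneg cn_log log_small cn_pow_ii)
open LG (dlt)

/-! ### Pointwise counting -/

lemma chi_plus {h t : ℝ} {n r : ℕ} (hn : 1 ≤ n) :
    chi (ord n) (ord (n + r) - h) t = if n ≤ NZ t ∧ NZ (t + h) < n + r then 1 else 0 := by
  have a1 : ord n ≤ t ↔ n ≤ NZ t := SG.ord_le_iff hn t
  have a2 : ord (n + r) ≤ t + h ↔ n + r ≤ NZ (t + h) := SG.ord_le_iff (by omega) (t + h)
  split_ifs with hc
  · apply chi_of_mem (a1.2 hc.1)
    by_contra h3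
    have := a2.1 (by linarith)
    omega
  · apply chi_of_not
    rintro ⟨h3, h4⟩
    apply hc
    refine ⟨a1.1 h3, ?_⟩
    by_contra h5
    rw [not_lt] at h5
    have := a2.2 h5
    linarith

lemma chi_minus {h t : ℝ} {n r : ℕ} (hn : 1 ≤ n) :
    chi (ord (n + r) - h) (ord n) t = if NZ t < n ∧ n + r ≤ NZ (t + h) then 1 else 0 := by
  have a1 : ord n ≤ t ↔ n ≤ NZ t := SG.ord_le_iff hn t
  have a2 : ord (n + r) ≤ t + h ↔ n + r ≤ NZ (t + h) := SG.ord_le_iff (by omega) (t + h)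
  split_ifs with hc
  · apply chi_of_mem
    · have := a2.2 hc.2
      linarith
    · by_contra h3
      rw [not_lt] at h3
      have := a1.1 h3
      omega
  · apply chi_of_not
    rintro ⟨h3, h4⟩
    apply hc
    constructor
    · by_contra h5
      rw [not_lt] at h5
      have := a1.2 h5
      linarith
    · exact a2.1 (by linarith)

lemma plus_le {h t : ℝ} (hh : 0 ≤ h) {r : ℕ} {A : Finset ℕ} (hA : ∀ n ∈ A, 1 ≤ n) :
    ∑ n ∈ A, chi (ord n) (ord (n + r) - h) t ≤ max 0 ((r : ℝ) - cn h t) := by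
  rw [Finset.sum_congr rfl fun n hn => chi_plus (h := h) (t := t) (r := r) (hA n hn)]
  have e : ∑ n ∈ A, (if n ≤ NZ t ∧ NZ (t + h) < n + r then (1 : ℝ) else 0) =
      ((A.filter (fun n => n ≤ NZ t ∧ NZ (t + h) < n + r)).card : ℝ) := by
    rw [Finset.card_filter]
    push_cast
    rfl
  rw [e]
  have hsub : A.filter (fun n => n ≤ NZ t ∧ NZ (t + h) < n + r) ⊆
      Finset.Ioc (NZ (t + h) - r) (NZ t) := by
    intro n hn
    rw [Finset.mem_filter] at hn
    rw [Finset.mem_Ioc]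
    have := hA n hn.1
    omega
  have h1 := Finset.card_le_card hsub
  rw [Nat.card_Ioc] at h1
  have hm : NZ t ≤ NZ (t + h) := SG.NZ_mono (by linarith)
  unfold Pool.Agent.H707.NV.cn
  have h2 : (A.filter (fun n => n ≤ NZ t ∧ NZ (t + h) < n + r)).card ≤ NZ t + r - NZ (t + h) := by
    omega
  rcases le_or_gt (NZ (t + h)) (NZ t + r) with h3 | h3
  · have h4 : ((NZ t + r - NZ (t + h) : ℕ) : ℝ) = (NZ t : ℝ) + r - NZ (t + h) := by
      rw [Nat.cast_sub h3]
      push_cast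
      ring
    have h5 : ((A.filter (fun n => n ≤ NZ t ∧ NZ (t + h) < n + r)).card : ℝ) ≤
        ((NZ t + r - NZ (t + h) : ℕ) : ℝ) := by exact_mod_cast h2
    have := le_max_right 0 ((r : ℝ) - ((NZ (t + h) : ℝ) - NZ t))
    linarith
  · have h6 : (A.filter (fun n => n ≤ NZ t ∧ NZ (t + h) < n + r)).card = 0 := by omega
    rw [h6, Nat.cast_zero]
    exact le_max_left _ _

lemma plus_ge {h t : ℝ} {r : ℕ} {A : Finset ℕ} (hA : ∀ n ∈ A, 1 ≤ n)
    (hsup : ∀ n, n ≤ NZ t → NZ (t + h) < n + r → n ∈ A) (hr : r ≤ NZ (t + h)) :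
    max 0 ((r : ℝ) - cn h t) ≤ ∑ n ∈ A, chi (ord n) (ord (n + r) - h) t := by
  rw [Finset.sum_congr rfl fun n hn => chi_plus (h := h) (t := t) (r := r) (hA n hn)]
  have e : ∑ n ∈ A, (if n ≤ NZ t ∧ NZ (t + h) < n + r then (1 : ℝ) else 0) =
      ((A.filter (fun n => n ≤ NZ t ∧ NZ (t + h) < n + r)).card : ℝ) := by
    rw [Finset.card_filter]
    push_cast
    rfl
  rw [e]
  have hsub : Finset.Ioc (NZ (t + h) - r) (NZ t) ⊆
      A.filter (fun n => n ≤ NZ t ∧ NZ (t + h) < n + r) := by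
    intro n hn
    rw [Finset.mem_Ioc] at hn
    rw [Finset.mem_filter]
    exact ⟨hsup n hn.2 (by omega), hn.2, by omega⟩
  have h1 := Finset.card_le_card hsub
  rw [Nat.card_Ioc] at h1
  apply max_le (Nat.cast_nonneg _)
  unfold Pool.Agent.H707.NV.cn
  have h2 : (NZ t + r : ℕ) ≤ NZ (t + h) +
      (A.filter (fun n => n ≤ NZ t ∧ NZ (t + h) < n + r)).card := by omega
  have h3 : ((NZ t + r : ℕ) : ℝ) ≤ ((NZ (t + h) +
      (A.filter (fun n => n ≤ NZ t ∧ NZ (t + h) < n + r)).card : ℕ) : ℝ) := by exact_mod_cast h2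
  push_cast at h3
  linarith

lemma minus_le {h t : ℝ} {r : ℕ} {A : Finset ℕ} (hA : ∀ n ∈ A, 1 ≤ n) :
    ∑ n ∈ A, chi (ord (n + r) - h) (ord n) t ≤ max 0 (cn h t - r) := by
  rw [Finset.sum_congr rfl fun n hn => chi_minus (h := h) (t := t) (r := r) (hA n hn)]
  have e : ∑ n ∈ A, (if NZ t < n ∧ n + r ≤ NZ (t + h) then (1 : ℝ) else 0) =
      ((A.filter (fun n => NZ t < n ∧ n + r ≤ NZ (t + h))).card : ℝ) := by
    rw [Finset.card_filter]
    push_cast
    rfl
  rw [e]
  have hsub : A.filter (fun n => NZ t < n ∧ n + r ≤ NZ (t + h)) ⊆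
      Finset.Ioc (NZ t) (NZ (t + h) - r) := by
    intro n hn
    rw [Finset.mem_filter] at hn
    rw [Finset.mem_Ioc]
    omega
  have h1 := Finset.card_le_card hsub
  rw [Nat.card_Ioc] at h1
  unfold Pool.Agent.H707.NV.cn
  rcases le_or_gt (NZ t + r) (NZ (t + h)) with h3 | h3
  · have h4 : ((NZ (t + h) - r - NZ t : ℕ) : ℝ) = (NZ (t + h) : ℝ) - r - NZ t := by
      rw [Nat.cast_sub (by omega), Nat.cast_sub (by omega)]
    have h5 : ((A.filter (fun n => NZ t < n ∧ n + r ≤ NZ (t + h))).card : ℝ) ≤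
        ((NZ (t + h) - r - NZ t : ℕ) : ℝ) := by exact_mod_cast h1
    have := le_max_right 0 (((NZ (t + h) : ℝ) - NZ t) - r)
    linarith
  · have h6 : (A.filter (fun n => NZ t < n ∧ n + r ≤ NZ (t + h))).card = 0 := by omega
    rw [h6, Nat.cast_zero]
    exact le_max_left _ _

lemma minus_ge {h t : ℝ} {r : ℕ} {A : Finset ℕ} (hA : ∀ n ∈ A, 1 ≤ n)
    (hsup : ∀ n, NZ t < n → n + r ≤ NZ (t + h) → n ∈ A) :
    max 0 (cn h t - r) ≤ ∑ n ∈ A, chi (ord (n + r) - h) (ord n) t := by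
  rw [Finset.sum_congr rfl fun n hn => chi_minus (h := h) (t := t) (r := r) (hA n hn)]
  have e : ∑ n ∈ A, (if NZ t < n ∧ n + r ≤ NZ (t + h) then (1 : ℝ) else 0) =
      ((A.filter (fun n => NZ t < n ∧ n + r ≤ NZ (t + h))).card : ℝ) := by
    rw [Finset.card_filter]
    push_cast
    rfl
  rw [e]
  have hsub : Finset.Ioc (NZ t) (NZ (t + h) - r) ⊆
      A.filter (fun n => NZ t < n ∧ n + r ≤ NZ (t + h)) := by
    intro n hn
    rw [Finset.mem_Ioc] at hn
    rw [Finset.mem_filter]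
    exact ⟨hsup n hn.1 (by omega), hn.1, by omega⟩
  have h1 := Finset.card_le_card hsub
  rw [Nat.card_Ioc] at h1
  apply max_le (Nat.cast_nonneg _)
  unfold Pool.Agent.H707.NV.cn
  have h2 : NZ (t + h) ≤ NZ t + r +
      (A.filter (fun n => NZ t < n ∧ n + r ≤ NZ (t + h))).card := by omega
  have h3 : (NZ (t + h) : ℝ) ≤ ((NZ t + r +
      (A.filter (fun n => NZ t < n ∧ n + r ≤ NZ (t + h))).card : ℕ) : ℝ) := by exact_mod_cast h2
  push_cast at h3
  linarith

/-! ### Integrated versions -/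

lemma sum_chi_int (A : Finset ℕ) (c d : ℕ → ℝ) :
    ∫ t, ∑ n ∈ A, chi (c n) (d n) t = ∑ n ∈ A, max 0 (d n - c n) := by
  rw [integral_finsetSum _ fun n _ => chi_int _ _]
  exact Finset.sum_congr rfl fun n _ => integral_chi _ _

lemma chi_nonneg (c d t : ℝ) : 0 ≤ chi c d t := by
  unfold Pool.Agent.H707.SM.chi
  exact indicator_nonneg (fun _ _ => zero_le_one) _

lemma sum_len_le {A : Finset ℕ} {c d : ℕ → ℝ} {V1 V2 : ℝ} (hV : V1 ≤ V2) {f : ℝ → ℝ}
    (hf : IntervalIntegrable f volume V1 V2)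
    (hsub : ∀ n ∈ A, ∀ t, c n ≤ t → t < d n → V1 < t ∧ t ≤ V2)
    (hle : ∀ t ∈ Icc V1 V2, ∑ n ∈ A, chi (c n) (d n) t ≤ f t) :
    ∑ n ∈ A, max 0 (d n - c n) ≤ ∫ t in V1..V2, f t := by
  rw [← sum_chi_int]
  have hi : Integrable fun t => ∑ n ∈ A, chi (c n) (d n) t :=
    integrable_finsetSum _ fun n _ => chi_int _ _
  have h1 : ∫ t, ∑ n ∈ A, chi (c n) (d n) t = ∫ t in V1..V2, ∑ n ∈ A, chi (c n) (d n) t := by
    rw [intervalIntegral.integral_of_le hV]
    symm
    apply setIntegral_eq_integral_of_forall_compl_eq_zero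
    intro t ht
    apply Finset.sum_eq_zero
    intro n hn
    apply chi_of_not
    rintro ⟨h3, h4⟩
    apply ht
    rw [mem_Ioc]
    exact hsub n hn t h3 h4
  rw [h1]
  exact intervalIntegral.integral_mono_on hV hi.intervalIntegrable hf hle

lemma sum_len_ge {A : Finset ℕ} {c d : ℕ → ℝ} {V1 V2 : ℝ} (hV : V1 ≤ V2) {f : ℝ → ℝ}
    (hf : IntervalIntegrable f volume V1 V2)
    (hle : ∀ t ∈ Icc V1 V2, f t ≤ ∑ n ∈ A, chi (c n) (d n) t) :
    ∫ t in V1..V2, f t ≤ ∑ n ∈ A, max 0 (d n - c n) := by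
  rw [← sum_chi_int]
  have hi : Integrable fun t => ∑ n ∈ A, chi (c n) (d n) t :=
    integrable_finsetSum _ fun n _ => chi_int _ _
  have h1 := intervalIntegral.integral_mono_on hV hf hi.intervalIntegrable hle
  refine h1.trans ?_
  rw [intervalIntegral.integral_of_le hV]
  exact setIntegral_le_integral hi (Filter.Eventually.of_forall fun t =>
    Finset.sum_nonneg fun n _ => chi_nonneg _ _ _)

/-! ### The functions of `t` -/

/-- `(r - cn)₊` -/
noncomputable def fp (r : ℕ) (x V t : ℝ) : ℝ := max 0 ((r : ℝ) - cn (hl x V) t)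
/-- `(cn - r)₊` -/
noncomputable def fm (r : ℕ) (x V t : ℝ) : ℝ := max 0 (cn (hl x V) t - r)

lemma fp_nonneg (r : ℕ) (x V t : ℝ) : 0 ≤ fp r x V t := le_max_left _ _
lemma fm_nonneg (r : ℕ) (x V t : ℝ) : 0 ≤ fm r x V t := le_max_left _ _

lemma fp_meas (r : ℕ) (x V : ℝ) : Measurable (fp r x V) := by
  unfold fp
  exact measurable_const.max (measurable_const.sub (cn_meas _))

lemma fm_meas (r : ℕ) (x V : ℝ) : Measurable (fm r x V) := by
  unfold fm
  exact measurable_const.max ((cn_meas _).sub measurable_const)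

lemma ii_of_bdd {f : ℝ → ℝ} (hf : Measurable f) {a b M : ℝ} (hab : a ≤ b)
    (hM : ∀ t ∈ Icc a b, |f t| ≤ M) : IntervalIntegrable f volume a b := by
  rw [intervalIntegrable_iff_integrableOn_Icc_of_le hab]
  apply Measure.integrableOn_of_bounded (M := M)
  · rw [Real.volume_Icc]; exact ENNReal.ofReal_ne_top
  · exact hf.aestronglyMeasurable
  · rw [ae_restrict_iff' measurableSet_Icc]
    exact Filter.Eventually.of_forall fun t ht => hM t ht

lemma fp_le {r : ℕ} {x V : ℝ} (hh : 0 ≤ hl x V) (t : ℝ) : fp r x V t ≤ r := by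
  unfold fp
  have := cn_nonneg hh t
  exact max_le (Nat.cast_nonneg r) (by linarith)

lemma fp_ii {r : ℕ} {x V : ℝ} (hh : 0 ≤ hl x V) {a b : ℝ} (hab : a ≤ b) :
    IntervalIntegrable (fp r x V) volume a b := by
  apply ii_of_bdd (fp_meas r x V) hab (M := r)
  intro t _
  rw [abs_of_nonneg (fp_nonneg _ _ _ _)]
  exact fp_le hh t

lemma fm_le {r : ℕ} {x V : ℝ} (hh : 0 ≤ hl x V) (t : ℝ) : fm r x V t ≤ cn (hl x V) t := by
  unfold fm
  have h1 := cn_nonneg hh t
  have h2 : (0 : ℝ) ≤ r := Nat.cast_nonneg r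
  exact max_le h1 (by linarith)

lemma fm_ii {r : ℕ} {x V : ℝ} (hh : 0 ≤ hl x V) {a b : ℝ} (hab : a ≤ b) :
    IntervalIntegrable (fm r x V) volume a b := by
  apply ii_of_bdd (fm_meas r x V) hab (M := NZ (b + hl x V))
  intro t ht
  rw [abs_of_nonneg (fm_nonneg _ _ _ _)]
  exact (fm_le hh t).trans (Pool.Agent.H707.NV.cn_bdd ht)

/-- the normalised sum of `r` gaps with the scale of `V` -/
noncomputable def Sv (V : ℝ) (r n : ℕ) : ℝ := Real.log V / (2 * Real.pi) * (ord (n + r) - ord n)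

lemma L_hl {x V : ℝ} (hV : 1 < V) : Real.log V / (2 * Real.pi) * hl x V = x := by
  unfold Pool.Agent.H707.NV.hl
  have h3 : Real.log V ≠ 0 := (Real.log_pos hV).ne'
  have := Real.pi_ne_zero
  field_simp

/-- upper bound, plus -/
lemma up_plus {V x : ℝ} {r : ℕ} (hV : 10 ≤ V) (hh : 0 ≤ hl x V) :
    ∑ n ∈ (Bx V).filter (fun n => n + r ∈ Bx V), max 0 (Sv V r n - x) ≤
      Real.log V / (2 * Real.pi) * ∫ t in V..(2 * V), fp r x V t := by
  have hL : 0 ≤ Real.log V / (2 * Real.pi) := by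
    have : 0 ≤ Real.log V := Real.log_nonneg (by linarith)
    positivity
  have e : ∀ n ∈ (Bx V).filter (fun n => n + r ∈ Bx V), max 0 (Sv V r n - x) =
      Real.log V / (2 * Real.pi) * max 0 ((ord (n + r) - hl x V) - ord n) := by
    intro n _
    rw [mul_max_of_nonneg _ _ hL, mul_zero]
    congr 1
    unfold Sv
    have := L_hl (x := x) (V := V) (by linarith)
    linear_combination this
  rw [Finset.sum_congr rfl e, ← Finset.mul_sum]
  apply mul_le_mul_of_nonneg_left _ hL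
  apply sum_len_le (by linarith) (fp_ii hh (by linarith))
  · intro n hn t h1 h2
    rw [Finset.mem_filter, mem_Bx, mem_Bx] at hn
    exact ⟨by linarith [hn.1.2.1], by linarith [hn.2.2.2]⟩
  · intro t _
    apply plus_le hh
    intro n hn
    rw [Finset.mem_filter, mem_Bx] at hn
    exact hn.1.1

/-- upper bound, minus -/
lemma up_minus {V x : ℝ} {r : ℕ} (hV : 10 ≤ V) (hh : 0 ≤ hl x V) (hh1 : hl x V ≤ 1) :
    ∑ n ∈ (Bx V).filter (fun n => n + r ∈ Bx V), max 0 (x - Sv V r n) ≤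
      Real.log V / (2 * Real.pi) * ∫ t in V..(2 * V), fm r x V t := by
  have hL : 0 ≤ Real.log V / (2 * Real.pi) := by
    have : 0 ≤ Real.log V := Real.log_nonneg (by linarith)
    positivity
  have e : ∀ n ∈ (Bx V).filter (fun n => n + r ∈ Bx V), max 0 (x - Sv V r n) =
      Real.log V / (2 * Real.pi) * max 0 (ord n - (ord (n + r) - hl x V)) := by
    intro n _
    rw [mul_max_of_nonneg _ _ hL, mul_zero]
    congr 1
    unfold Sv
    have := L_hl (x := x) (V := V) (by linarith)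
    linear_combination -this
  rw [Finset.sum_congr rfl e, ← Finset.mul_sum]
  apply mul_le_mul_of_nonneg_left _ hL
  apply sum_len_le (by linarith) (fm_ii hh (by linarith))
  · intro n hn t h1 h2
    rw [Finset.mem_filter, mem_Bx, mem_Bx] at hn
    exact ⟨by linarith [hn.2.2.1], by linarith [hn.1.2.2]⟩
  · intro t _
    apply minus_le
    intro n hn
    rw [Finset.mem_filter, mem_Bx] at hn
    exact hn.1.1

/-- `NZ` grows by `r` on `[V, (1 + ε) V]` -/
lemma NZ_add (hRH : RiemannHypothesis) (r : ℕ) {ε : ℝ} (hε : 0 < ε) :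
    ∀ᶠ V : ℝ in atTop, NZ V + r ≤ NZ ((1 + ε) * V) := by
  set e := ε / (2 * (2 + ε)) with he
  have he0 : 0 < e := by positivity
  have he1 : e * (2 + ε) = ε / 2 := by rw [he]; field_simp
  have he2 : e ≤ 1 / 2 := by
    rw [he, div_le_iff₀ (by positivity)]
    linarith
  obtain ⟨T1, hT1, h1⟩ := Pool.Agent.Y747.NZ_upper hRH e he0
  obtain ⟨T2, h2⟩ := W200.HW.NZ_lower e he0
  have hlim : Tendsto (fun V : ℝ => V * Real.log V) atTop atTop :=
    tendsto_id.atTop_mul_atTop₀ Real.tendsto_log_atTop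
  filter_upwards [eventually_ge_atTop T1, eventually_ge_atTop T2,
    hlim.eventually_ge_atTop (r * (2 * Real.pi) * 2 / ε)] with T a1 a2 a3
  have hpi := Real.pi_pos
  have hT0 : 0 < T := by linarith
  have hTT : T ≤ (1 + ε) * T := by nlinarith
  have b1 := h1 T a1
  have b2 := h2 ((1 + ε) * T) (a2.trans hTT)
  have hl : 0 < Real.log T := Real.log_pos (by linarith)
  have hl2 : Real.log T ≤ Real.log ((1 + ε) * T) := Real.log_le_log hT0 hTT
  set X := T * Real.log T / (2 * Real.pi) with hX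
  have hX0 : 0 < X := by positivity
  have b3 : (1 - e) * ((1 + ε) * X) ≤ (1 - e) * ((1 + ε) * T / (2 * Real.pi) *
      Real.log ((1 + ε) * T)) := by
    apply mul_le_mul_of_nonneg_left _ (by linarith)
    have : (1 + ε) * X = (1 + ε) * T / (2 * Real.pi) * Real.log T := by rw [hX]; ring
    rw [this]
    gcongr
  have b4 : (r : ℝ) ≤ ε / 2 * X := by
    rw [div_le_iff₀ hε] at a3
    rw [hX, ← mul_div_assoc, le_div_iff₀ (by positivity)]
    nlinarith
  have b5 : (1 + e) * X + ε / 2 * X = (1 - e) * ((1 + ε) * X) := by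
    have : (1 - e) * ((1 + ε) * X) = (1 + e) * X + (ε - e * (2 + ε)) * X := by ring
    rw [this, he1]
    ring
  have b6 : ((NZ T + r : ℕ) : ℝ) ≤ NZ ((1 + ε) * T) := by
    push_cast
    linarith
  exact_mod_cast b6

/-- lower bound, plus -/
lemma low_plus (hRH : RiemannHypothesis) {x : ℝ} (hx : 0 < x) (r : ℕ) {ε : ℝ} (hε : 0 < ε) :
    ∀ᶠ V : ℝ in atTop, (∫ t in V..(2 * V), fp r x V t) - ε * V ≤
      ∑ n ∈ Jx V, max 0 ((ord (n + r) - ord n) - hl x V) := by
  set e := min 1 (ε / (r + 1)) with he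
  have he0 : 0 < e := by positivity
  have he1 : e ≤ 1 := min_le_left _ _
  have he2 : e * r ≤ ε := by
    have h1 : e ≤ ε / (r + 1) := min_le_right _ _
    rw [le_div_iff₀ (by positivity)] at h1
    nlinarith
  filter_upwards [NZ_add hRH r he0, hl_small x hx, eventually_gt_atTop 1] with V h1 h2 h3
  have hV0 : 0 < V := by linarith
  have hVV : V ≤ (1 + e) * V := by nlinarith
  have hV2 : (1 + e) * V ≤ 2 * V := by nlinarith
  have i1 := fp_ii (r := r) h2.1 hVV
  have i2 := fp_ii (r := r) h2.1 hV2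
  rw [← intervalIntegral.integral_add_adjacent_intervals i1 i2]
  have b1 : ∫ t in V..((1 + e) * V), fp r x V t ≤ ε * V := by
    have : ∫ t in V..((1 + e) * V), fp r x V t ≤ ∫ t in V..((1 + e) * V), (r : ℝ) :=
      intervalIntegral.integral_mono_on hVV i1 intervalIntegrable_const fun t _ => fp_le h2.1 t
    rw [intervalIntegral.integral_const, smul_eq_mul] at this
    have h4 : ((1 + e) * V - V) * r = (e * r) * V := by ring
    rw [h4] at this
    exact this.trans (mul_le_mul_of_nonneg_right he2 hV0.le)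
  have b2 : ∫ t in ((1 + e) * V)..(2 * V), fp r x V t ≤
      ∑ n ∈ Jx V, max 0 ((ord (n + r) - hl x V) - ord n) := by
    apply sum_len_ge hV2 i2
    intro t ht
    have h5 : NZ ((1 + e) * V) ≤ NZ t := SG.NZ_mono ht.1
    have h6 : NZ t ≤ NZ (t + hl x V) := SG.NZ_mono (by linarith [h2.1])
    have h7 : NZ t ≤ NZ (2 * V) := SG.NZ_mono ht.2
    apply plus_ge
    · intro n hn
      exact (mem_Jx.1 hn).1
    · intro n hn1 hn2
      rw [mem_Jx]
      have hn : 1 ≤ n := by omega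
      refine ⟨hn, ?_, (SG.ord_le_iff hn _).2 (by omega)⟩
      by_contra hc
      rw [not_lt] at hc
      have := (SG.ord_le_iff hn _).1 hc
      omega
    · omega
  have e1 : ∑ n ∈ Jx V, max 0 ((ord (n + r) - hl x V) - ord n) =
      ∑ n ∈ Jx V, max 0 ((ord (n + r) - ord n) - hl x V) := by
    apply Finset.sum_congr rfl
    intro n _
    congr 1
    ring
  rw [e1] at b2
  linarith

/-- lower bound, minus -/
lemma low_minus {x : ℝ} (hx : 0 < x) (r : ℕ) {ε : ℝ} (hε : 0 < ε) :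
    ∀ᶠ V : ℝ in atTop, (∫ t in V..(2 * V), fm r x V t) - ε * V ≤
      ∑ n ∈ Jx V, max 0 (hl x V - (ord (n + r) - ord n)) := by
  obtain ⟨C, hC, hloc⟩ := cn_log
  filter_upwards [log_small C hε 1, hl_small x hx, eventually_gt_atTop 3] with V h1 h2 h3
  have hV0 : 0 < V := by linarith
  have i1 := fm_ii (r := r) h2.1 (show V ≤ 2 * V - 1 by linarith)
  have i2 := fm_ii (r := r) h2.1 (show 2 * V - 1 ≤ 2 * V by linarith)
  rw [← intervalIntegral.integral_add_adjacent_intervals i1 i2]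
  have b1 : ∫ t in (2 * V - 1)..(2 * V), fm r x V t ≤ ε * V := by
    have : ∫ t in (2 * V - 1)..(2 * V), fm r x V t ≤
        ∫ t in (2 * V - 1)..(2 * V), C * Real.log (2 * V) :=
      intervalIntegral.integral_mono_on (by linarith) i2 intervalIntegrable_const fun t ht =>
        (fm_le h2.1 t).trans (hloc V (by linarith) _ h2.2 t ⟨by linarith [ht.1], ht.2⟩)
    rw [intervalIntegral.integral_const, smul_eq_mul] at this
    have h4 : 0 ≤ C * Real.log (2 * V) := by
      have : 0 ≤ Real.log (2 * V) := Real.log_nonneg (by linarith)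
      positivity
    rw [pow_one] at h1
    linarith
  have b2 : ∫ t in V..(2 * V - 1), fm r x V t ≤
      ∑ n ∈ Jx V, max 0 (ord n - (ord (n + r) - hl x V)) := by
    apply sum_len_ge (by linarith) i1
    intro t ht
    have h5 : NZ V ≤ NZ t := SG.NZ_mono ht.1
    have h7 : NZ (t + hl x V) ≤ NZ (2 * V) := SG.NZ_mono (by linarith [ht.2, h2.2])
    apply minus_ge
    · intro n hn
      exact (mem_Jx.1 hn).1
    · intro n hn1 hn2
      rw [mem_Jx]
      have hn : 1 ≤ n := by omega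
      refine ⟨hn, ?_, (SG.ord_le_iff hn _).2 (by omega)⟩
      by_contra hc
      rw [not_lt] at hc
      have := (SG.ord_le_iff hn _).1 hc
      omega
  have e1 : ∑ n ∈ Jx V, max 0 (ord n - (ord (n + r) - hl x V)) =
      ∑ n ∈ Jx V, max 0 (hl x V - (ord (n + r) - ord n)) := by
    apply Finset.sum_congr rfl
    intro n _
    congr 1
    ring
  rw [e1] at b2
  linarith

end Pool.Agent.H666.ZG
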