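import Pool.Agent.H666.ZG.TR

/-! Transfer between averages over windows and averages over zeros: all indices. -/

open Filter Topology Set MeasureTheory

namespace Pool.Agent.H666.ZG

open SG (ord NZ)
open Pool.Agent.TH873.EW (ct mom XV)
open Pool.Agent.Y747 (Bx mem_Bx Jx mem_Jx)
open Pool.Agent.H707.SM (chi chi_of_mem chi_of_not chi_int integral_chi chi_mul Bx_eq XV_large
  mc mc_nonneg mc_le const_small)
open Pool.Agent.H707.NV (cn hl hl_small cn_meas cn_nonneg cn_log log_small cn_pow_ii)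
open LG (dlt)

/-! ### One gap -/

lemma dlt_up (η : ℝ) (hη : 0 < η) : ∃ V1 : ℝ, 10 ≤ V1 ∧ ∀ V : ℝ, V1 ≤ V → ∀ n : ℕ, 1 ≤ n →
    V ≤ ord n → ord (n + 1) ≤ 3 * V →
      dlt n ≤ (1 + η) * (Real.log V / (2 * Real.pi) * (ord (n + 1) - ord n)) := by
  obtain ⟨V1, hV1⟩ := (Real.tendsto_log_atTop.eventually_ge_atTop (3 / η)).exists_forall_of_atTop
  refine ⟨max 10 V1, le_max_left _ _, fun V hV n hn hn1 hn2 => ?_⟩
  have hV10 : 10 ≤ V := (le_max_left _ _).trans hV
  have hL := hV1 V ((le_max_right _ _).trans hV)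
  rw [div_le_iff₀ hη] at hL
  have hpi := Real.pi_pos
  obtain ⟨a, ha⟩ : ∃ a, a = ord n := ⟨_, rfl⟩
  obtain ⟨b, hb⟩ : ∃ b, b = ord (n + 1) := ⟨_, rfl⟩
  have hab : a ≤ b := by rw [ha, hb]; exact SG.ord_mono hn (by omega)
  have ha0 : 0 < a := by rw [ha]; linarith
  have hb0 : 0 < b := lt_of_lt_of_le ha0 hab
  have hbV : b ≤ 3 * V := by rw [hb]; exact hn2
  unfold LG.dlt
  rw [← ha, ← hb]
  have h1 : a * (Real.log b - Real.log a) ≤ b - a := by
    have h2 := Real.log_le_sub_one_of_pos (div_pos hb0 ha0)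
    rw [Real.log_div hb0.ne' ha0.ne'] at h2
    have h3 : a * (Real.log b - Real.log a) ≤ a * (b / a - 1) := mul_le_mul_of_nonneg_left h2 ha0.le
    have h4 : a * (b / a - 1) = b - a := by field_simp
    linarith
  have h5 : Real.log b ≤ Real.log 3 + Real.log V := by
    rw [← Real.log_mul (by norm_num) (by linarith)]
    exact Real.log_le_log hb0 hbV
  have h6 : Real.log 3 ≤ 2 := by
    have := Real.log_le_sub_one_of_pos (show (0 : ℝ) < 3 by norm_num)
    linarith
  have h7 : b * Real.log b - a * Real.log a ≤ (b - a) * ((1 + η) * Real.log V) := by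
    have h8 : b * Real.log b - a * Real.log a = (b - a) * Real.log b + a * (Real.log b - Real.log a) := by
      ring
    have h9 : (b - a) * Real.log b ≤ (b - a) * ((1 + η) * Real.log V - 1) := by
      apply mul_le_mul_of_nonneg_left _ (by linarith)
      have : (1 + η) * Real.log V = Real.log V + Real.log V * η := by ring
      linarith
    have h10 : (b - a) * ((1 + η) * Real.log V - 1) = (b - a) * ((1 + η) * Real.log V) - (b - a) := by
      ring
    linarith
  rw [div_le_iff₀ (by positivity)]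
  refine h7.trans (le_of_eq ?_)
  field_simp

lemma dlt_low {V : ℝ} (hV : 10 ≤ V) {n : ℕ} (hn : 1 ≤ n) (hn1 : V ≤ ord n) :
    Real.log V / (2 * Real.pi) * (ord (n + 1) - ord n) ≤ dlt n := by
  have hpi := Real.pi_pos
  obtain ⟨a, ha⟩ : ∃ a, a = ord n := ⟨_, rfl⟩
  obtain ⟨b, hb⟩ : ∃ b, b = ord (n + 1) := ⟨_, rfl⟩
  have hab : a ≤ b := by rw [ha, hb]; exact SG.ord_mono hn (by omega)
  have haV : V ≤ a := by rw [ha]; exact hn1
  have ha0 : 0 < a := by linarith
  unfold LG.dlt
  rw [← ha, ← hb, div_mul_eq_mul_div]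
  apply div_le_div_of_nonneg_right _ (by positivity)
  have h1 : Real.log V ≤ Real.log a := Real.log_le_log (by linarith) haV
  have h2 : Real.log a ≤ Real.log b := Real.log_le_log ha0 hab
  have h3 : b * Real.log a ≤ b * Real.log b := mul_le_mul_of_nonneg_left h2 (by linarith)
  have h4 : Real.log V * (b - a) ≤ Real.log a * (b - a) :=
    mul_le_mul_of_nonneg_right h1 (by linarith)
  have h5 : Real.log a * (b - a) = b * Real.log a - a * Real.log a := by ring
  linarith

lemma Sv_low {V : ℝ} (hV : 10 ≤ V) {r n : ℕ} (hn : 1 ≤ n) (h1 : V ≤ ord n) :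
    Sv V r n ≤ Sr r n := by
  have h3 : ∀ i ∈ Finset.range r, Real.log V / (2 * Real.pi) * (ord (n + (i + 1)) - ord (n + i)) ≤
      dlt (n + i) := by
    intro i _
    have h5 : ord n ≤ ord (n + i) := SG.ord_mono hn (by omega)
    exact dlt_low hV (n := n + i) (by omega) (h1.trans h5)
  refine le_trans (le_of_eq ?_) (Finset.sum_le_sum h3)
  unfold Sv
  rw [← Finset.mul_sum, Finset.sum_range_sub (fun i => ord (n + i))]
  simp

lemma Sv_up (r : ℕ) (η : ℝ) (hη : 0 < η) : ∃ V1 : ℝ, 10 ≤ V1 ∧ ∀ V : ℝ, V1 ≤ V → ∀ n : ℕ, 1 ≤ n →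
    V ≤ ord n → ord (n + r) ≤ 3 * V → Sr r n ≤ (1 + η) * Sv V r n := by
  obtain ⟨V1, hV10, hV1⟩ := dlt_up η hη
  refine ⟨V1, hV10, fun V hV n hn h1 h2 => ?_⟩
  have h3 : ∀ i ∈ Finset.range r, dlt (n + i) ≤
      (1 + η) * (Real.log V / (2 * Real.pi) * (ord (n + (i + 1)) - ord (n + i))) := by
    intro i hi
    rw [Finset.mem_range] at hi
    have h4 : ord (n + i + 1) ≤ ord (n + r) := SG.ord_mono (by omega) (by omega)
    exact hV1 V hV (n + i) (by omega) (h1.trans (SG.ord_mono hn (by omega))) (h4.trans h2)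
  refine (Finset.sum_le_sum h3).trans (le_of_eq ?_)
  unfold Sv
  rw [← Finset.mul_sum, ← Finset.mul_sum, Finset.sum_range_sub (fun i => ord (n + i))]
  simp

lemma Sv_nonneg {V : ℝ} (hV : 1 ≤ V) {r n : ℕ} (hn : 1 ≤ n) : 0 ≤ Sv V r n := by
  unfold Sv
  have h1 : 0 ≤ Real.log V := Real.log_nonneg hV
  have h2 : ord n ≤ ord (n + r) := SG.ord_mono hn (by omega)
  have h3 := Real.pi_pos
  exact mul_nonneg (by positivity) (by linarith)

/-! ### The functionals -/

/-- nodes above the mean -/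
noncomputable def xp (r j : ℕ) : ℝ := (r : ℝ) + 1 / 2 + j
/-- nodes below the mean -/
noncomputable def xm (r j : ℕ) : ℝ := (r : ℝ) - 1 / 2 - j

lemma xp_pos (r j : ℕ) : 0 < xp r j := by unfold xp; positivity

lemma xm_pos {r j : ℕ} (h : j < r) : 0 < xm r j := by
  unfold xm
  have : (j : ℝ) + 1 ≤ r := by exact_mod_cast h
  linarith

/-- the function of the sums -/
noncomputable def Gs (U r : ℕ) (s : ℝ) : ℝ :=
  2 * ∑ j ∈ Finset.range U, max 0 (s - xp r j) + 2 * ∑ j ∈ Finset.range U, max 0 (xm r j - s)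

/-- its truncation -/
noncomputable def FF (U r : ℕ) (s : ℝ) : ℝ :=
  2 * ∑ j ∈ Finset.range U, mc U (xp r j) s + 2 * ∑ j ∈ Finset.range U, mm U (xm r j) s

/-- the function of the windows -/
noncomputable def Gt (U r : ℕ) (V t : ℝ) : ℝ :=
  2 * ∑ j ∈ Finset.range U, fp r (xp r j) V t + 2 * ∑ j ∈ Finset.range U, fm r (xm r j) V t

lemma Gs_nonneg (U r : ℕ) (s : ℝ) : 0 ≤ Gs U r s := by
  unfold Gs
  have h1 : 0 ≤ ∑ j ∈ Finset.range U, max 0 (s - xp r j) :=
    Finset.sum_nonneg fun _ _ => le_max_left _ _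
  have h2 : 0 ≤ ∑ j ∈ Finset.range U, max 0 (xm r j - s) :=
    Finset.sum_nonneg fun _ _ => le_max_left _ _
  linarith

lemma FF_nonneg (U r : ℕ) (s : ℝ) : 0 ≤ FF U r s := by
  unfold FF
  have h0 : (0 : ℝ) ≤ U := Nat.cast_nonneg U
  have h1 : 0 ≤ ∑ j ∈ Finset.range U, mc U (xp r j) s :=
    Finset.sum_nonneg fun _ _ => mc_nonneg h0
  have h2 : 0 ≤ ∑ j ∈ Finset.range U, mm U (xm r j) s :=
    Finset.sum_nonneg fun _ _ => mm_nonneg h0
  linarith

lemma FF_le (U r : ℕ) (s : ℝ) : FF U r s ≤ 4 * (U : ℝ) ^ 2 := by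
  unfold FF
  have h1 : ∑ j ∈ Finset.range U, mc U (xp r j) s ≤ ∑ j ∈ Finset.range U, (U : ℝ) :=
    Finset.sum_le_sum fun _ _ => mc_le _ _ _
  have h2 : ∑ j ∈ Finset.range U, mm U (xm r j) s ≤ ∑ j ∈ Finset.range U, (U : ℝ) :=
    Finset.sum_le_sum fun _ _ => mm_le _ _ _
  rw [Finset.sum_const, Finset.card_range, nsmul_eq_mul] at h1 h2
  nlinarith

/-- all the windows are short -/
lemma all_small {U r : ℕ} (hU : U ≤ r) : ∀ᶠ V : ℝ in atTop, ∀ j ∈ Finset.range U,
    (0 ≤ hl (xp r j) V ∧ hl (xp r j) V ≤ 1) ∧ (0 ≤ hl (xm r j) V ∧ hl (xm r j) V ≤ 1) := by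
  rw [Filter.eventually_all_finset]
  intro j hj
  rw [Finset.mem_range] at hj
  exact (hl_small _ (xp_pos r j)).and (hl_small _ (xm_pos (by omega)))

lemma Gt_ii {U r : ℕ} {V a b : ℝ} (hab : a ≤ b) (hs : ∀ j ∈ Finset.range U,
    (0 ≤ hl (xp r j) V ∧ hl (xp r j) V ≤ 1) ∧ (0 ≤ hl (xm r j) V ∧ hl (xm r j) V ≤ 1)) :
    ∫ t in a..b, Gt U r V t = 2 * (∑ j ∈ Finset.range U, ∫ t in a..b, fp r (xp r j) V t) +
      2 * (∑ j ∈ Finset.range U, ∫ t in a..b, fm r (xm r j) V t) := by
  unfold Gt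
  have i1 : ∀ j ∈ Finset.range U, IntervalIntegrable (fun t => fp r (xp r j) V t) volume a b :=
    fun j hj => fp_ii (hs j hj).1.1 hab
  have i2 : ∀ j ∈ Finset.range U, IntervalIntegrable (fun t => fm r (xm r j) V t) volume a b :=
    fun j hj => fm_ii (hs j hj).2.1 hab
  have k1 : IntervalIntegrable (fun t => ∑ j ∈ Finset.range U, fp r (xp r j) V t) volume a b := by
    have := IntervalIntegrable.sum (Finset.range U) i1
    refine this.congr ?_
    intro t _
    simp
  have k2 : IntervalIntegrable (fun t => ∑ j ∈ Finset.range U, fm r (xm r j) V t) volume a b := by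
    have := IntervalIntegrable.sum (Finset.range U) i2
    refine this.congr ?_
    intro t _
    simp
  rw [intervalIntegral.integral_add (k1.const_mul 2) (k2.const_mul 2),
    intervalIntegral.integral_const_mul, intervalIntegral.integral_const_mul,
    intervalIntegral.integral_finsetSum i1, intervalIntegral.integral_finsetSum i2]

/-- **transfer, upper bound** -/
theorem tr_up (hRH : RiemannHypothesis) {U r : ℕ} (hU : U ≤ r) {P : ℝ}
    (hP : ∀ ε : ℝ, 0 < ε → ∀ᶠ V : ℝ in atTop, ∫ t in V..(2 * V), Gt U r V t ≤ (P + ε) * V)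
    {ε : ℝ} (hε : 0 < ε) :
    ∀ᶠ N : ℕ in atTop, ∑ n ∈ Finset.Icc 1 N, FF U r (Sr r n) ≤ (P + ε) * N := by
  classical
  apply Pool.Agent.Y747.average hRH P (4 * (U : ℝ) ^ 2) (fun n => FF U r (Sr r n))
    (fun n => FF_nonneg _ _ _) (fun n => FF_le _ _ _) _ ε hε
  intro ε hε
  set C1 : ℝ := 2 * U * (2 * r + 1) with hC1
  have hC10 : 0 ≤ C1 := by positivity
  set M : ℝ := 8 + 4 * |P| + 2 * C1 with hM
  have hM8 : 8 ≤ M := by
    have := abs_nonneg P
    linarith
  set e : ℝ := min (1 / 2) (ε / M) with he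
  have he0 : 0 < e := lt_min (by norm_num) (by positivity)
  have he1 : e ≤ 1 / 2 := min_le_left _ _
  have heM : e * M ≤ ε := by
    have : e ≤ ε / M := min_le_right _ _
    rwa [le_div_iff₀ (by linarith)] at this
  obtain ⟨V0, hV0⟩ := ((hP e he0).and (all_small hU)).exists_forall_of_atTop
  obtain ⟨V1, hV10, hV1⟩ := Sv_up r e he0
  obtain ⟨V2, hV2⟩ := XV_large (max 1 (r * (4 * (U : ℝ) ^ 2) / e))
  obtain ⟨V3, hV3, hcardb⟩ : ∃ V3 : ℝ, 10 ≤ V3 ∧ ∀ V : ℝ, V3 ≤ V →
      ((Bx V).card : ℝ) ≤ (1 + e) * XV V := by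
    obtain ⟨V3, h1, h2⟩ := Pool.Agent.Y747.blk_pair hRH (Pool.Agent.H707.NV.gm_cd 1 0)
      (Pool.Agent.H707.NV.gm_one 1 0) (μ := 1 / 2) (ε := e) (by norm_num) (by norm_num) he0
    refine ⟨V3, h1, fun V hV => ?_⟩
    have := (abs_le.1 (h2 V hV).1).2
    linarith
  refine ⟨max (max V0 V1) (max V2 (max V3 (4 / e))),
    (hV10.trans (le_max_right _ _)).trans (le_max_left _ _), fun V hV => ?_⟩
  have c0 : V0 ≤ V := ((le_max_left _ _).trans (le_max_left _ _)).trans hV
  have c1 : V1 ≤ V := ((le_max_right _ _).trans (le_max_left _ _)).trans hV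
  have c2 : V2 ≤ V := ((le_max_left _ _).trans (le_max_right _ _)).trans hV
  have c3 : V3 ≤ V := (((le_max_left _ _).trans (le_max_right _ _)).trans (le_max_right _ _)).trans hV
  have c4 : 4 / e ≤ V :=
    (((le_max_right _ _).trans (le_max_right _ _)).trans (le_max_right _ _)).trans hV
  have hVten : 10 ≤ V := hV10.trans c1
  obtain ⟨b1, b2⟩ := hV0 V c0
  have b3 := hcardb V c3
  have b4 := hV2 V c2
  set X := XV V with hX
  have hX1 : 1 ≤ X := (le_max_left _ _).trans b4
  have hXB : r * (4 * (U : ℝ) ^ 2) ≤ e * X := by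
    have := (le_max_right _ _).trans b4
    rw [div_le_iff₀ he0] at this
    linarith
  have hlogV : 0 < Real.log V := Real.log_pos (by linarith)
  have hpi := Real.pi_pos
  set L := Real.log V / (2 * Real.pi) with hL
  have hL0 : 0 < L := by positivity
  have hLX : L * V ≤ (1 + e) * X := by
    have h1 : X = (V - 2) * L := by
      rw [hX, hL]
      unfold Pool.Agent.TH873.EW.XV
      ring
    rw [div_le_iff₀ he0] at c4
    have h2 : V ≤ (1 + e) * (V - 2) := by nlinarith
    rw [h1]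
    have := mul_le_mul_of_nonneg_left h2 hL0.le
    nlinarith
  set S' := (Bx V).filter (fun n => n + r ∈ Bx V) with hS'
  have hsplit := Finset.sum_filter_add_sum_filter_not (Bx V) (fun n => n + r ∈ Bx V)
    (fun n => FF U r (Sr r n))
  rw [← hS'] at hsplit
  have hexc : ∑ n ∈ (Bx V).filter (fun n => ¬ n + r ∈ Bx V), FF U r (Sr r n) ≤
      r * (4 * (U : ℝ) ^ 2) := by
    refine (Finset.sum_le_card_nsmul _ _ (4 * (U : ℝ) ^ 2) fun n _ => FF_le _ _ _).trans ?_
    rw [nsmul_eq_mul]
    apply mul_le_mul_of_nonneg_right _ (by positivity)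
    exact_mod_cast exc_card V r
  have hxpr : ∀ j ∈ Finset.range U, 0 ≤ xp r j ∧ xp r j ≤ 2 * r + 1 := by
    intro j hj
    rw [Finset.mem_range] at hj
    have : (j : ℝ) + 1 ≤ r := by
      have : j + 1 ≤ r := by omega
      exact_mod_cast this
    unfold xp
    constructor
    · positivity
    · linarith
  have hmain : ∀ n ∈ S', FF U r (Sr r n) ≤ (1 + e) * Gs U r (Sv V r n) + e * C1 := by
    intro n hn
    rw [hS', Finset.mem_filter] at hn
    have hn1 := mem_Bx.1 hn.1
    have hn2 := mem_Bx.1 hn.2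
    have u1 := hV1 V c1 n hn1.1 (by linarith [hn1.2.1]) (by linarith [hn2.2.2])
    have u2 := Sv_low hVten (r := r) hn1.1 (by linarith [hn1.2.1])
    unfold FF Gs
    have s1 : ∑ j ∈ Finset.range U, mc U (xp r j) (Sr r n) ≤
        ∑ j ∈ Finset.range U, ((1 + e) * max 0 (Sv V r n - xp r j) + e * (2 * r + 1)) := by
      apply Finset.sum_le_sum
      intro j hj
      obtain ⟨g1, g2⟩ := hxpr j hj
      refine (min_le_right _ _).trans ?_
      have g3 := le_max_left 0 (Sv V r n - xp r j)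
      have g4 := le_max_right 0 (Sv V r n - xp r j)
      have g5 : e * xp r j ≤ e * (2 * r + 1) := mul_le_mul_of_nonneg_left g2 he0.le
      have g6 : (1 + e) * (Sv V r n - xp r j) ≤ (1 + e) * max 0 (Sv V r n - xp r j) :=
        mul_le_mul_of_nonneg_left g4 (by linarith)
      apply max_le
      · have : 0 ≤ e * (2 * (r : ℝ) + 1) := by positivity
        have : 0 ≤ (1 + e) * max 0 (Sv V r n - xp r j) := by positivity
        linarith
      · have g7 : (1 + e) * (Sv V r n - xp r j) = (1 + e) * Sv V r n - xp r j - e * xp r j := by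
          ring
        linarith
    have s2 : ∑ j ∈ Finset.range U, mm U (xm r j) (Sr r n) ≤
        ∑ j ∈ Finset.range U, (1 + e) * max 0 (xm r j - Sv V r n) := by
      apply Finset.sum_le_sum
      intro j _
      refine (min_le_right _ _).trans ?_
      have g3 := le_max_left 0 (xm r j - Sv V r n)
      have g4 := le_max_right 0 (xm r j - Sv V r n)
      have g5 : max 0 (xm r j - Sv V r n) ≤ (1 + e) * max 0 (xm r j - Sv V r n) := by
        have : 0 ≤ e * max 0 (xm r j - Sv V r n) := by positivity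
        linarith
      apply max_le
      · positivity
      · linarith
    rw [Finset.sum_add_distrib, Finset.sum_const, Finset.card_range, nsmul_eq_mul,
      ← Finset.mul_sum] at s1
    rw [← Finset.mul_sum] at s2
    rw [hC1]
    linarith
  have hsum := Finset.sum_le_sum hmain
  rw [Finset.sum_add_distrib, Finset.sum_const, nsmul_eq_mul, ← Finset.mul_sum] at hsum
  have hS'card : (S'.card : ℝ) ≤ (1 + e) * X := by
    have : (S'.card : ℝ) ≤ (Bx V).card := by
      exact_mod_cast Finset.card_le_card (Finset.filter_subset _ _)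
    exact this.trans b3
  have hG : ∑ n ∈ S', Gs U r (Sv V r n) ≤ L * ∫ t in V..(2 * V), Gt U r V t := by
    rw [Gt_ii (by linarith) b2]
    unfold Gs
    rw [Finset.sum_add_distrib, ← Finset.mul_sum, ← Finset.mul_sum, Finset.sum_comm,
      Finset.sum_comm (s := S') (t := Finset.range U)]
    have s1 : ∑ j ∈ Finset.range U, ∑ n ∈ S', max 0 (Sv V r n - xp r j) ≤
        ∑ j ∈ Finset.range U, L * ∫ t in V..(2 * V), fp r (xp r j) V t :=
      Finset.sum_le_sum fun j hj => up_plus hVten (b2 j hj).1.1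
    have s2 : ∑ j ∈ Finset.range U, ∑ n ∈ S', max 0 (xm r j - Sv V r n) ≤
        ∑ j ∈ Finset.range U, L * ∫ t in V..(2 * V), fm r (xm r j) V t :=
      Finset.sum_le_sum fun j hj => up_minus hVten (b2 j hj).2.1 (b2 j hj).2.2
    rw [← Finset.mul_sum] at s1 s2
    linarith
  have hGt0 : 0 ≤ ∑ n ∈ S', Gs U r (Sv V r n) := Finset.sum_nonneg fun _ _ => Gs_nonneg _ _ _
  have hPe : 0 ≤ (P + e) * V := by
    have h1 : 0 ≤ ∫ t in V..(2 * V), Gt U r V t := by
      by_contra hc
      rw [not_le] at hc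
      have := mul_neg_of_pos_of_neg hL0 hc
      linarith
    linarith
  have hPe' : 0 ≤ P + e := by
    by_contra hc
    rw [not_le] at hc
    have := mul_neg_of_neg_of_pos hc (show 0 < V by linarith)
    linarith
  have h5 : ∑ n ∈ S', Gs U r (Sv V r n) ≤ (P + e) * ((1 + e) * X) := by
    calc ∑ n ∈ S', Gs U r (Sv V r n) ≤ L * ((P + e) * V) :=
          hG.trans (mul_le_mul_of_nonneg_left b1 hL0.le)
      _ = (P + e) * (L * V) := by ring
      _ ≤ _ := mul_le_mul_of_nonneg_left hLX hPe'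
  have h6 : (1 + e) * ∑ n ∈ S', Gs U r (Sv V r n) ≤ (P + e * (4 + 4 * |P|)) * X := by
    calc (1 + e) * ∑ n ∈ S', Gs U r (Sv V r n) ≤ (1 + e) * ((P + e) * ((1 + e) * X)) :=
          mul_le_mul_of_nonneg_left h5 (by linarith)
      _ = ((1 + e) * (1 + e) * (P + e)) * X := by ring
      _ ≤ _ := by
        apply mul_le_mul_of_nonneg_right _ (by linarith)
        have i1 := le_abs_self P
        have i2 : (1 + e) * (1 + e) ≤ 1 + 3 * e := by
          have : e * e ≤ e * (1 / 2) := mul_le_mul_of_nonneg_left he1 he0.le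
          linarith
        have i3 : (1 + e) * (1 + e) * (P + e) ≤ (1 + 3 * e) * (P + e) :=
          mul_le_mul_of_nonneg_right i2 hPe'
        have i4 : e * P ≤ e * |P| := mul_le_mul_of_nonneg_left i1 he0.le
        have i5 : 0 ≤ e * |P| := by positivity
        have i6 : e * e ≤ e * (1 / 2) := mul_le_mul_of_nonneg_left he1 he0.le
        have i7 : (1 + 3 * e) * (P + e) = P + e + 3 * (e * P) + 3 * (e * e) := by ring
        have i8 : P + e * (4 + 4 * |P|) = P + 4 * e + 4 * (e * |P|) := by ring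
        rw [i7] at i3
        rw [i8]
        linarith
  have h7 : (S'.card : ℝ) * (e * C1) ≤ e * (2 * C1) * X := by
    calc (S'.card : ℝ) * (e * C1) ≤ ((1 + e) * X) * (e * C1) :=
          mul_le_mul_of_nonneg_right hS'card (by positivity)
      _ ≤ (2 * X) * (e * C1) := by
          apply mul_le_mul_of_nonneg_right _ (by positivity)
          exact mul_le_mul_of_nonneg_right (by linarith) (by linarith)
      _ = _ := by ring
  have h12 : e * M * X ≤ ε * X := mul_le_mul_of_nonneg_right heM (by linarith)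
  have h13 : e * M * X = e * (4 + 4 * |P|) * X + e * (2 * C1) * X + 4 * (e * X) := by
    rw [hM]; ring
  have h14 : 0 ≤ e * X := mul_nonneg he0.le (by linarith)
  have h15 : (P + e * (4 + 4 * |P|)) * X = P * X + e * (4 + 4 * |P|) * X := by ring
  have h16 : (P + ε) * X = P * X + ε * X := by ring
  rw [← hsplit, h16]
  linarith

/-- **transfer, lower bound** -/
theorem tr_low (hRH : RiemannHypothesis) {U r : ℕ} (hU : U ≤ r) {P : ℝ} (hP0 : 0 ≤ P)
    (hP : ∀ ε : ℝ, 0 < ε → ∀ᶠ V : ℝ in atTop, (P - ε) * V ≤ ∫ t in V..(2 * V), Gt U r V t)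
    {ε : ℝ} (hε : 0 < ε) :
    ∀ᶠ N : ℕ in atTop, (P - ε) * N ≤ ∑ n ∈ Finset.Icc 1 N, Gs U r (Sr r n) := by
  classical
  apply Pool.Agent.Y747.glob_lower hRH (fun n => Gs_nonneg _ _ _) hP0 _ ε hε
  intro ε hε
  set M : ℝ := 2 + 4 * U + 32 * U * r with hM
  have hM2 : 2 ≤ M := by
    have : (0 : ℝ) ≤ 4 * U := by positivity
    have : (0 : ℝ) ≤ 32 * U * r := by positivity
    linarith
  set e : ℝ := ε / M with he
  have he0 : 0 < e := by positivity
  have heM : e * M = ε := by rw [he]; field_simp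
  have ev1 : ∀ᶠ V : ℝ in atTop, ∀ j ∈ Finset.range U,
      ((∫ t in V..(2 * V), fp r (xp r j) V t) - e * V ≤
        ∑ n ∈ Jx V, max 0 ((ord (n + r) - ord n) - hl (xp r j) V)) ∧
      ((∫ t in V..(2 * V), fm r (xm r j) V t) - e * V ≤
        ∑ n ∈ Jx V, max 0 (hl (xm r j) V - (ord (n + r) - ord n))) := by
    rw [Filter.eventually_all_finset]
    intro j hj
    rw [Finset.mem_range] at hj
    exact (low_plus hRH (xp_pos r j) r he0).and (low_minus (xm_pos (by omega)) r he0)
  obtain ⟨V1, hV10, hV1⟩ := Sv_up r e he0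
  obtain ⟨V2, hV2, hNZ⟩ := Pool.Agent.Y747.NZ_upper hRH 1 one_pos
  have ev2 : ∀ᶠ V : ℝ in atTop, NZ (2 * V) + r ≤ NZ ((1 + 1 / 2) * (2 * V)) :=
    (tendsto_id.const_mul_atTop (by norm_num : (0 : ℝ) < 2)).eventually
      (NZ_add hRH r (ε := 1 / 2) (by norm_num))
  obtain ⟨V3, hV3⟩ := ((((hP e he0).and (all_small hU)).and ev1).and ev2).exists_forall_of_atTop
  refine ⟨max V1 (max V2 V3), hV10.trans (le_max_left _ _), fun V hV => ?_⟩
  have c1 : V1 ≤ V := (le_max_left _ _).trans hV
  have c2 : V2 ≤ V := ((le_max_left _ _).trans (le_max_right _ _)).trans hV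
  have c3 : V3 ≤ V := ((le_max_right _ _).trans (le_max_right _ _)).trans hV
  have hVten : 10 ≤ V := hV10.trans c1
  obtain ⟨⟨⟨b1, b2⟩, b3⟩, b4⟩ := hV3 V c3
  have hlogV : 0 < Real.log V := Real.log_pos (by linarith)
  have hpi := Real.pi_pos
  set L := Real.log V / (2 * Real.pi) with hL
  have hL0 : 0 < L := by positivity
  have hcard : ((Jx V).card : ℝ) ≤ 8 * (L * V) := by
    have h1 := hNZ (2 * V) (by linarith)
    have h2 : (Jx V).card ≤ NZ (2 * V) := by
      have hsub : Jx V ⊆ Finset.Icc 1 (NZ (2 * V)) := by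
        intro n hn
        rw [mem_Jx] at hn
        rw [Finset.mem_Icc]
        exact ⟨hn.1, (SG.ord_le_iff hn.1 _).1 hn.2.2⟩
      have := Finset.card_le_card hsub
      rw [Nat.card_Icc] at this
      omega
    have h3 : ((Jx V).card : ℝ) ≤ NZ (2 * V) := by exact_mod_cast h2
    have h4 : Real.log (2 * V) ≤ 2 * Real.log V := by
      rw [Real.log_mul (by norm_num) (by linarith)]
      have : Real.log 2 ≤ Real.log V := Real.log_le_log (by norm_num) (by linarith)
      linarith
    have h5 : (1 + 1) * (2 * V * Real.log (2 * V) / (2 * Real.pi)) ≤ 8 * (L * V) := by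
      have h6 : 2 * V * Real.log (2 * V) ≤ 2 * V * (2 * Real.log V) :=
        mul_le_mul_of_nonneg_left h4 (by linarith)
      have h7 : 2 * V * Real.log (2 * V) / (2 * Real.pi) ≤ 2 * V * (2 * Real.log V) / (2 * Real.pi) :=
        div_le_div_of_nonneg_right h6 (by positivity)
      have h8 : 2 * V * (2 * Real.log V) / (2 * Real.pi) = 4 * (L * V) := by
        rw [hL]
        field_simp
        ring
      linarith
    linarith
  have hxmr : ∀ j ∈ Finset.range U, 0 ≤ xm r j ∧ xm r j ≤ r := by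
    intro j hj
    rw [Finset.mem_range] at hj
    refine ⟨(xm_pos (by omega)).le, ?_⟩
    unfold xm
    have : (0 : ℝ) ≤ j := Nat.cast_nonneg j
    linarith
  have hmain : ∀ n ∈ Jx V, Gs U r (Sv V r n) - 2 * U * (e * r) ≤ Gs U r (Sr r n) := by
    intro n hn
    rw [mem_Jx] at hn
    have h3V : ord (n + r) ≤ 3 * V := by
      apply (SG.ord_le_iff (by omega) _).2
      have h1 := (SG.ord_le_iff hn.1 _).1 hn.2.2
      have h2 : (1 + 1 / 2) * (2 * V) = 3 * V := by ring
      rw [h2] at b4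
      omega
    have u1 := hV1 V c1 n hn.1 hn.2.1.le h3V
    have u2 := Sv_low hVten (r := r) hn.1 hn.2.1.le
    have u3 := Sv_nonneg (V := V) (r := r) (by linarith) hn.1
    unfold Gs
    have s1 : ∑ j ∈ Finset.range U, max 0 (Sv V r n - xp r j) ≤
        ∑ j ∈ Finset.range U, max 0 (Sr r n - xp r j) :=
      Finset.sum_le_sum fun j _ => max_le_max le_rfl (by linarith)
    have s2 : ∑ j ∈ Finset.range U, (max 0 (xm r j - Sv V r n) - e * r) ≤
        ∑ j ∈ Finset.range U, max 0 (xm r j - Sr r n) := by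
      apply Finset.sum_le_sum
      intro j hj
      obtain ⟨g1, g2⟩ := hxmr j hj
      have g3 := le_max_left 0 (xm r j - Sr r n)
      have g4 := le_max_right 0 (xm r j - Sr r n)
      have g5 : 0 ≤ e * r := by positivity
      rcases le_total (xm r j) (Sv V r n) with h | h
      · rw [max_eq_left (by linarith : xm r j - Sv V r n ≤ 0)]
        linarith
      · rw [max_eq_right (by linarith : 0 ≤ xm r j - Sv V r n)]
        have g6 : e * Sv V r n ≤ e * r := mul_le_mul_of_nonneg_left (by linarith) he0.le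
        have g7 : (1 + e) * Sv V r n = Sv V r n + e * Sv V r n := by ring
        linarith
    rw [Finset.sum_sub_distrib, Finset.sum_const, Finset.card_range, nsmul_eq_mul] at s2
    have e1 : 2 * (U : ℝ) * (e * r) = 2 * (U * (e * r)) := by ring
    rw [e1]
    linarith
  have hsum := Finset.sum_le_sum hmain
  rw [Finset.sum_sub_distrib, Finset.sum_const, nsmul_eq_mul] at hsum
  have hG : L * (∫ t in V..(2 * V), Gt U r V t) - 4 * U * e * (L * V) ≤
      ∑ n ∈ Jx V, Gs U r (Sv V r n) := by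
    rw [Gt_ii (by linarith) b2]
    unfold Gs
    rw [Finset.sum_add_distrib, ← Finset.mul_sum, ← Finset.mul_sum, Finset.sum_comm,
      Finset.sum_comm (s := Jx V) (t := Finset.range U)]
    have s1 : ∑ j ∈ Finset.range U, L * ((∫ t in V..(2 * V), fp r (xp r j) V t) - e * V) ≤
        ∑ j ∈ Finset.range U, ∑ n ∈ Jx V, max 0 (Sv V r n - xp r j) := by
      apply Finset.sum_le_sum
      intro j hj
      refine (mul_le_mul_of_nonneg_left (b3 j hj).1 hL0.le).trans (le_of_eq ?_)
      rw [Finset.mul_sum]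
      apply Finset.sum_congr rfl
      intro n _
      rw [mul_max_of_nonneg _ _ hL0.le, mul_zero]
      congr 1
      unfold Sv
      have := L_hl (x := xp r j) (V := V) (by linarith)
      linear_combination -this
    have s2 : ∑ j ∈ Finset.range U, L * ((∫ t in V..(2 * V), fm r (xm r j) V t) - e * V) ≤
        ∑ j ∈ Finset.range U, ∑ n ∈ Jx V, max 0 (xm r j - Sv V r n) := by
      apply Finset.sum_le_sum
      intro j hj
      refine (mul_le_mul_of_nonneg_left (b3 j hj).2 hL0.le).trans (le_of_eq ?_)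
      rw [Finset.mul_sum]
      apply Finset.sum_congr rfl
      intro n _
      rw [mul_max_of_nonneg _ _ hL0.le, mul_zero]
      congr 1
      unfold Sv
      have := L_hl (x := xm r j) (V := V) (by linarith)
      linear_combination this
    rw [← Finset.mul_sum, Finset.sum_sub_distrib, Finset.sum_const, Finset.card_range,
      nsmul_eq_mul] at s1 s2
    have e1 : 4 * (U : ℝ) * e * (L * V) = 2 * (L * (U * (e * V))) + 2 * (L * (U * (e * V))) := by
      ring
    rw [e1]
    linarith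
  have h5 : L * ((P - e) * V) ≤ L * ∫ t in V..(2 * V), Gt U r V t :=
    mul_le_mul_of_nonneg_left b1 hL0.le
  have h7 : ((Jx V).card : ℝ) * (2 * U * (e * r)) ≤ 8 * (L * V) * (2 * U * (e * r)) :=
    mul_le_mul_of_nonneg_right hcard (by positivity)
  have e2 : V * Real.log V / (2 * Real.pi) = L * V := by rw [hL]; ring
  rw [e2]
  have hLV : 0 ≤ L * V := by positivity
  have h8 : (P - ε) * (L * V) = P * (L * V) - e * M * (L * V) := by rw [heM]; ring
  have h9 : e * M * (L * V) = 2 * (e * (L * V)) + 4 * U * e * (L * V) +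
      2 * (8 * (L * V) * (2 * U * (e * r))) := by rw [hM]; ring
  have h10 : 0 ≤ e * (L * V) := by positivity
  have h11 : 0 ≤ 8 * (L * V) * (2 * U * (e * r)) := by positivity
  have h12 : L * ((P - e) * V) = P * (L * V) - e * (L * V) := by ring
  rw [h8, h9]
  linarith

end Pool.Agent.H666.ZG
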