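import Pool.Agent.H666.ZG.TR2
import Pool.Agent.H666.ZG.FM

/-! Estimates for the averages over windows. -/

open Filter Topology Set MeasureTheory

namespace Pool.Agent.H666.ZG

open SG (ord NZ)
open Pool.Agent.H707.SM (Jm H1 Jm_le H1_succ)
open Pool.Agent.H707.NV (cn hl hl_small cn_meas cn_nonneg cn_log log_small cn_pow_ii cz cz_cast LL
  var_upper var_lower quad_upper)

lemma cn_add (a b t : ℝ) : cn (a + b) t = cn a t + cn b (t + a) := by
  unfold Pool.Agent.H707.NV.cn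
  rw [← add_assoc]
  ring

lemma hl_add (x y V : ℝ) : hl (x + y) V = hl x V + hl y V := by
  unfold Pool.Agent.H707.NV.hl
  ring

lemma hl_zero (V : ℝ) : hl 0 V = 0 := by
  unfold Pool.Agent.H707.NV.hl
  simp

lemma cn_zero (t : ℝ) : cn 0 t = 0 := by
  unfold Pool.Agent.H707.NV.cn
  simp

/-- the deviations of the windows to the right of the basic window -/
noncomputable def DD (r : ℕ) (V t : ℝ) (j : ℕ) : ℝ :=
  cn (hl (j : ℝ) V) (t + hl ((r : ℝ) + 1 / 2) V) - j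
/-- the deviations of the windows at the end of the basic window -/
noncomputable def DD' (r : ℕ) (V t : ℝ) (j : ℕ) : ℝ :=
  cn (hl ((j : ℝ) + 1) V) (t + hl (xm r j) V) - (j + 1)

/-- `(cn - r) (cn - r - 1)` -/
noncomputable def QQ (r : ℕ) (V t : ℝ) : ℝ :=
  (cn (hl ((r : ℝ) + 1 / 2) V) t - r) * (cn (hl ((r : ℝ) + 1 / 2) V) t - r - 1)

lemma fp_eq (r j : ℕ) (V t : ℝ) : fp r (xp r j) V t =
    max 0 (((r : ℤ) : ℝ) - (cz (hl ((r : ℝ) + 1 / 2) V) t : ℝ) - j - DD r V t j) := by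
  unfold fp xp DD
  rw [hl_add, cn_add, cz_cast]
  congr 1
  push_cast
  ring

lemma fm_eq (r j : ℕ) (V t : ℝ) : fm r (xm r j) V t =
    max 0 ((cz (hl ((r : ℝ) + 1 / 2) V) t : ℝ) - ((r : ℤ) : ℝ) - 1 - j - DD' r V t j) := by
  unfold fm DD'
  have e : (r : ℝ) + 1 / 2 = xm r j + (j + 1) := by unfold xm; ring
  rw [cz_cast, e, hl_add (xm r j) (j + 1) V, cn_add]
  congr 1
  push_cast
  ring

lemma DD_zero (r : ℕ) (V t : ℝ) : DD r V t 0 = 0 := by
  unfold DD
  rw [Nat.cast_zero, hl_zero, cn_zero, sub_zero]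

lemma Err_nonneg {η : ℝ} (hη : 0 < η) (U : ℕ) (D D' : ℕ → ℝ) : 0 ≤ Err η U D D' := by
  unfold Err
  have : 0 ≤ ∑ j ∈ Finset.Ico 1 U, (D j ^ 2 + D' j ^ 2) / (2 * (η * j)) :=
    Finset.sum_nonneg fun _ _ => by positivity
  positivity

lemma Gt_nonneg (U r : ℕ) (V t : ℝ) : 0 ≤ Gt U r V t := by
  unfold Gt
  have h1 : 0 ≤ ∑ j ∈ Finset.range U, fp r (xp r j) V t :=
    Finset.sum_nonneg fun _ _ => fp_nonneg _ _ _ _
  have h2 : 0 ≤ ∑ j ∈ Finset.range U, fm r (xm r j) V t :=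
    Finset.sum_nonneg fun _ _ => fm_nonneg _ _ _ _
  linarith

theorem pt_up {η : ℝ} (hη : 0 < η) (hη1 : η < 1) {U : ℕ} (hU : 1 ≤ U) (r : ℕ) (V t : ℝ) :
    Gt U r V t ≤ QQ r V t / (1 - η) + Err η U (DD r V t) (DD' r V t) := by
  have h := G_up (cz (hl ((r : ℝ) + 1 / 2) V) t) (r : ℤ) hη hη1 hU (D := DD r V t)
    (D' := DD' r V t) (DD_zero r V t)
  unfold Gt QQ
  simp only [fp_eq, fm_eq]
  rw [cz_cast] at h ⊢
  push_cast at h ⊢
  exact h

theorem pt_low {η : ℝ} (hη : 0 < η) {U : ℕ} (hU : 1 ≤ U) (r : ℕ) (V t : ℝ) :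
    (QQ r V t - (cn (hl ((r : ℝ) + 1 / 2) V) t - ((r : ℝ) + 1 / 2)) ^ 4 / (U : ℝ) ^ 2) / (1 + η) -
      Err η U (DD r V t) (DD' r V t) ≤ Gt U r V t := by
  have hU0 : (0 : ℝ) < U := by exact_mod_cast hU
  have hE := Err_nonneg hη U (DD r V t) (DD' r V t)
  set c := cn (hl ((r : ℝ) + 1 / 2) V) t with hc
  have hcz : (cz (hl ((r : ℝ) + 1 / 2) V) t : ℝ) = c := cz_cast _ _
  by_cases hg : (r : ℝ) - c ≤ U ∧ c - r - 1 ≤ U
  · have h := G_low (cz (hl ((r : ℝ) + 1 / 2) V) t) (r : ℤ) hη hU (D := DD r V t)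
      (D' := DD' r V t) (DD_zero r V t) (by rw [hcz]; push_cast; exact hg.1)
      (by rw [hcz]; push_cast; exact hg.2)
    have h2 : Gt U r V t = 2 * ∑ j ∈ Finset.range U, max 0 (((r : ℤ) : ℝ) -
        (cz (hl ((r : ℝ) + 1 / 2) V) t : ℝ) - j - DD r V t j) + 2 * ∑ j ∈ Finset.range U,
        max 0 ((cz (hl ((r : ℝ) + 1 / 2) V) t : ℝ) - ((r : ℤ) : ℝ) - 1 - j - DD' r V t j) := by
      unfold Gt
      simp only [fp_eq, fm_eq]
    rw [h2]
    refine le_trans ?_ h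
    rw [hcz]
    have h3 : (QQ r V t - (c - ((r : ℝ) + 1 / 2)) ^ 4 / (U : ℝ) ^ 2) / (1 + η) ≤
        (c - ((r : ℤ) : ℝ)) * (c - ((r : ℤ) : ℝ) - 1) / (1 + η) := by
      apply div_le_div_of_nonneg_right _ (by linarith)
      have h4 : 0 ≤ (c - ((r : ℝ) + 1 / 2)) ^ 4 / (U : ℝ) ^ 2 :=
        div_nonneg (Even.pow_nonneg (by decide) _) (by positivity)
      unfold QQ
      rw [← hc]
      push_cast
      linarith
    linarith
  · have hbad : (U : ℝ) ^ 2 ≤ (c - ((r : ℝ) + 1 / 2)) ^ 2 := by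
      rw [← sq_abs (c - ((r : ℝ) + 1 / 2))]
      apply pow_le_pow_left₀ hU0.le
      rw [not_and_or, not_le, not_le] at hg
      rcases hg with h | h
      · rw [abs_of_neg (by linarith)]
        linarith
      · rw [abs_of_pos (by linarith)]
        linarith
    have h1 : QQ r V t ≤ (c - ((r : ℝ) + 1 / 2)) ^ 4 / (U : ℝ) ^ 2 := by
      rw [le_div_iff₀ (by positivity)]
      have h2 : QQ r V t ≤ (c - ((r : ℝ) + 1 / 2)) ^ 2 := by
        unfold QQ
        rw [← hc]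
        nlinarith
      calc QQ r V t * (U : ℝ) ^ 2 ≤ (c - ((r : ℝ) + 1 / 2)) ^ 2 * (U : ℝ) ^ 2 :=
            mul_le_mul_of_nonneg_right h2 (by positivity)
        _ ≤ (c - ((r : ℝ) + 1 / 2)) ^ 2 * (c - ((r : ℝ) + 1 / 2)) ^ 2 :=
            mul_le_mul_of_nonneg_left hbad (sq_nonneg _)
        _ = _ := by ring
    have h3 : (QQ r V t - (c - ((r : ℝ) + 1 / 2)) ^ 4 / (U : ℝ) ^ 2) / (1 + η) ≤ 0 :=
      div_nonpos_of_nonpos_of_nonneg (by linarith) (by linarith)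
    have := Gt_nonneg U r V t
    linarith

/-! ### Integrals -/

lemma cnxs_ii {h s x : ℝ} (hh : 0 ≤ h) {a b : ℝ} (hab : a ≤ b) (j : ℕ) :
    IntervalIntegrable (fun t => (cn h (t + s) - x) ^ j) volume a b := by
  have h1 := cnx_ii (h := h) (x := x) hh (show a + s ≤ b + s by linarith) j
  have h2 := h1.comp_add_right s
  simpa using h2

lemma KK_le (m : ℕ) : 1 / 4 + (1 - 1 / 2) * Jm m + 1 / 2 * Jm (m + 1) + 1 / 2 * (1 - 1 / 2) ≤
    1 + Real.log ((m + 1 : ℕ) : ℝ) := by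
  have h1 := Jm_le m
  have h2 := Jm_le (m + 1)
  have h3 := H1_mono (show m ≤ m + 1 by omega)
  have h4 := H1_le_log (m := m + 1) (by omega)
  have hpi := Real.pi_gt_three
  have hpp : 9 ≤ Real.pi ^ 2 := by nlinarith
  have hlog : 0 ≤ Real.log ((m + 1 : ℕ) : ℝ) := Real.log_nonneg (by push_cast; linarith [Nat.cast_nonneg (α := ℝ) m])
  have h5 : ∀ k : ℕ, H1 k ≤ H1 (m + 1) → (2 + H1 k) / Real.pi ^ 2 ≤
      (3 + Real.log ((m + 1 : ℕ) : ℝ)) / 9 := by
    intro k hk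
    have := H1_nonneg k
    apply div_le_div₀ (by linarith) (by linarith) (by norm_num) hpp
  have h6 := h5 m h3
  have h7 := h5 (m + 1) le_rfl
  linarith

/-- the mean square of a shifted window of integer length -/
lemma shift_int (hRH : RiemannHypothesis) {j : ℕ} (hj : 1 ≤ j) {y : ℝ} (hy : 0 < y) {ε : ℝ}
    (hε : 0 < ε) : ∀ᶠ V : ℝ in atTop,
    ∫ t in V..(2 * V), (cn (hl (j : ℝ) V) (t + hl y V) - j) ^ 2 ≤ (1 + Real.log j + ε) * V := by
  obtain ⟨m, rfl⟩ : ∃ m, j = m + 1 := ⟨j - 1, by omega⟩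
  obtain ⟨C, hC, hloc⟩ := cn_log
  have he : 0 < ε / 4 := by positivity
  have hj0 : (0 : ℝ) < ((m + 1 : ℕ) : ℝ) := by positivity
  have hsm : ∀ᶠ V : ℝ in atTop, 3 * (C * Real.log (2 * (2 * V))) ^ 2 ≤ ε / 4 * (2 * V) :=
    (tendsto_id.const_mul_atTop (by norm_num : (0 : ℝ) < 2)).eventually (log_small C he 2)
  filter_upwards [var_upper hRH m (s := 1 / 2) (by norm_num) (by norm_num) he, hsm,
    hl_small _ hj0, hl_small y hy, eventually_ge_atTop 3,
    eventually_ge_atTop (((m + 1 : ℕ) : ℝ) ^ 2 / (ε / 4))] with V h1 h2 h3 h4 h5 h6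
  have hV0 : 0 < V := by linarith
  set s := hl y V with hs
  set h := hl ((m + 1 : ℕ) : ℝ) V with hh
  have e1 : (m : ℝ) + 1 / 2 + 1 / 2 = ((m + 1 : ℕ) : ℝ) := by push_cast; ring
  rw [e1] at h1
  have e2 : ∫ t in V..(2 * V), (cn h (t + s) - ((m + 1 : ℕ) : ℝ)) ^ 2 =
      ∫ t in (V + s)..(2 * V + s), (cn h t - ((m + 1 : ℕ) : ℝ)) ^ 2 :=
    intervalIntegral.integral_comp_add_right (fun t => (cn h t - ((m + 1 : ℕ) : ℝ)) ^ 2) s
  rw [e2]
  have i1 := cnx_ii (x := ((m + 1 : ℕ) : ℝ)) h3.1 (show V + s ≤ 2 * V by linarith) 2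
  have i2 := cnx_ii (x := ((m + 1 : ℕ) : ℝ)) h3.1 (show 2 * V ≤ 2 * V + s by linarith) 2
  have i0 := cnx_ii (x := ((m + 1 : ℕ) : ℝ)) h3.1 (show V ≤ V + s by linarith) 2
  rw [← intervalIntegral.integral_add_adjacent_intervals i1 i2]
  have f1 := intervalIntegral.integral_add_adjacent_intervals i0 i1
  have f2 : 0 ≤ ∫ t in V..(V + s), (cn h t - ((m + 1 : ℕ) : ℝ)) ^ 2 :=
    intervalIntegral.integral_nonneg (by linarith) fun t _ => sq_nonneg _
  have f3 : ∫ t in (2 * V)..(2 * V + s), (cn h t - ((m + 1 : ℕ) : ℝ)) ^ 2 ≤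
      (C * Real.log (2 * (2 * V))) ^ 2 + ((m + 1 : ℕ) : ℝ) ^ 2 := by
    have g1 := intervalIntegral.integral_mono_on (by linarith) i2
      (intervalIntegrable_const (c := (C * Real.log (2 * (2 * V))) ^ 2 + ((m + 1 : ℕ) : ℝ) ^ 2))
      (fun t ht => by
        have b1 := hloc (2 * V) (by linarith) h h3.2 t ⟨ht.1, by linarith [ht.2]⟩
        have b2 := cn_nonneg h3.1 t
        have b3 : cn h t ^ 2 ≤ (C * Real.log (2 * (2 * V))) ^ 2 := pow_le_pow_left₀ b2 b1 2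
        have b4 : 0 ≤ cn h t * ((m + 1 : ℕ) : ℝ) := by positivity
        nlinarith)
    rw [intervalIntegral.integral_const, smul_eq_mul] at g1
    have g2 : (2 * V + s - 2 * V) * ((C * Real.log (2 * (2 * V))) ^ 2 + ((m + 1 : ℕ) : ℝ) ^ 2) ≤
        1 * ((C * Real.log (2 * (2 * V))) ^ 2 + ((m + 1 : ℕ) : ℝ) ^ 2) :=
      mul_le_mul_of_nonneg_right (by linarith [h4.2]) (by positivity)
    linarith
  have f4 : ((m + 1 : ℕ) : ℝ) ^ 2 ≤ ε / 4 * V := by
    rw [div_le_iff₀ he] at h6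
    linarith
  have f5 := KK_le m
  have f6 : (1 / 4 + (1 - 1 / 2) * Jm m + 1 / 2 * Jm (m + 1) + 1 / 2 * (1 - 1 / 2) + ε / 4) * V ≤
      (1 + Real.log ((m + 1 : ℕ) : ℝ) + ε / 4) * V :=
    mul_le_mul_of_nonneg_right (by linarith) hV0.le
  have f7 : (1 + Real.log ((m + 1 : ℕ) : ℝ) + ε) * V = (1 + Real.log ((m + 1 : ℕ) : ℝ) + ε / 4) * V +
      ε / 4 * V + ε / 4 * V + ε / 4 * V := by ring
  have f8 : 0 ≤ (C * Real.log (2 * (2 * V))) ^ 2 := sq_nonneg _
  rw [f7]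
  linarith

lemma inv_sum_le {U : ℕ} (hU : 1 ≤ U) : ∑ j ∈ Finset.Ico 1 U, 1 / (j : ℝ) ≤ 1 + Real.log U := by
  have h1 : ∑ j ∈ Finset.Ico 1 U, 1 / (j : ℝ) = H1 (U - 1) := by
    unfold Pool.Agent.H707.SM.H1
    rw [Finset.sum_Ico_eq_sum_range]
    apply Finset.sum_congr rfl
    intro k _
    push_cast
    ring
  rw [h1]
  exact (H1_mono (by omega)).trans (H1_le_log hU)

/-- the integral of the error term -/
theorem Err_int (hRH : RiemannHypothesis) {η : ℝ} (hη : 0 < η) {U r : ℕ} (hU : 1 ≤ U)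
    (hUr : U ≤ r) {ε : ℝ} (hε : 0 < ε) : ∀ᶠ V : ℝ in atTop,
    IntervalIntegrable (fun t => Err η U (DD r V t) (DD' r V t)) volume V (2 * V) ∧
    ∫ t in V..(2 * V), Err η U (DD r V t) (DD' r V t) ≤
      (5 + (1 + Real.log U) ^ 2 / η + ε) * V := by
  have hU1 : (1 : ℝ) ≤ U := by exact_mod_cast hU
  have hlogU : 0 ≤ Real.log U := Real.log_nonneg hU1
  set W : ℝ := 2 + (1 + Real.log U) / η with hW
  have hW0 : 0 < W := by positivity
  set e : ℝ := ε / W with he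
  have he0 : 0 < e := by positivity
  have heW : e * W = ε := by rw [he]; field_simp
  have hr0 : (0 : ℝ) < (r : ℝ) + 1 / 2 := by positivity
  have ev1 : ∀ᶠ V : ℝ in atTop, ∀ j ∈ Finset.Ico 1 U,
      ∫ t in V..(2 * V), (DD r V t j) ^ 2 ≤ (1 + Real.log j + e) * V := by
    rw [Filter.eventually_all_finset]
    intro j hj
    rw [Finset.mem_Ico] at hj
    exact shift_int hRH hj.1 hr0 he0
  have ev2 : ∀ᶠ V : ℝ in atTop, ∀ j ∈ Finset.range U,
      ∫ t in V..(2 * V), (DD' r V t j) ^ 2 ≤ (1 + Real.log ((j + 1 : ℕ) : ℝ) + e) * V := by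
    rw [Filter.eventually_all_finset]
    intro j hj
    rw [Finset.mem_range] at hj
    have h := shift_int hRH (j := j + 1) (by omega) (xm_pos (r := r) (j := j) (by omega)) he0
    filter_upwards [h] with V hV
    refine le_trans (le_of_eq ?_) hV
    apply intervalIntegral.integral_congr
    intro t _
    simp only [DD']
    push_cast
    rfl
  have ev3 : ∀ᶠ V : ℝ in atTop, ∀ j ∈ Finset.range U, 0 ≤ hl (j : ℝ) V ∧ 0 ≤ hl ((j : ℝ) + 1) V := by
    rw [Filter.eventually_all_finset]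
    intro j _
    filter_upwards [eventually_gt_atTop 1] with V hV
    have h3 : 0 < Real.log V := Real.log_pos hV
    unfold Pool.Agent.H707.NV.hl
    constructor <;> positivity
  filter_upwards [ev1, ev2, ev3, eventually_gt_atTop 1] with V h1 h2 h3 hV1
  have hV0 : 0 < V := by linarith
  have hVV : V ≤ 2 * V := by linarith
  have i1 : ∀ j ∈ Finset.range U, IntervalIntegrable (fun t => (DD r V t j) ^ 2) volume V (2 * V) :=
    fun j hj => cnxs_ii (h3 j hj).1 hVV 2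
  have i2 : ∀ j ∈ Finset.range U, IntervalIntegrable (fun t => (DD' r V t j) ^ 2) volume V (2 * V) :=
    fun j hj => cnxs_ii (h3 j hj).2 hVV 2
  have hsub : ∀ j ∈ Finset.Ico 1 U, j ∈ Finset.range U := by
    intro j hj
    rw [Finset.mem_Ico] at hj
    exact Finset.mem_range.2 hj.2
  have i3 : ∀ j ∈ Finset.Ico 1 U, IntervalIntegrable
      (fun t => ((DD r V t j) ^ 2 + (DD' r V t j) ^ 2) / (2 * (η * j))) volume V (2 * V) :=
    fun j hj => ((i1 j (hsub j hj)).add (i2 j (hsub j hj))).div_const _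
  have i4 : IntervalIntegrable (fun t => ∑ j ∈ Finset.Ico 1 U,
      ((DD r V t j) ^ 2 + (DD' r V t j) ^ 2) / (2 * (η * j))) volume V (2 * V) := by
    have := IntervalIntegrable.sum (Finset.Ico 1 U) i3
    refine this.congr ?_
    intro t _
    simp
  have h0U : 0 ∈ Finset.range U := Finset.mem_range.2 (by omega)
  have i5 : IntervalIntegrable (fun t => (3 : ℝ) + 2 * (DD' r V t 0) ^ 2) volume V (2 * V) :=
    intervalIntegrable_const.add ((i2 0 h0U).const_mul 2)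
  refine ⟨i5.add i4, ?_⟩
  unfold Err
  rw [intervalIntegral.integral_add i5 i4, intervalIntegral.integral_add intervalIntegrable_const
    ((i2 0 h0U).const_mul 2), intervalIntegral.integral_const_mul,
    intervalIntegral.integral_finsetSum i3, intervalIntegral.integral_const, smul_eq_mul]
  have b0 := h2 0 h0U
  simp only [zero_add, Nat.cast_one, Real.log_one, add_zero] at b0
  have b1 : ∑ j ∈ Finset.Ico 1 U, ∫ t in V..(2 * V),
      ((DD r V t j) ^ 2 + (DD' r V t j) ^ 2) / (2 * (η * j)) ≤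
      ∑ j ∈ Finset.Ico 1 U, ((1 + Real.log U + e) / η * V) * (1 / (j : ℝ)) := by
    apply Finset.sum_le_sum
    intro j hj
    have hjU := hsub j hj
    rw [Finset.mem_Ico] at hj
    have hj1 : (1 : ℝ) ≤ j := by exact_mod_cast hj.1
    have hj0 : (0 : ℝ) < j := by linarith
    have hjU' : ((j + 1 : ℕ) : ℝ) ≤ U := by exact_mod_cast hj.2
    rw [intervalIntegral.integral_div, intervalIntegral.integral_add (i1 j hjU) (i2 j hjU)]
    have c1 := h1 j (Finset.mem_Ico.2 hj)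
    have c2 := h2 j hjU
    have l1 : Real.log j ≤ Real.log U := Real.log_le_log hj0 (by push_cast at hjU'; linarith)
    have l2 : Real.log ((j + 1 : ℕ) : ℝ) ≤ Real.log U := Real.log_le_log (by positivity) hjU'
    have c3 : (1 + Real.log j + e) * V + (1 + Real.log ((j + 1 : ℕ) : ℝ) + e) * V ≤
        2 * ((1 + Real.log U + e) * V) := by
      have : (1 + Real.log j + e) * V ≤ (1 + Real.log U + e) * V :=
        mul_le_mul_of_nonneg_right (by linarith) hV0.le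
      have : (1 + Real.log ((j + 1 : ℕ) : ℝ) + e) * V ≤ (1 + Real.log U + e) * V :=
        mul_le_mul_of_nonneg_right (by linarith) hV0.le
      linarith
    rw [div_le_iff₀ (by positivity)]
    have c4 : (1 + Real.log U + e) / η * V * (1 / (j : ℝ)) * (2 * (η * j)) =
        2 * ((1 + Real.log U + e) * V) := by
      field_simp
    rw [c4]
    linarith
  rw [← Finset.mul_sum] at b1
  have b2 := inv_sum_le hU
  have b3 : (1 + Real.log U + e) / η * V * ∑ j ∈ Finset.Ico 1 U, 1 / (j : ℝ) ≤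
      (1 + Real.log U + e) / η * V * (1 + Real.log U) :=
    mul_le_mul_of_nonneg_left b2 (by positivity)
  have b4 : (5 + (1 + Real.log U) ^ 2 / η + ε) * V = (2 * V - V) * 3 + 2 * ((1 + e) * V) +
      (1 + Real.log U + e) / η * V * (1 + Real.log U) := by
    rw [← heW, hW]
    field_simp
    ring
  rw [b4]
  linarith

/-- integrability of `Gt` -/
lemma Gt_int {U r : ℕ} {V a b : ℝ} (hab : a ≤ b) (hs : ∀ j ∈ Finset.range U,
    (0 ≤ hl (xp r j) V ∧ hl (xp r j) V ≤ 1) ∧ (0 ≤ hl (xm r j) V ∧ hl (xm r j) V ≤ 1)) :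
    IntervalIntegrable (Gt U r V) volume a b := by
  have i1 : ∀ j ∈ Finset.range U, IntervalIntegrable (fun t => fp r (xp r j) V t) volume a b :=
    fun j hj => fp_ii (hs j hj).1.1 hab
  have i2 : ∀ j ∈ Finset.range U, IntervalIntegrable (fun t => fm r (xm r j) V t) volume a b :=
    fun j hj => fm_ii (hs j hj).2.1 hab
  have k1 : IntervalIntegrable (fun t => ∑ j ∈ Finset.range U, fp r (xp r j) V t) volume a b := by
    have := IntervalIntegrable.sum (Finset.range U) i1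
    refine this.congr ?_
    intro t _
    simp
  have k2 : IntervalIntegrable (fun t => ∑ j ∈ Finset.range U, fm r (xm r j) V t) volume a b := by
    have := IntervalIntegrable.sum (Finset.range U) i2
    refine this.congr ?_
    intro t _
    simp
  exact (k1.const_mul 2).add (k2.const_mul 2)

lemma QQ_eq (r : ℕ) (V t : ℝ) : QQ r V t =
    (cn (hl ((r : ℝ) + 1 / 2) V) t - ((r : ℝ) + 1 / 2)) ^ 2 - 1 / 4 := by
  unfold QQ
  ring

lemma QQ_ii {r : ℕ} {V a b : ℝ} (hh : 0 ≤ hl ((r : ℝ) + 1 / 2) V) (hab : a ≤ b) :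
    IntervalIntegrable (QQ r V) volume a b := by
  have h := (cnx_ii (x := (r : ℝ) + 1 / 2) hh hab 2).sub
    (intervalIntegrable_const (c := (1 / 4 : ℝ)))
  refine h.congr ?_
  intro t _
  exact (QQ_eq r V t).symm

/-- **upper bound for the window average** -/
theorem Gt_up (hRH : RiemannHypothesis) {η : ℝ} (hη : 0 < η) (hη1 : η < 1) {U r : ℕ} (hU : 1 ≤ U)
    (hUr : U ≤ r) {ε : ℝ} (hε : 0 < ε) : ∀ᶠ V : ℝ in atTop,
    ∫ t in V..(2 * V), Gt U r V t ≤
      (Jm r / (1 - η) + 5 + (1 + Real.log U) ^ 2 / η + ε) * V := by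
  have hr0 : (0 : ℝ) < (r : ℝ) + 1 / 2 := by positivity
  have h1η : 0 < 1 - η := by linarith
  have he1 : 0 < ε / 2 * (1 - η) := by positivity
  filter_upwards [quad_upper hRH r (2 * r + 1) (r * (r + 1)) he1, Err_int hRH hη hU hUr (half_pos hε),
    hl_small _ hr0, all_small hUr, eventually_gt_atTop 1] with V h1 h2 h3 h4 h5
  have hV0 : 0 < V := by linarith
  have hVV : V ≤ 2 * V := by linarith
  have hmono : ∫ t in V..(2 * V), Gt U r V t ≤ ∫ t in V..(2 * V),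
      (QQ r V t / (1 - η) + Err η U (DD r V t) (DD' r V t)) :=
    intervalIntegral.integral_mono_on hVV (Gt_int hVV h4)
      (((QQ_ii h3.1 hVV).div_const _).add h2.1) fun t _ => pt_up hη hη1 hU r V t
  refine hmono.trans ?_
  rw [intervalIntegral.integral_add ((QQ_ii h3.1 hVV).div_const _) h2.1,
    intervalIntegral.integral_div]
  have e1 : ∫ t in V..(2 * V), QQ r V t = ∫ t in V..(2 * V),
      (cn (hl ((r : ℝ) + 1 / 2) V) t ^ 2 - (2 * r + 1) * cn (hl ((r : ℝ) + 1 / 2) V) t +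
        r * (r + 1)) := by
    apply intervalIntegral.integral_congr
    intro t _
    simp only [QQ]
    ring
  have e2 : (Jm r + (2 * r + 1) * ((r : ℝ) + 1 / 2) - r * ((r : ℝ) + 1) -
      (2 * r + 1) * ((r : ℝ) + 1 / 2) + r * (r + 1) + ε / 2 * (1 - η)) * V =
      (Jm r + ε / 2 * (1 - η)) * V := by ring
  rw [e2] at h1
  have h6 : (∫ t in V..(2 * V), QQ r V t) / (1 - η) ≤ (Jm r / (1 - η) + ε / 2) * V := by
    rw [e1, div_le_iff₀ h1η]
    refine h1.trans (le_of_eq ?_)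
    field_simp
  have h7 : (Jm r / (1 - η) + 5 + (1 + Real.log U) ^ 2 / η + ε) * V =
      (Jm r / (1 - η) + ε / 2) * V + (5 + (1 + Real.log U) ^ 2 / η + ε / 2) * V := by ring
  rw [h7]
  linarith [h2.2]

/-- **lower bound for the window average** -/
theorem Gt_low (hRH : RiemannHypothesis) : ∃ C : ℝ, 1 ≤ C ∧ ∀ η : ℝ, 0 < η → ∀ U r : ℕ, 1 ≤ U →
    U ≤ r → ∀ ε : ℝ, 0 < ε → ∀ᶠ V : ℝ in atTop,
    ((LL ((r : ℝ) + 1 / 2) - 1 / 4 - C * (1 + Real.log (2 * r + 2)) ^ 4 / (U : ℝ) ^ 2) / (1 + η) -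
      (5 + (1 + Real.log U) ^ 2 / η) - ε) * V ≤ ∫ t in V..(2 * V), Gt U r V t := by
  obtain ⟨C, hC, hfour⟩ := fourth hRH
  refine ⟨C, hC, fun η hη U r hU hUr ε hε => ?_⟩
  have hU0 : (0 : ℝ) < U := by exact_mod_cast hU
  have hr0 : (0 : ℝ) < (r : ℝ) + 1 / 2 := by positivity
  have h1η : 0 < 1 + η := by linarith
  filter_upwards [var_lower hRH hr0 (half_pos hε), Err_int hRH hη hU hUr (half_pos hε),
    hfour _ hr0, hl_small _ hr0, all_small hUr, eventually_gt_atTop 1] with V h1 h2 h0 h3 h4 h5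
  have hV0 : 0 < V := by linarith
  have hVV : V ≤ 2 * V := by linarith
  set x : ℝ := (r : ℝ) + 1 / 2 with hx
  have i4 := cnx_ii (x := x) h3.1 hVV 4
  have i4' : IntervalIntegrable (fun t => (cn (hl x V) t - x) ^ 4 / (U : ℝ) ^ 2) volume V (2 * V) :=
    i4.div_const _
  have iQ : IntervalIntegrable (QQ r V) volume V (2 * V) := QQ_ii h3.1 hVV
  have iA : IntervalIntegrable (fun t => (QQ r V t - (cn (hl x V) t - x) ^ 4 / (U : ℝ) ^ 2) / (1 + η))
      volume V (2 * V) := (iQ.sub i4').div_const _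
  have hmono : ∫ t in V..(2 * V), ((QQ r V t - (cn (hl x V) t - x) ^ 4 / (U : ℝ) ^ 2) / (1 + η) -
      Err η U (DD r V t) (DD' r V t)) ≤ ∫ t in V..(2 * V), Gt U r V t :=
    intervalIntegral.integral_mono_on hVV (iA.sub h2.1) (Gt_int hVV h4)
      fun t _ => pt_low hη hU r V t
  refine le_trans ?_ hmono
  rw [intervalIntegral.integral_sub iA h2.1, intervalIntegral.integral_div,
    intervalIntegral.integral_sub iQ i4', intervalIntegral.integral_div]
  have e1 : ∫ t in V..(2 * V), QQ r V t =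
      (∫ t in V..(2 * V), (cn (hl x V) t - x) ^ 2) - 1 / 4 * V := by
    have : ∫ t in V..(2 * V), QQ r V t = ∫ t in V..(2 * V), ((cn (hl x V) t - x) ^ 2 - 1 / 4) := by
      apply intervalIntegral.integral_congr
      intro t _
      exact QQ_eq r V t
    rw [this, intervalIntegral.integral_sub (cnx_ii h3.1 hVV 2) intervalIntegrable_const,
      intervalIntegral.integral_const, smul_eq_mul]
    ring
  have e3 : 1 + 2 * x = 2 * (r : ℝ) + 2 := by rw [hx]; ring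
  rw [e3] at h0
  have h6 : (∫ t in V..(2 * V), (cn (hl x V) t - x) ^ 4) / (U : ℝ) ^ 2 ≤
      C * (1 + Real.log (2 * r + 2)) ^ 4 / (U : ℝ) ^ 2 * V := by
    rw [div_mul_eq_mul_div]
    exact div_le_div_of_nonneg_right h0 (by positivity)
  have h7 : (LL x - 1 / 4 - C * (1 + Real.log (2 * r + 2)) ^ 4 / (U : ℝ) ^ 2 - ε / 2) * V ≤
      (∫ t in V..(2 * V), QQ r V t) -
        (∫ t in V..(2 * V), (cn (hl x V) t - x) ^ 4) / (U : ℝ) ^ 2 := by
    rw [e1]
    nlinarith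
  have h8 : (LL x - 1 / 4 - C * (1 + Real.log (2 * r + 2)) ^ 4 / (U : ℝ) ^ 2) / (1 + η) * V -
      ε / 2 * V ≤ ((∫ t in V..(2 * V), QQ r V t) -
        (∫ t in V..(2 * V), (cn (hl x V) t - x) ^ 4) / (U : ℝ) ^ 2) / (1 + η) := by
    rw [le_div_iff₀ h1η]
    refine le_trans ?_ h7
    set Z := LL x - 1 / 4 - C * (1 + Real.log (2 * r + 2)) ^ 4 / (U : ℝ) ^ 2 with hZ
    have h9 : (Z / (1 + η) * V - ε / 2 * V) * (1 + η) = Z * V - ε / 2 * V * (1 + η) := by
      field_simp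
    rw [h9]
    have h10 : 0 ≤ ε / 2 * V * η := by positivity
    nlinarith
  have h11 := h2.2
  have h12 : ((LL x - 1 / 4 - C * (1 + Real.log (2 * r + 2)) ^ 4 / (U : ℝ) ^ 2) / (1 + η) -
      (5 + (1 + Real.log U) ^ 2 / η) - ε) * V =
      ((LL x - 1 / 4 - C * (1 + Real.log (2 * r + 2)) ^ 4 / (U : ℝ) ^ 2) / (1 + η) * V -
      ε / 2 * V) - (5 + (1 + Real.log U) ^ 2 / η + ε / 2) * V := by ring
  rw [h12]
  linarith

end Pool.Agent.H666.ZG
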