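import Pool.Agent.H666.ZG.Blk

/-! The mean square of `S - r`, where `S` is a sum of `r` consecutive gaps. -/

open Filter Topology Set MeasureTheory

namespace Pool.Agent.H666.ZG

open SG (ord NZ)
open Pool.Agent.TH873.EW (ct mom XV)
open Pool.Agent.Y747 (Bx mem_Bx)
open Pool.Agent.H707.SM (hk cd_hk hk_one tent_le Jm H1 mom_val Jm_le mc mc_nonneg mc_le mc_eq tl
  tl_nonneg)
open LG (dlt)

/-! ### The weights -/

lemma int_prod (j d : ℤ) : (0 : ℝ) ≤ ((j : ℝ) - d) * ((j : ℝ) - d - 1) := by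
  rcases le_or_gt j d with h | h
  · have h1 : (j : ℝ) ≤ d := by exact_mod_cast h
    nlinarith
  · have h1 : (d : ℝ) + 1 ≤ j := by exact_mod_cast h
    nlinarith

lemma w_plus (r d : ℕ) : ∀ M : ℕ, M ≤ r →
    (4 * (d : ℝ) + 2) * ((r : ℝ) - M) ≤ ((M : ℝ) - (r + d : ℕ)) * ((M : ℝ) - (r + d : ℕ) - 1) := by
  intro M _
  have h := int_prod ((r : ℤ) - M) d
  push_cast at h ⊢
  nlinarith

lemma w_minus (r d : ℕ) (hd : d < r) : ∀ M : ℕ, r ≤ M →
    (4 * (d : ℝ) + 2) * ((M : ℝ) - r) ≤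
      ((M : ℝ) - (r - 1 - d : ℕ)) * ((M : ℝ) - (r - 1 - d : ℕ) - 1) := by
  intro M _
  have h := int_prod ((M : ℤ) - r) d
  have e : ((r - 1 - d : ℕ) : ℝ) = (r : ℝ) - 1 - d := by
    rw [Nat.cast_sub (by omega), Nat.cast_sub (by omega)]
    norm_num
  rw [e]
  push_cast at h ⊢
  nlinarith

lemma w_far {r q : ℕ} (hr : 1 ≤ r) (hq : 2 * r ≤ q) : ∀ M : ℕ, M ≤ r →
    ((q : ℝ) * (q + 1) / r) * ((r : ℝ) - M) ≤ ((M : ℝ) - q) * ((M : ℝ) - q - 1) := by
  intro M hM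
  have hr1 : (1 : ℝ) ≤ r := by exact_mod_cast hr
  have hq1 : 2 * (r : ℝ) ≤ q := by exact_mod_cast hq
  have hM1 : (M : ℝ) ≤ r := by exact_mod_cast hM
  have hM0 : (0 : ℝ) ≤ M := Nat.cast_nonneg M
  rw [div_mul_eq_mul_div, div_le_iff₀ (by linarith)]
  have e : ((M : ℝ) - q) * ((M : ℝ) - q - 1) * r - (q : ℝ) * (q + 1) * (r - M) =
      M * ((q : ℝ) * (q + 1) - r * (2 * q + 1) + r * M) := by ring
  have h1 : 0 ≤ (q : ℝ) * (q + 1) - r * (2 * q + 1) := by nlinarith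
  have h2 : 0 ≤ M * ((q : ℝ) * (q + 1) - r * (2 * q + 1) + r * M) := by positivity
  linarith

/-! ### The means at the half integers -/

/-- mean of `(S - (r + d + 1/2))₊` -/
lemma mean_near (hRH : RiemannHypothesis) (r d : ℕ) {B : ℝ} (hB : 0 ≤ B) {ε : ℝ} (hε : 0 < ε) :
    ∀ᶠ N : ℕ in atTop, ∑ n ∈ Finset.Icc 1 N, mc B (((r + d : ℕ) : ℝ) + 1 / 2) (Sr r n) ≤
      (Jm (r + d) / (4 * (d : ℝ) + 2) + ε) * N := by
  have hd : (0 : ℝ) ≤ d := Nat.cast_nonneg d
  have h := meanP hRH (cd_hk (((r + d : ℕ) : ℝ) + 1 / 2) (r + d)) (hk_one _ _)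
    (x := ((r + d : ℕ) : ℝ) + 1 / 2) (by positivity) (tent_le (r + d)) (r + d) r
    (w := 4 * (d : ℝ) + 2) (by linarith) (w_plus r d) hB hε
  rw [mom_val] at h
  exact h

/-- mean of `(S - (q + 1/2))₊` for `q ≥ 2 r` -/
lemma mean_far (hRH : RiemannHypothesis) {r q : ℕ} (hr : 1 ≤ r) (hq : 2 * r ≤ q) {B : ℝ}
    (hB : 0 ≤ B) {ε : ℝ} (hε : 0 < ε) :
    ∀ᶠ N : ℕ in atTop, ∑ n ∈ Finset.Icc 1 N, mc B ((q : ℝ) + 1 / 2) (Sr r n) ≤
      (Jm q / ((q : ℝ) * (q + 1) / r) + ε) * N := by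
  have hr1 : (1 : ℝ) ≤ r := by exact_mod_cast hr
  have hq1 : 2 * (r : ℝ) ≤ q := by exact_mod_cast hq
  have h := meanP hRH (cd_hk ((q : ℝ) + 1 / 2) q) (hk_one _ _)
    (x := (q : ℝ) + 1 / 2) (by positivity) (tent_le q) q r
    (w := (q : ℝ) * (q + 1) / r) (by
      rw [le_div_iff₀ (by linarith)]
      nlinarith) (w_far hr hq) hB hε
  rw [mom_val] at h
  exact h

/-- mean of `((r - 1 - d + 1/2) - S)₊` -/
lemma mean_below (hRH : RiemannHypothesis) {r d : ℕ} (hd : d < r) {B : ℝ} (hB : 0 ≤ B) {ε : ℝ}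
    (hε : 0 < ε) :
    ∀ᶠ N : ℕ in atTop, ∑ n ∈ Finset.Icc 1 N, mm B (((r - 1 - d : ℕ) : ℝ) + 1 / 2) (Sr r n) ≤
      (Jm (r - 1 - d) / (4 * (d : ℝ) + 2) + ε) * N := by
  have hd0 : (0 : ℝ) ≤ d := Nat.cast_nonneg d
  have h := meanM hRH (cd_hk (((r - 1 - d : ℕ) : ℝ) + 1 / 2) (r - 1 - d)) (hk_one _ _)
    (x := ((r - 1 - d : ℕ) : ℝ) + 1 / 2) (by positivity) (tent_le (r - 1 - d)) (r - 1 - d) r
    (w := 4 * (d : ℝ) + 2) (by linarith) (w_minus r d hd) hB hε
  rw [mom_val] at h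
  exact h

/-! ### The pointwise bound -/

lemma sum_half (s : ℝ) (j : ℕ) :
    ∑ i ∈ Finset.range j, (s - ((i : ℝ) + 1 / 2)) = j * s - (j : ℝ) ^ 2 / 2 := by
  induction j with
  | zero => simp
  | succ j ih =>
    rw [Finset.sum_range_succ, ih]
    push_cast
    ring

/-- a partial sum of positive parts -/
lemma pos_sum_ge (s : ℝ) {j K : ℕ} (h : j ≤ K) :
    j * s - (j : ℝ) ^ 2 / 2 ≤ ∑ i ∈ Finset.range K, max 0 (s - ((i : ℝ) + 1 / 2)) := by
  rw [← sum_half]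
  calc ∑ i ∈ Finset.range j, (s - ((i : ℝ) + 1 / 2)) ≤
      ∑ i ∈ Finset.range j, max 0 (s - ((i : ℝ) + 1 / 2)) :=
        Finset.sum_le_sum fun _ _ => le_max_right _ _
    _ ≤ _ := Finset.sum_le_sum_of_subset_of_nonneg (Finset.range_subset_range.2 h)
        fun _ _ _ => le_max_left _ _

lemma sq_le_sum {s : ℝ} (hs : 0 ≤ s) {K : ℕ} (hK : s ≤ K + 1 / 2) :
    s ^ 2 ≤ 1 / 4 + 2 * ∑ i ∈ Finset.range K, max 0 (s - ((i : ℝ) + 1 / 2)) := by
  by_cases hlt : s + 1 / 2 < K + 1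
  · obtain ⟨j, hj⟩ : ∃ j : ℕ, j = ⌊s + 1 / 2⌋₊ := ⟨_, rfl⟩
    have h1 : (j : ℝ) ≤ s + 1 / 2 := by rw [hj]; exact Nat.floor_le (by linarith)
    have h2 : s + 1 / 2 < j + 1 := by rw [hj]; exact Nat.lt_floor_add_one _
    have h3 : j ≤ K := by
      have : (j : ℝ) < K + 1 := by linarith
      have h4 : j < K + 1 := by exact_mod_cast this
      omega
    have h4 := pos_sum_ge s h3
    nlinarith
  · have h1 : s = K + 1 / 2 := by linarith
    have h4 := pos_sum_ge s (le_refl K)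
    rw [h1] at h4 ⊢
    nlinarith

/-- **the pointwise bound** -/
lemma dev_le {r K : ℕ} {S : ℝ} (h0 : 0 ≤ S) (h1 : S ≤ r + K) :
    (S - r) ^ 2 ≤ 1 / 4 + 2 * ∑ d ∈ Finset.range K, max 0 (S - (((r + d : ℕ) : ℝ) + 1 / 2)) +
      2 * ∑ d ∈ Finset.range r, max 0 ((((r - 1 - d : ℕ) : ℝ) + 1 / 2) - S) := by
  have p1 : 0 ≤ ∑ d ∈ Finset.range K, max 0 (S - (((r + d : ℕ) : ℝ) + 1 / 2)) :=
    Finset.sum_nonneg fun _ _ => le_max_left _ _
  have p2 : 0 ≤ ∑ d ∈ Finset.range r, max 0 ((((r - 1 - d : ℕ) : ℝ) + 1 / 2) - S) :=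
    Finset.sum_nonneg fun _ _ => le_max_left _ _
  rcases le_total (r : ℝ) S with h | h
  · have h2 := sq_le_sum (s := S - r) (by linarith) (K := K) (by linarith)
    have e : ∑ d ∈ Finset.range K, max 0 (S - (((r + d : ℕ) : ℝ) + 1 / 2)) =
        ∑ d ∈ Finset.range K, max 0 (S - r - ((d : ℝ) + 1 / 2)) := by
      apply Finset.sum_congr rfl
      intro d _
      congr 1
      push_cast
      ring
    rw [e]
    linarith
  · have h2 := sq_le_sum (s := r - S) (by linarith) (K := r) (by linarith)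
    have e : ∑ d ∈ Finset.range r, max 0 ((((r - 1 - d : ℕ) : ℝ) + 1 / 2) - S) =
        ∑ d ∈ Finset.range r, max 0 (r - S - ((d : ℝ) + 1 / 2)) := by
      apply Finset.sum_congr rfl
      intro d hd
      rw [Finset.mem_range] at hd
      congr 1
      rw [Nat.cast_sub (by omega), Nat.cast_sub (by omega)]
      push_cast
      ring
    rw [e]
    have e2 : (S - r) ^ 2 = (r - S) ^ 2 := by ring
    rw [e2]
    linarith

/-! ### The tail -/

lemma tail_count (hRH : RiemannHypothesis) {r : ℕ} (hr : 1 ≤ r) : ∃ c x0 : ℝ, 0 < c ∧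
    ∀ N : ℕ, 1 ≤ N → ∀ x : ℝ, x0 ≤ x →
      ({n : ℕ | 1 ≤ n ∧ n ≤ N ∧ x ≤ Sr r n}.ncard : ℝ) ≤ N * Real.exp (-c * x * Real.log x) := by
  classical
  obtain ⟨c, y0, hc, hy0, h⟩ := LG.gap_uniform (Pool.Agent.H707.SM.rhs_of hRH)
  have hr1 : (1 : ℝ) ≤ r := by exact_mod_cast hr
  have hr0 : (0 : ℝ) < r := by linarith
  -- `x` large
  have hlim : Tendsto (fun x : ℝ => c / (4 * r) * (x * Real.log x)) atTop atTop :=
    (tendsto_id.atTop_mul_atTop₀ Real.tendsto_log_atTop).const_mul_atTop (by positivity)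
  obtain ⟨x1, hx1⟩ := (hlim.eventually_ge_atTop (Real.log (r * (1 + r)))).exists_forall_of_atTop
  refine ⟨c / (4 * r), max (max x1 1) (max (y0 * r) ((r : ℝ) ^ 2)), by positivity,
    fun N hN x hx => ?_⟩
  have a1 : x1 ≤ x := ((le_max_left _ _).trans (le_max_left _ _)).trans hx
  have a2 : 1 ≤ x := ((le_max_right _ _).trans (le_max_left _ _)).trans hx
  have a3 : y0 * r ≤ x := ((le_max_left _ _).trans (le_max_right _ _)).trans hx
  have a4 : (r : ℝ) ^ 2 ≤ x := ((le_max_right _ _).trans (le_max_right _ _)).trans hx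
  have hN1 : (1 : ℝ) ≤ N := by exact_mod_cast hN
  -- the counting
  set E : Finset ℕ := (Finset.Icc 1 N).filter (fun n => x ≤ Sr r n) with hE
  set G : Finset ℕ := (Finset.Icc 1 (N + r)).filter (fun n => x / r ≤ dlt n) with hG
  have e1 : {n : ℕ | 1 ≤ n ∧ n ≤ N ∧ x ≤ Sr r n} = (E : Set ℕ) := by
    ext n
    simp [hE, and_assoc]
  have e2 : {n : ℕ | 1 ≤ n ∧ n ≤ N + r ∧ x / r ≤ dlt n} = (G : Set ℕ) := by
    ext n
    simp [hG, and_assoc]
  have hGc := h (N + r) (by omega) (x / r) (by rw [le_div_iff₀ hr0]; exact a3)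
  rw [e2, Set.ncard_coe_finset] at hGc
  rw [e1, Set.ncard_coe_finset]
  have hsub : E ⊆ (Finset.range r).biUnion (fun i => (Finset.Icc 1 N).filter
      (fun n => n + i ∈ G)) := by
    intro n hn
    rw [hE, Finset.mem_filter, Finset.mem_Icc] at hn
    obtain ⟨⟨h1, h2⟩, h3⟩ := hn
    rw [Finset.mem_biUnion]
    by_contra hcon
    push Not at hcon
    have h4 : ∀ i ∈ Finset.range r, dlt (n + i) < x / r := by
      intro i hi
      have h5 := hcon i hi
      rw [Finset.mem_filter, not_and] at h5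
      have h6 := h5 (Finset.mem_Icc.2 ⟨h1, h2⟩)
      rw [hG, Finset.mem_filter, not_and] at h6
      rw [Finset.mem_range] at hi
      have h7 := h6 (Finset.mem_Icc.2 ⟨by omega, by omega⟩)
      rwa [not_le] at h7
    have h5 : Sr r n < ∑ i ∈ Finset.range r, x / r :=
      Finset.sum_lt_sum_of_nonempty ⟨0, Finset.mem_range.2 hr⟩ h4
    rw [Finset.sum_const, Finset.card_range, nsmul_eq_mul, mul_div_cancel₀ _ hr0.ne'] at h5
    linarith
  have hcard : (E.card : ℝ) ≤ r * G.card := by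
    have h1 : E.card ≤ ∑ i ∈ Finset.range r, ((Finset.Icc 1 N).filter (fun n => n + i ∈ G)).card :=
      (Finset.card_le_card hsub).trans Finset.card_biUnion_le
    have h2 : ∀ i ∈ Finset.range r, ((Finset.Icc 1 N).filter (fun n => n + i ∈ G)).card ≤ G.card := by
      intro i _
      apply Finset.card_le_card_of_injOn (fun n => n + i)
      · intro n hn
        have hn' := Finset.mem_coe.1 hn
        rw [Finset.mem_filter] at hn'
        exact Finset.mem_coe.2 hn'.2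
      · intro a _ b _ hab
        simpa using hab
    have h3 := h1.trans (Finset.sum_le_sum h2)
    rw [Finset.sum_const, Finset.card_range, smul_eq_mul] at h3
    exact_mod_cast h3
  -- the estimate
  have hlogx : 0 ≤ Real.log x := Real.log_nonneg a2
  have hlogr : 2 * Real.log r ≤ Real.log x := by
    have : Real.log ((r : ℝ) ^ 2) ≤ Real.log x := Real.log_le_log (by positivity) a4
    rw [Real.log_pow] at this
    exact_mod_cast this
  have hexp : Real.exp (-c * (x / r) * Real.log (x / r)) ≤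
      Real.exp (-(c / (2 * r) * (x * Real.log x))) := by
    apply Real.exp_le_exp.2
    rw [Real.log_div (by linarith) hr0.ne']
    have h1 : Real.log x / 2 ≤ Real.log x - Real.log r := by linarith
    have h2 : 0 ≤ c * (x / r) := by positivity
    have h3 := mul_le_mul_of_nonneg_left h1 h2
    have h4 : c * (x / r) * (Real.log x / 2) = c / (2 * r) * (x * Real.log x) := by
      field_simp
    linarith
  have h5 : r * (1 + (r : ℝ)) ≤ Real.exp (c / (4 * r) * (x * Real.log x)) := by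
    have h6 := hx1 x a1
    rw [← Real.log_le_iff_le_exp (by positivity)]
    exact h6
  have h7 : ((N + r : ℕ) : ℝ) ≤ (1 + r) * N := by
    push_cast
    nlinarith
  calc (E.card : ℝ) ≤ r * G.card := hcard
    _ ≤ r * (((N + r : ℕ) : ℝ) * Real.exp (-c * (x / r) * Real.log (x / r))) :=
        mul_le_mul_of_nonneg_left hGc hr0.le
    _ ≤ r * (((1 + r) * N) * Real.exp (-(c / (2 * r) * (x * Real.log x)))) := by
        apply mul_le_mul_of_nonneg_left _ hr0.le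
        exact mul_le_mul h7 hexp (Real.exp_pos _).le (by positivity)
    _ = (r * (1 + r)) * (N * Real.exp (-(c / (2 * r) * (x * Real.log x)))) := by ring
    _ ≤ Real.exp (c / (4 * r) * (x * Real.log x)) *
        (N * Real.exp (-(c / (2 * r) * (x * Real.log x)))) :=
        mul_le_mul_of_nonneg_right h5 (by positivity)
    _ = N * Real.exp (-(c / (4 * r)) * x * Real.log x) := by
        rw [mul_comm, mul_assoc, ← Real.exp_add]
        congr 2
        field_simp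
        ring

lemma tail_Sr (hRH : RiemannHypothesis) {r : ℕ} (hr : 1 ≤ r) {ε : ℝ} (hε : 0 < ε) :
    ∃ K0 : ℕ, ∀ K : ℕ, K0 ≤ K → ∀ N : ℕ, 1 ≤ N → ∑ n ∈ Finset.Icc 1 N, tl K (Sr r n) ≤ ε * N := by
  obtain ⟨c, x0, hc, h⟩ := tail_count hRH hr
  exact Pool.Agent.H707.SM.tail hc h hε

lemma Sr_nonneg (r : ℕ) : ∃ n0 : ℕ, ∀ n : ℕ, n0 ≤ n → 0 ≤ Sr r n := by
  obtain ⟨n0, hn0⟩ := Pool.Agent.H707.SM.dlt_nonneg
  exact ⟨n0, fun n hn => Finset.sum_nonneg fun i _ => hn0 (n + i) (by omega)⟩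

end Pool.Agent.H666.ZG
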